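import Pool.Agent.Helper60.MV.B.Spec

/-!
MV-B1. Facts about `phi w = w / (exp w - 1)` (`phi 0 = 1`).

Proofs. `w / (e^w - 1) = e^{-w/2} (w/2)/sinh(w/2)`; `sinh u / u >= 1`, so `0 < phi w <= e^{-w/2}`.
Shift: the logarithmic derivative of `phi` is `1/w - 1 - 1/(e^w - 1)`, which lies in `[-1, 0]` because
`e^w - 1 >= w` (both signs of `w`), so `phi` is decreasing and `e^w phi(w)` is increasing. (Note
`e^w phi w = w/(1 - e^{-w}) = phi (-w)`, so the second statement is the first one for `-w`.)
Antitone: `phi w = 1 / g w` with `g w = (e^w - 1)/w = ∫_0^1 e^{s w} ds` (`g 0 = 1`) increasing, continuous, positive.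
Bound with 9/10: for `w >= 0`, `phi w = w/(e^w-1) <= (1+w) e^{-w}` (as `w <= (1+w)(1-e^{-w})`, from
`e^w >= 1 + w`), and `1 + w <= 10 e^{(w-9)/10}` gives `phi w e^{9w/10} <= 10 e^{-9/10} <= 5`;
for `-1 <= w <= 0`: `phi w <= phi (-1) <= 2 <= 5 e^{-9w/10}`.
-/

namespace Pool.Agent.Helper60.MV

private noncomputable def gphi (w : ℝ) : ℝ := if w = 0 then 1 else (Real.exp w - 1) / w

private theorem phi_eq_inv (w : ℝ) : phi w = (gphi w)⁻¹ := by
  unfold phi gphi
  split_ifs with h
  · simp
  · rw [inv_div]

private theorem gphi_mono : Monotone gphi := by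
  intro x y hxy
  unfold gphi
  by_cases hx : x = 0
  · by_cases hy : y = 0
    · simp [hx, hy]
    · have hy0 : 0 < y := lt_of_le_of_ne (by rw [← hx]; exact hxy) (Ne.symm hy)
      rw [if_pos hx, if_neg hy, le_div_iff₀ hy0]
      have := Real.add_one_le_exp y
      linarith
  · by_cases hy : y = 0
    · have hx0 : x < 0 := lt_of_le_of_ne (by rw [← hy]; exact hxy) hx
      rw [if_neg hx, if_pos hy, div_le_iff_of_neg hx0]
      have := Real.add_one_le_exp x
      linarith
    · rw [if_neg hx, if_neg hy]
      have h := convexOn_exp.secant_mono (a := 0) (x := x) (y := y) (Set.mem_univ _)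
        (Set.mem_univ _) (Set.mem_univ _) hx hy hxy
      simpa using h

private theorem gphi_pos (w : ℝ) : 0 < gphi w := by
  unfold gphi
  split_ifs with h
  · exact one_pos
  · rcases lt_or_gt_of_ne h with h' | h'
    · apply div_pos_of_neg_of_neg _ h'
      have := Real.exp_lt_one_iff.mpr h'
      linarith
    · apply div_pos _ h'
      have := Real.add_one_lt_exp h
      linarith

theorem phi_pos (w : ℝ) : 0 < phi w := by
  rw [phi_eq_inv]
  exact inv_pos.mpr (gphi_pos w)

theorem phi_antitone : Antitone phi := by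
  intro x y hxy
  rw [phi_eq_inv, phi_eq_inv]
  exact inv_anti₀ (gphi_pos x) (gphi_mono hxy)

theorem phi_continuous : Continuous phi := by
  have h1 : phi = fun w => (dslope Real.exp 0 w)⁻¹ := by
    funext w
    rw [phi_eq_inv]
    unfold gphi
    by_cases h : w = 0
    · rw [if_pos h, h, dslope_same]
      simp
    · rw [if_neg h, dslope_of_ne _ h, slope_def_field]
      simp
  have h2 : Continuous (dslope Real.exp 0) := by
    rw [← continuousOn_univ]
    rw [continuousOn_dslope Filter.univ_mem]
    exact ⟨Real.continuous_exp.continuousOn, Real.differentiable_exp.differentiableAt⟩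
  rw [h1]
  apply h2.inv₀
  intro w
  have : dslope Real.exp 0 w = gphi w := by
    unfold gphi
    by_cases h : w = 0
    · rw [if_pos h, h, dslope_same]
      simp
    · rw [if_neg h, dslope_of_ne _ h, slope_def_field]
      simp
  rw [this]
  exact (gphi_pos w).ne'

theorem phi_le_exp (w : ℝ) : phi w ≤ Real.exp (-(w / 2)) := by
  unfold phi
  split_ifs with h
  · simp [h]
  · have he : Real.exp (-(w / 2)) * (Real.exp w - 1) = 2 * Real.sinh (w / 2) := by
      rw [Real.sinh_eq, mul_sub, ← Real.exp_add]
      have : -(w / 2) + w = w / 2 := by ring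
      rw [this]
      ring
    rcases lt_or_gt_of_ne h with h' | h'
    · have h1 : Real.exp w - 1 < 0 := by
        have := Real.exp_lt_one_iff.mpr h'
        linarith
      rw [div_le_iff_of_neg h1, he]
      have := Real.sinh_le_self_iff.mpr (show w / 2 ≤ 0 by linarith)
      linarith
    · have h1 : 0 < Real.exp w - 1 := by
        have := Real.add_one_lt_exp h
        linarith
      rw [div_le_iff₀ h1, he]
      have := Real.self_le_sinh_iff.mpr (show 0 ≤ w / 2 by linarith)
      linarith

private theorem phi_neg (w : ℝ) : phi (-w) = Real.exp w * phi w := by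
  unfold phi
  by_cases h : w = 0
  · simp [h]
  · have h' : -w ≠ 0 := neg_ne_zero.mpr h
    rw [if_neg h, if_neg h', Real.exp_neg]
    have h1 : Real.exp w - 1 ≠ 0 := by
      intro h2
      apply h
      have h3 : Real.exp w = 1 := by linarith
      exact (Real.exp_eq_one_iff w).mp h3
    have h2 : (Real.exp w)⁻¹ - 1 ≠ 0 := by
      intro h3
      apply h1
      have h4 : (Real.exp w)⁻¹ = 1 := by linarith
      rw [inv_eq_one] at h4
      rw [h4]
      ring
    have h3 : Real.exp w ≠ 0 := (Real.exp_pos w).ne'
    have h4 : (Real.exp w)⁻¹ - 1 = -(Real.exp w - 1) / Real.exp w := by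
      field_simp
      ring
    rw [h4, div_div_eq_mul_div, neg_mul, neg_div_neg_eq]
    ring

theorem phi_shift (w η : ℝ) (hη : 0 ≤ η) : Real.exp (-η) * phi w ≤ phi (w + η) := by
  have h1 : phi (-w) ≤ phi (-(w + η)) := phi_antitone (by linarith)
  rw [phi_neg, phi_neg, Real.exp_add, mul_assoc] at h1
  have h2 := le_of_mul_le_mul_left h1 (Real.exp_pos w)
  have h3 : Real.exp (-η) * phi w ≤ Real.exp (-η) * (Real.exp η * phi (w + η)) :=
    mul_le_mul_of_nonneg_left h2 (Real.exp_pos _).le
  rw [← mul_assoc, ← Real.exp_add, neg_add_cancel, Real.exp_zero, one_mul] at h3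
  exact h3

theorem phi_le_exp9 (w : ℝ) (hw : -1 ≤ w) : phi w ≤ 5 * Real.exp (-(9 / 10 * w)) := by
  rcases le_total 0 w with h | h
  · have h1 : phi w ≤ (1 + w) * Real.exp (-w) := by
      unfold phi
      by_cases h0 : w = 0
      · simp [h0]
      · rw [if_neg h0]
        have h2 : 0 < Real.exp w - 1 := by
          have := Real.add_one_lt_exp h0
          linarith
        rw [div_le_iff₀ h2]
        have h3 : (1 + w) * Real.exp (-w) * (Real.exp w - 1) = (1 + w) * (1 - Real.exp (-w)) := by
          have : Real.exp (-w) * Real.exp w = 1 := by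
            rw [← Real.exp_add, neg_add_cancel, Real.exp_zero]
          linear_combination (1 + w) * this
        rw [h3]
        have h4 : (1 + w) * Real.exp (-w) ≤ 1 := by
          have h5 := Real.add_one_le_exp w
          have h6 : (1 + w) * Real.exp (-w) ≤ Real.exp w * Real.exp (-w) :=
            mul_le_mul_of_nonneg_right (by linarith) (Real.exp_pos _).le
          rw [← Real.exp_add, add_neg_cancel, Real.exp_zero] at h6
          exact h6
        linarith
    have h2 : 1 + w ≤ 10 * Real.exp ((w - 9) / 10) := by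
      have := Real.add_one_le_exp ((w - 9) / 10)
      linarith
    have h3 : phi w ≤ 10 * Real.exp ((w - 9) / 10) * Real.exp (-w) :=
      h1.trans (mul_le_mul_of_nonneg_right h2 (Real.exp_pos _).le)
    have h4 : 10 * Real.exp ((w - 9) / 10) * Real.exp (-w)
        = 10 * Real.exp (-(9 / 10)) * Real.exp (-(9 / 10 * w)) := by
      rw [mul_assoc, mul_assoc, ← Real.exp_add, ← Real.exp_add]
      congr 2
      ring
    have h5 : 10 * Real.exp (-(9 / 10 : ℝ)) ≤ 5 := by
      rw [Real.exp_neg]
      have h6 := Real.quadratic_le_exp_of_nonneg (show (0:ℝ) ≤ 9 / 10 by norm_num)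
      have h7 : (2:ℝ) ≤ Real.exp (9 / 10) := by
        refine le_trans ?_ h6
        norm_num
      have h8 : (Real.exp (9 / 10 : ℝ))⁻¹ ≤ (2:ℝ)⁻¹ := inv_anti₀ (by norm_num) h7
      linarith
    rw [h4] at h3
    exact h3.trans (mul_le_mul_of_nonneg_right h5 (Real.exp_pos _).le)
  · have h1 : phi w ≤ phi (-1) := phi_antitone hw
    have h2 : phi (-1) ≤ 2 := by
      rw [phi_neg]
      unfold phi
      rw [if_neg one_ne_zero]
      have h3 : (2:ℝ) ≤ Real.exp 1 := by
        have := Real.add_one_le_exp (1:ℝ)
        linarith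
      have h4 : 0 < Real.exp 1 - 1 := by linarith
      rw [mul_one_div, div_le_iff₀ h4]
      linarith
    have h5 : (1:ℝ) ≤ Real.exp (-(9 / 10 * w)) := Real.one_le_exp (by linarith)
    linarith

end Pool.Agent.Helper60.MV
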