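import Pool.Agent.Helper60.MV.B.Spec

/-!
MV-B2. Facts about the tent and its autocorrelation (`0 < ε` everywhere).

Proofs. `tent x = max 0 (1-|x|)` is continuous, even, supported in `[-1,1]`, has integral 1 (compute on `[-1,0]`
and `[0,1]`), `0 <= tent <= 1`. Rescale (`integral_comp_div` or similar). `corr ε d = ∫ tentE ε z tentE ε (z-d)`:
nonnegative, `<= 1/ε` (bound the first factor by `1/ε`, the second one has integral 1), even (change of variables
`z -> z + d` and evenness of the tent), zero if `|d| >= 2 ε`, continuous (continuity of parameter integrals: the integrand is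
continuous and supported in `[-ε, ε]`), total integral 1 (Fubini).
-/

namespace Pool.Agent.Helper60.MV

open MeasureTheory

private theorem tent_nonneg (x : ℝ) : 0 ≤ tent x := le_max_left _ _

private theorem tent_le_one (x : ℝ) : tent x ≤ 1 :=
  max_le (by norm_num) (by linarith [abs_nonneg x])

private theorem tent_continuous : Continuous tent :=
  continuous_const.max (continuous_const.sub continuous_abs)

private theorem tent_zero {x : ℝ} (hx : 1 ≤ |x|) : tent x = 0 :=
  max_eq_left (by linarith)

private theorem tent_integral : ∫ x, tent x = 1 := by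
  have hs : Function.support tent ⊆ Set.Ioc (-1) 1 := by
    intro x hx
    by_contra hcon
    apply hx
    apply tent_zero
    rcases le_or_gt x (-1) with h | h
    · rw [abs_of_nonpos (by linarith)]
      linarith
    · have : 1 < x := by
        by_contra h2
        exact hcon ⟨h, not_lt.mp h2⟩
      rw [abs_of_pos (by linarith)]
      exact this.le
  rw [← intervalIntegral.integral_eq_integral_of_support_subset hs,
    ← intervalIntegral.integral_add_adjacent_intervals (b := 0)
      (tent_continuous.intervalIntegrable _ _) (tent_continuous.intervalIntegrable _ _)]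
  have h1 : ∫ x in (-1 : ℝ)..0, tent x = ∫ x in (-1 : ℝ)..0, (1 + x) := by
    apply intervalIntegral.integral_congr
    intro x hx
    rw [Set.uIcc_of_le (by norm_num)] at hx
    simp only [tent]
    rw [abs_of_nonpos hx.2, max_eq_right (by linarith [hx.1])]
    ring
  have h2 : ∫ x in (0 : ℝ)..1, tent x = ∫ x in (0 : ℝ)..1, (1 - x) := by
    apply intervalIntegral.integral_congr
    intro x hx
    rw [Set.uIcc_of_le (by norm_num)] at hx
    simp only [tent]
    rw [abs_of_nonneg hx.1, max_eq_right (by linarith [hx.2])]
  have h3 : ∫ x in (-1 : ℝ)..0, (1 + x) = 1 / 2 := by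
    rw [intervalIntegral.integral_add (by simp) (by simp)]
    simp
    norm_num
  have h4 : ∫ x in (0 : ℝ)..1, (1 - x) = 1 / 2 := by
    rw [intervalIntegral.integral_sub (by simp) (by simp)]
    simp
    norm_num
  rw [h1, h2, h3, h4]
  norm_num

theorem tentE_nonneg (ε : ℝ) (hε : 0 < ε) (x : ℝ) : 0 ≤ tentE ε x :=
  mul_nonneg (inv_nonneg.mpr hε.le) (tent_nonneg _)

theorem tentE_le (ε : ℝ) (hε : 0 < ε) (x : ℝ) : tentE ε x ≤ ε⁻¹ :=
  mul_le_of_le_one_right (inv_nonneg.mpr hε.le) (tent_le_one _)

theorem tentE_continuous (ε : ℝ) : Continuous (tentE ε) :=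
  continuous_const.mul (tent_continuous.comp (continuous_id.div_const ε))

theorem tentE_even (ε x : ℝ) : tentE ε (-x) = tentE ε x := by
  simp only [tentE, tent, neg_div, abs_neg]

theorem tentE_zero (ε : ℝ) (hε : 0 < ε) (x : ℝ) (hx : ε ≤ |x|) : tentE ε x = 0 := by
  have h : tent (x / ε) = 0 := by
    apply tent_zero
    rw [abs_div, abs_of_pos hε, le_div_iff₀ hε]
    linarith
  rw [tentE, h, mul_zero]

private theorem tentE_compact (ε : ℝ) (hε : 0 < ε) : HasCompactSupport (tentE ε) := by
  refine HasCompactSupport.intro (isCompact_Icc (a := -ε) (b := ε)) (fun x hx => ?_)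
  apply tentE_zero ε hε
  by_contra hcon
  apply hx
  exact abs_le.mp (not_le.mp hcon).le

theorem tentE_integrable (ε : ℝ) (hε : 0 < ε) : Integrable (tentE ε) :=
  (tentE_continuous ε).integrable_of_hasCompactSupport (tentE_compact ε hε)

theorem tentE_integral (ε : ℝ) (hε : 0 < ε) : ∫ x, tentE ε x = 1 := by
  simp only [tentE]
  rw [integral_const_mul, Measure.integral_comp_div (fun x => tent x) ε, tent_integral,
    abs_of_pos hε]
  simp only [smul_eq_mul, mul_one]
  exact inv_mul_cancel₀ hε.ne'

private theorem prod_integrable (ε : ℝ) (hε : 0 < ε) (d : ℝ) :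
    Integrable (fun z => tentE ε z * tentE ε (z - d)) := by
  refine Continuous.integrable_of_hasCompactSupport ?_ ?_
  · exact (tentE_continuous ε).mul ((tentE_continuous ε).comp (continuous_id.sub continuous_const))
  · exact (tentE_compact ε hε).mul_right

theorem corr_nonneg (ε : ℝ) (hε : 0 < ε) (d : ℝ) : 0 ≤ corr ε d :=
  integral_nonneg (fun z => mul_nonneg (tentE_nonneg ε hε _) (tentE_nonneg ε hε _))

theorem corr_le (ε : ℝ) (hε : 0 < ε) (d : ℝ) : corr ε d ≤ ε⁻¹ := by
  have h1 : corr ε d ≤ ∫ z, ε⁻¹ * tentE ε (z - d) := by
    apply integral_mono (prod_integrable ε hε d)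
      (((tentE_integrable ε hε).comp_sub_right d).const_mul _)
    intro z
    exact mul_le_mul_of_nonneg_right (tentE_le ε hε z) (tentE_nonneg ε hε _)
  rw [integral_const_mul, integral_sub_right_eq_self (tentE ε) d, tentE_integral ε hε,
    mul_one] at h1
  exact h1

theorem corr_even (ε : ℝ) (hε : 0 < ε) (d : ℝ) : corr ε (-d) = corr ε d := by
  have h := integral_sub_right_eq_self (μ := volume) (fun z => tentE ε z * tentE ε (z - -d)) d
  simp only [corr]
  rw [← h]
  congr 1
  funext z
  rw [show z - d - -d = z by ring, mul_comm]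

theorem corr_zero (ε : ℝ) (hε : 0 < ε) (d : ℝ) (hd : 2 * ε ≤ |d|) : corr ε d = 0 := by
  have h : ∀ z, tentE ε z * tentE ε (z - d) = 0 := by
    intro z
    rcases le_or_gt ε |z| with h1 | h1
    · rw [tentE_zero ε hε z h1, zero_mul]
    · have h2 : ε ≤ |z - d| := by
        have h3 : |d| ≤ |z| + |z - d| := by
          have := abs_sub z (z - d)
          rwa [show z - (z - d) = d by ring] at this
        linarith
      rw [tentE_zero ε hε (z - d) h2, mul_zero]
  simp only [corr, h, integral_zero]

theorem corr_continuous (ε : ℝ) (hε : 0 < ε) : Continuous (corr ε) := by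
  refine continuous_of_dominated (F := fun d z => tentE ε z * tentE ε (z - d))
    (bound := fun z => tentE ε z * ε⁻¹) ?_ ?_ ?_ ?_
  · intro d
    exact ((tentE_continuous ε).mul ((tentE_continuous ε).comp
      (continuous_id.sub continuous_const))).aestronglyMeasurable
  · intro d
    refine Filter.Eventually.of_forall (fun z => ?_)
    rw [Real.norm_of_nonneg (mul_nonneg (tentE_nonneg ε hε _) (tentE_nonneg ε hε _))]
    exact mul_le_mul_of_nonneg_left (tentE_le ε hε _) (tentE_nonneg ε hε _)
  · exact (tentE_integrable ε hε).mul_const _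
  · refine Filter.Eventually.of_forall (fun z => ?_)
    exact continuous_const.mul ((tentE_continuous ε).comp (continuous_const.sub continuous_id))

theorem corr_integrable (ε : ℝ) (hε : 0 < ε) : Integrable (corr ε) := by
  refine (corr_continuous ε hε).integrable_of_hasCompactSupport ?_
  refine HasCompactSupport.intro (isCompact_Icc (a := -(2 * ε)) (b := 2 * ε)) (fun x hx => ?_)
  apply corr_zero ε hε
  by_contra hcon
  apply hx
  exact abs_le.mp (not_le.mp hcon).le

theorem corr_integral (ε : ℝ) (hε : 0 < ε) : ∫ x, corr ε x = 1 := by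
  have hint : Integrable (Function.uncurry (fun d z : ℝ => tentE ε z * tentE ε (z - d)))
      (volume.prod volume) := by
    refine Continuous.integrable_of_hasCompactSupport ?_ ?_
    · exact ((tentE_continuous ε).comp continuous_snd).mul
        ((tentE_continuous ε).comp (continuous_snd.sub continuous_fst))
    · refine HasCompactSupport.intro
        ((isCompact_Icc (a := -(2 * ε)) (b := 2 * ε)).prod (isCompact_Icc (a := -ε) (b := ε)))
        (fun x hx => ?_)
      simp only [Function.uncurry]
      rcases le_or_gt ε |x.2| with h1 | h1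
      · rw [tentE_zero ε hε _ h1, zero_mul]
      · have h2 : ε ≤ |x.2 - x.1| := by
          by_contra h4
          apply hx
          have h3 : |x.1| ≤ |x.2| + |x.2 - x.1| := by
            have := abs_sub x.2 (x.2 - x.1)
            rwa [show x.2 - (x.2 - x.1) = x.1 by ring] at this
          refine Set.mem_prod.mpr ⟨?_, ?_⟩
          · exact abs_le.mp (by linarith [not_le.mp h4])
          · exact abs_le.mp h1.le
        rw [tentE_zero ε hε _ h2, mul_zero]
  simp only [corr]
  rw [integral_integral_swap hint]
  have h : ∀ z : ℝ, ∫ d : ℝ, tentE ε z * tentE ε (z - d) = tentE ε z := by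
    intro z
    rw [integral_const_mul, integral_sub_left_eq_self (tentE ε) volume z, tentE_integral ε hε,
      mul_one]
  simp only [h]
  exact tentE_integral ε hε

end Pool.Agent.Helper60.MV
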