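import Pool.Agent.Helper60.MV.B.Phi
import Pool.Agent.Helper60.MV.B.Tent

/-!
MV-B3. Bounds for `kern ε p p' = ∫ phi a * tentE ε (p-a) * tentE ε (p'-a)`.

Proofs. On the support of the integrand `|a - p| < ε` and `|a - p'| < ε`, so `a >= (p+p')/2 - ε`;
`∫ tentE ε (p-a) tentE ε (p'-a) da = corr ε (p - p')` (substitution `z = p - a`... and evenness). `phi` is decreasing with
`phi (w+η) >= e^{-η} phi w`, so `e^{-ε} phi p <= phi a <= e^ε phi p`. With `phi a <= e^{-a/2}`:
`kern <= e^{ε/2} e^{-(p+p')/4} corr`. With `phi a <= 5 e^{-9a/10}` (`a >= -1/2`), `ε <= 1/2`: `5 e^{9/20} <= 8 <= 10`.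
Shift: substitute `a = a' - η` in `kern ε (p-η) (p'-η)` and use `phi (a'-η) <= e^η phi a'`.
Continuity in `(p,p')`: parameter integral over a bounded set locally uniformly (the integrand is jointly continuous; for `(p,p')` in a
bounded set the support in `a` is bounded).
-/

namespace Pool.Agent.Helper60.MV

open MeasureTheory

/-- the product of two tents is integrable -/
private theorem tt_integrable (ε : ℝ) (hε : 0 < ε) (p p' : ℝ) :
    Integrable (fun a : ℝ => tentE ε (p - a) * tentE ε (p' - a)) := by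
  have h1 : Integrable (fun a : ℝ => ε⁻¹ * tentE ε (p - a)) :=
    ((tentE_integrable ε hε).comp_sub_left p).const_mul _
  refine h1.mono' ?_ ?_
  · exact (((tentE_continuous ε).comp (continuous_const.sub continuous_id)).mul
      ((tentE_continuous ε).comp (continuous_const.sub continuous_id))).aestronglyMeasurable
  · refine Filter.Eventually.of_forall (fun a => ?_)
    rw [Real.norm_eq_abs, abs_of_nonneg (mul_nonneg (tentE_nonneg ε hε _) (tentE_nonneg ε hε _)),
      mul_comm]
    exact mul_le_mul_of_nonneg_right (tentE_le ε hε _) (tentE_nonneg ε hε _)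

private theorem tt_integral (ε p p' : ℝ) :
    ∫ a : ℝ, tentE ε (p - a) * tentE ε (p' - a) = corr ε (p - p') := by
  have h := integral_sub_left_eq_self (fun z : ℝ => tentE ε z * tentE ε (z - (p - p'))) volume p
  unfold corr
  rw [← h]
  refine integral_congr_ae (Filter.Eventually.of_forall (fun a => ?_))
  have h2 : p - a - (p - p') = p' - a := by ring
  simp only [h2]

private theorem supp1 (ε : ℝ) (hε : 0 < ε) (p a : ℝ) (h : tentE ε (p - a) ≠ 0) :
    p - ε < a ∧ a < p + ε := by
  have h1 : |p - a| < ε := by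
    by_contra h2
    exact h (tentE_zero ε hε _ (not_lt.mp h2))
  rw [abs_lt] at h1
  constructor <;> linarith

/-- generic upper bound -/
private theorem kern_le_of (ε : ℝ) (hε : 0 < ε) (p p' c : ℝ)
    (h : ∀ a, p - ε < a → a < p + ε → p' - ε < a → a < p' + ε → phi a ≤ c) :
    kern ε p p' ≤ c * corr ε (p - p') := by
  rw [← tt_integral, ← integral_const_mul]
  unfold kern
  refine integral_mono_of_nonneg (Filter.Eventually.of_forall (fun a => ?_))
    ((tt_integrable ε hε p p').const_mul c) (Filter.Eventually.of_forall (fun a => ?_))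
  · exact mul_nonneg (mul_nonneg (phi_pos a).le (tentE_nonneg ε hε _)) (tentE_nonneg ε hε _)
  · show phi a * tentE ε (p - a) * tentE ε (p' - a) ≤ c * (tentE ε (p - a) * tentE ε (p' - a))
    by_cases h1 : tentE ε (p - a) = 0
    · rw [h1]; simp
    by_cases h2 : tentE ε (p' - a) = 0
    · rw [h2]; simp
    obtain ⟨a1, a2⟩ := supp1 ε hε p a h1
    obtain ⟨b1, b2⟩ := supp1 ε hε p' a h2
    rw [mul_assoc]
    exact mul_le_mul_of_nonneg_right (h a a1 a2 b1 b2)
      (mul_nonneg (tentE_nonneg ε hε _) (tentE_nonneg ε hε _))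

private theorem phi_le_shift (ε : ℝ) (hε : 0 < ε) (p a : ℝ) (h : p - ε < a) :
    phi a ≤ Real.exp ε * phi p := by
  have h1 : phi a ≤ phi (p - ε) := phi_antitone h.le
  have h2 := phi_shift (p - ε) ε hε.le
  rw [sub_add_cancel] at h2
  have h3 : phi (p - ε) = Real.exp ε * (Real.exp (-ε) * phi (p - ε)) := by
    rw [← mul_assoc, ← Real.exp_add, add_neg_cancel, Real.exp_zero, one_mul]
  rw [h3] at h1
  exact h1.trans (mul_le_mul_of_nonneg_left h2 (Real.exp_pos _).le)

/-- the integrand of the kernel is integrable -/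
private theorem kern_integrable (ε : ℝ) (hε : 0 < ε) (p p' : ℝ) :
    Integrable (fun a : ℝ => phi a * tentE ε (p - a) * tentE ε (p' - a)) := by
  refine ((tt_integrable ε hε p p').const_mul (Real.exp ε * phi p)).mono' ?_ ?_
  · exact ((phi_continuous.mul ((tentE_continuous ε).comp
      (continuous_const.sub continuous_id))).mul
      ((tentE_continuous ε).comp (continuous_const.sub continuous_id))).aestronglyMeasurable
  · refine Filter.Eventually.of_forall (fun a => ?_)
    rw [Real.norm_eq_abs, abs_of_nonneg (mul_nonneg (mul_nonneg (phi_pos a).le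
      (tentE_nonneg ε hε _)) (tentE_nonneg ε hε _))]
    by_cases h1 : tentE ε (p - a) = 0
    · rw [h1]; simp
    obtain ⟨a1, a2⟩ := supp1 ε hε p a h1
    rw [mul_assoc]
    exact mul_le_mul_of_nonneg_right (phi_le_shift ε hε p a a1)
      (mul_nonneg (tentE_nonneg ε hε _) (tentE_nonneg ε hε _))

theorem kern_nonneg (ε : ℝ) (hε : 0 < ε) (p p' : ℝ) : 0 ≤ kern ε p p' := by
  unfold kern
  exact integral_nonneg (fun a => mul_nonneg (mul_nonneg (phi_pos a).le (tentE_nonneg ε hε _))
    (tentE_nonneg ε hε _))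

theorem kern_symm (ε : ℝ) (p p' : ℝ) : kern ε p p' = kern ε p' p := by
  unfold kern
  refine integral_congr_ae (Filter.Eventually.of_forall (fun a => ?_))
  show phi a * tentE ε (p - a) * tentE ε (p' - a) = phi a * tentE ε (p' - a) * tentE ε (p - a)
  ring

theorem kern_upper (ε : ℝ) (hε : 0 < ε) (p p' : ℝ) :
    kern ε p p' ≤ Real.exp ε * phi p * corr ε (p - p') :=
  kern_le_of ε hε p p' _ (fun a a1 _ _ _ => phi_le_shift ε hε p a a1)

theorem kern_lower (ε : ℝ) (hε : 0 < ε) (p p' : ℝ) :
    Real.exp (-ε) * phi p * corr ε (p - p') ≤ kern ε p p' := by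
  rw [← tt_integral, ← integral_const_mul]
  unfold kern
  refine integral_mono ((tt_integrable ε hε p p').const_mul _) (kern_integrable ε hε p p')
    (fun a => ?_)
  show Real.exp (-ε) * phi p * (tentE ε (p - a) * tentE ε (p' - a)) ≤
    phi a * tentE ε (p - a) * tentE ε (p' - a)
  by_cases h1 : tentE ε (p - a) = 0
  · rw [h1]; simp
  obtain ⟨a1, a2⟩ := supp1 ε hε p a h1
  rw [mul_assoc (phi a)]
  refine mul_le_mul_of_nonneg_right ?_ (mul_nonneg (tentE_nonneg ε hε _) (tentE_nonneg ε hε _))
  exact (phi_shift p ε hε.le).trans (phi_antitone a2.le)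

theorem kern_exp (ε : ℝ) (hε : 0 < ε) (p p' : ℝ) :
    kern ε p p' ≤ Real.exp (ε / 2) * Real.exp (-((p + p') / 4)) * corr ε (p - p') := by
  refine kern_le_of ε hε p p' _ (fun a a1 _ b1 _ => (phi_le_exp a).trans ?_)
  rw [← Real.exp_add]
  apply Real.exp_le_exp.mpr
  linarith

theorem kern_exp9 (ε : ℝ) (hε : 0 < ε) (hε2 : ε ≤ 1 / 2) (p p' : ℝ) (hp : 0 ≤ p) (hp' : 0 ≤ p') :
    kern ε p p' ≤ 10 * Real.exp (-(9 / 20 * (p + p'))) * corr ε (p - p') := by
  refine kern_le_of ε hε p p' _ (fun a a1 _ b1 _ => (phi_le_exp9 a (by linarith)).trans ?_)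
  have h2 : Real.exp (9 / 20) ≤ 2 := by
    have h3 : (9 / 20 : ℝ) ≤ Real.log 2 := by
      have := Real.log_two_gt_d9
      linarith
    calc Real.exp (9 / 20) ≤ Real.exp (Real.log 2) := Real.exp_le_exp.mpr h3
      _ = 2 := Real.exp_log (by norm_num)
  calc 5 * Real.exp (-(9 / 10 * a)) ≤ 5 * (Real.exp (9 / 20) * Real.exp (-(9 / 20 * (p + p')))) := by
        rw [← Real.exp_add]
        refine mul_le_mul_of_nonneg_left (Real.exp_le_exp.mpr ?_) (by norm_num)
        linarith
    _ ≤ 5 * (2 * Real.exp (-(9 / 20 * (p + p')))) := by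
        refine mul_le_mul_of_nonneg_left (mul_le_mul_of_nonneg_right h2 (Real.exp_pos _).le)
          (by norm_num)
    _ = 10 * Real.exp (-(9 / 20 * (p + p'))) := by ring

theorem kern_zero (ε : ℝ) (hε : 0 < ε) (p p' : ℝ) (h : 2 * ε ≤ |p - p'|) : kern ε p p' = 0 := by
  unfold kern
  rw [← integral_zero ℝ ℝ (μ := volume)]
  refine integral_congr_ae (Filter.Eventually.of_forall (fun a => ?_))
  show phi a * tentE ε (p - a) * tentE ε (p' - a) = 0
  by_cases h1 : tentE ε (p - a) = 0
  · rw [h1]; simp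
  by_cases h2 : tentE ε (p' - a) = 0
  · rw [h2]; simp
  obtain ⟨a1, a2⟩ := supp1 ε hε p a h1
  obtain ⟨b1, b2⟩ := supp1 ε hε p' a h2
  exfalso
  have h3 : |p - p'| < 2 * ε := by
    rw [abs_lt]
    constructor <;> linarith
  linarith

theorem kern_shift (ε : ℝ) (hε : 0 < ε) (p p' η : ℝ) (hη : 0 ≤ η) :
    kern ε (p - η) (p' - η) ≤ Real.exp η * kern ε p p' := by
  have h := integral_sub_right_eq_self
    (fun a : ℝ => phi a * tentE ε (p - η - a) * tentE ε (p' - η - a)) (μ := volume) η
  unfold kern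
  rw [← h, ← integral_const_mul]
  refine integral_mono_of_nonneg (Filter.Eventually.of_forall (fun a => ?_))
    ((kern_integrable ε hε p p').const_mul _) (Filter.Eventually.of_forall (fun a => ?_))
  · exact mul_nonneg (mul_nonneg (phi_pos _).le (tentE_nonneg ε hε _)) (tentE_nonneg ε hε _)
  · show phi (a - η) * tentE ε (p - η - (a - η)) * tentE ε (p' - η - (a - η)) ≤
      Real.exp η * (phi a * tentE ε (p - a) * tentE ε (p' - a))
    have e1 : p - η - (a - η) = p - a := by ring
    have e2 : p' - η - (a - η) = p' - a := by ring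
    rw [e1, e2]
    have h2 := phi_shift (a - η) η hη
    rw [sub_add_cancel] at h2
    have h3 : phi (a - η) ≤ Real.exp η * phi a := by
      calc phi (a - η) = Real.exp η * (Real.exp (-η) * phi (a - η)) := by
            rw [← mul_assoc, ← Real.exp_add, add_neg_cancel, Real.exp_zero, one_mul]
        _ ≤ Real.exp η * phi a := mul_le_mul_of_nonneg_left h2 (Real.exp_pos _).le
    calc phi (a - η) * tentE ε (p - a) * tentE ε (p' - a)
        ≤ (Real.exp η * phi a) * tentE ε (p - a) * tentE ε (p' - a) :=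
          mul_le_mul_of_nonneg_right (mul_le_mul_of_nonneg_right h3 (tentE_nonneg ε hε _))
            (tentE_nonneg ε hε _)
      _ = Real.exp η * (phi a * tentE ε (p - a) * tentE ε (p' - a)) := by ring

theorem kern_continuous (ε : ℝ) (hε : 0 < ε) : Continuous (fun q : ℝ × ℝ => kern ε q.1 q.2) := by
  have key : ∀ q : ℝ × ℝ, kern ε q.1 q.2 =
      ∫ z in Set.Icc (-ε) ε, phi (q.1 - z) * tentE ε z * tentE ε (q.2 - q.1 + z) := by
    intro q
    have h := integral_sub_left_eq_self
      (fun a : ℝ => phi a * tentE ε (q.1 - a) * tentE ε (q.2 - a)) volume q.1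
    unfold kern
    rw [← h]
    have h2 : ∫ z in Set.Icc (-ε) ε, phi (q.1 - z) * tentE ε z * tentE ε (q.2 - q.1 + z) =
        ∫ z, phi (q.1 - z) * tentE ε z * tentE ε (q.2 - q.1 + z) := by
      refine setIntegral_eq_integral_of_forall_compl_eq_zero (fun z hz => ?_)
      have h3 : ε ≤ |z| := by
        by_contra h4
        apply hz
        rw [not_le, abs_lt] at h4
        exact ⟨h4.1.le, h4.2.le⟩
      rw [tentE_zero ε hε z h3]
      simp
    rw [h2]
    refine integral_congr_ae (Filter.Eventually.of_forall (fun z => ?_))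
    show phi (q.1 - z) * tentE ε (q.1 - (q.1 - z)) * tentE ε (q.2 - (q.1 - z)) =
      phi (q.1 - z) * tentE ε z * tentE ε (q.2 - q.1 + z)
    have e1 : q.1 - (q.1 - z) = z := by ring
    have e2 : q.2 - (q.1 - z) = q.2 - q.1 + z := by ring
    rw [e1, e2]
  have h3 : (fun q : ℝ × ℝ => kern ε q.1 q.2) = fun q : ℝ × ℝ =>
      ∫ z in Set.Icc (-ε) ε, phi (q.1 - z) * tentE ε z * tentE ε (q.2 - q.1 + z) := by
    funext q; exact key q
  rw [h3]
  apply continuous_parametric_integral_of_continuous _ isCompact_Icc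
  have c1 := phi_continuous
  have c2 := tentE_continuous ε
  fun_prop

end Pool.Agent.Helper60.MV
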