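import Pool.Agent.Helper60.MV.B.Spec

/-!
MV-B11. The incidence matrix of a connected configuration with all cycles of `σ` odd is admissible (except for
goodness, which is assumed).

Proof. `φ = σ * τ`; `φ (τ h) = σ h`, so `face (τ h) = face (σ h)` (`face_tau`). The edge `e = {h, τ h}` has the two half-edges `h, τ h`
(`τ h ≠ h`), so as a function on faces `p(1_e) = 1_{face h} + 1_{face (τ h)} = 1_{face h} + 1_{face (σ h)}` (`card` computation of
`R.P`, `∑_c (P c false e + P c true e)` counts the half-edges of `e`, each face is `cface c b` for exactly one `(c,b)`: the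
pairing `β` has no fixed point and its cycles have two elements `c.rep`, `β c.rep`). Column sums: 2.
Let `W ⊂ ℤ^{Face}` be the image of `ℤ^{Edge}` under `z ↦ (∑_e P z)`. It contains `1_{face h} + 1_{face σh}` for all `h`; alternating sum
over an odd `σ`-cycle (`minimalPeriod σ h` odd) gives `2·1_{face h} ∈ W` for all `h`. The map `D : ℤ^{Face} → ℤ^{Cyl}`,
`(D p)_c = p_{cface c false} - p_{cface c true}`, sends `1_f` to `±1_{cyl f}`. So the image of `B = D∘P` contains `2·1_c` for all `c` and
`±1_{c(h)} ± 1_{c(σh)}`, hence `1_{c(h)} + 1_{c(σ h)}` (add `2·1`'s), where `c(h)` is the cylinder of the face of `h`. Also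
`c(τh) = c(σh)`, and faces paired by `β` have the same cylinder. By connectedness (induction over `EqvGen`) `1_{c(h)} + 1_{c(h')}` is in the image
for all `h,h'`, and every cylinder is `c(h)` for some `h`.
-/

namespace Pool.Agent.Helper60.MV

open Finset MeasureTheory Filter Topology

variable {H : Type} [Fintype H] {σ : Equiv.Perm H}

theorem face_tau (R : Conf σ) (h : H) : R.face (R.τ h) = R.face (σ h) := by
  unfold Conf.face cyc
  refine Quotient.sound ?_
  change Equiv.Perm.SameCycle (σ * R.τ) (R.τ h) (σ h)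
  refine ⟨1, ?_⟩
  rw [zpow_one, Equiv.Perm.mul_apply, R.hτ.invol]

private theorem sameCycle_pairing {A : Type} {g : Equiv.Perm A} (hg : IsPairing g) {x y : A}
    (h : g.SameCycle x y) : y = x ∨ y = g x := by
  obtain ⟨i, hi⟩ := h
  have h2 : g ^ (2 : ℤ) = 1 := by
    ext z
    rw [zpow_two, Equiv.Perm.mul_apply, hg.invol, Equiv.Perm.one_apply]
  rcases Int.even_or_odd' i with ⟨k, hk | hk⟩
  · left
    rw [← hi, hk, zpow_mul, h2, one_zpow, Equiv.Perm.one_apply]
  · right
    rw [← hi, hk, zpow_add, zpow_mul, h2, one_zpow, one_mul, zpow_one]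

private theorem cyc_rep {A : Type} {g : Equiv.Perm A} (c : Cyc g) : cyc g c.rep = c :=
  Quotient.out_eq c

private theorem cyc_eq_iff {A : Type} {g : Equiv.Perm A} {x y : A} :
    cyc g x = cyc g y ↔ g.SameCycle x y := by
  constructor
  · intro h
    exact Quotient.exact h
  · intro h
    exact Quotient.sound h

private theorem cyc_apply {A : Type} {g : Equiv.Perm A} (x : A) : cyc g (g x) = cyc g x := by
  rw [cyc_eq_iff]
  exact ⟨-1, by simp⟩

private theorem cyc_surj {A : Type} {g : Equiv.Perm A} (c : Cyc g) : ∃ x, cyc g x = c :=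
  ⟨c.rep, cyc_rep c⟩

private theorem cyc_cface (R : Conf σ) (c : R.Cyl) (b : Bool) : cyc R.β (R.cface c b) = c := by
  unfold Conf.cface
  cases b
  · simpa using cyc_rep c
  · simpa [cyc_apply] using cyc_rep c

/-- the two faces of the cylinders enumerate the faces (auxiliary form) -/
private theorem cface_bij' (R : Conf σ) :
    Function.Bijective (fun q : R.Cyl × Bool => R.cface q.1 q.2) := by
  constructor
  · rintro ⟨c, b⟩ ⟨c', b'⟩ h
    simp only at h
    have hc : c = c' := by
      rw [← cyc_cface R c b, ← cyc_cface R c' b', h]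
    subst hc
    have hne := R.hβ.fpf (c.rep)
    cases b <;> cases b'
    · rfl
    · exact absurd h.symm hne
    · exact absurd h hne
    · rfl
  · intro f
    have h1 : R.β.SameCycle (cyc R.β f).rep f := by
      rw [← cyc_eq_iff, cyc_rep]
    rcases sameCycle_pairing R.hβ h1 with h2 | h2
    · exact ⟨(cyc R.β f, false), by simpa [Conf.cface] using h2.symm⟩
    · exact ⟨(cyc R.β f, true), by simpa [Conf.cface] using h2.symm⟩

private theorem sum_cface {V : Type} [AddCommMonoid V] (R : Conf σ) (F : R.Face → V) :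
    ∑ c : R.Cyl, (F (R.cface c false) + F (R.cface c true)) = ∑ f : R.Face, F f := by
  rw [← (cface_bij' R).sum_comp F, Fintype.sum_prod_type]
  refine Finset.sum_congr rfl fun c _ => ?_
  rw [Fintype.sum_bool, add_comm]

private theorem per_single (R : Conf σ) (h : H) (f : R.Face) :
    R.per (fun e => if e = R.edge h then (1 : ℤ) else 0) f =
      (if R.face h = f then 1 else 0) + (if R.face (σ h) = f then 1 else 0) := by
  classical
  unfold Conf.per
  have hne : R.τ h ≠ h := R.hτ.fpf h
  have key : ∀ x : H, (if R.face x = f then (if R.edge x = R.edge h then (1 : ℤ) else 0) else 0) =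
      (if x = h then (if R.face h = f then (1 : ℤ) else 0) else 0) +
        (if x = R.τ h then (if R.face (R.τ h) = f then (1 : ℤ) else 0) else 0) := by
    intro x
    by_cases hx : x = h
    · subst hx
      simp [Ne.symm hne]
    · by_cases hx2 : x = R.τ h
      · subst hx2
        have : R.edge (R.τ h) = R.edge h := cyc_apply h
        simp [this, hne]
      · have : R.edge x ≠ R.edge h := by
          intro hh
          unfold Conf.edge at hh
          rw [eq_comm, cyc_eq_iff] at hh
          rcases sameCycle_pairing R.hτ hh with h3 | h3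
          · exact hx h3
          · exact hx2 h3
        simp [this, hx, hx2]
  rw [Finset.sum_congr rfl fun x _ => key x, Finset.sum_add_distrib]
  simp [face_tau]

theorem P_col (R : Conf σ) (e : R.Edge) : ∑ c, (R.P c false e + R.P c true e) = 2 := by
  classical
  have h1 := sum_cface R (fun f => (univ.filter (fun h : H => R.face h = f ∧ R.edge h = e)).card)
  have h2 : ∑ c, (R.P c false e + R.P c true e) =
      ∑ f : R.Face, (univ.filter (fun h : H => R.face h = f ∧ R.edge h = e)).card := by
    rw [← h1]
    refine Finset.sum_congr rfl fun c _ => ?_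
    unfold Conf.P
    congr 1 <;> congr
  rw [h2]
  obtain ⟨h, rfl⟩ : ∃ h, R.edge h = e := cyc_surj e
  have hne : R.τ h ≠ h := R.hτ.fpf h
  have h3 : ∀ f : R.Face, (univ.filter (fun x : H => R.face x = f ∧ R.edge x = R.edge h)).card =
      ∑ x : H, if R.face x = f then (if R.edge x = R.edge h then 1 else 0) else 0 := by
    intro f
    rw [Finset.card_filter]
    refine Finset.sum_congr rfl fun x _ => ?_
    rw [ite_and]
  rw [Finset.sum_congr rfl fun f _ => h3 f, Finset.sum_comm]
  have h4 : ∀ x : H, ∑ f : R.Face,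
      (if R.face x = f then (if R.edge x = R.edge h then 1 else 0) else 0) =
      (if R.edge x = R.edge h then 1 else 0) := by
    intro x
    rw [Finset.sum_ite_eq]
    simp
  rw [Finset.sum_congr rfl fun x _ => h4 x, ← Finset.card_filter]
  have h5 : (univ.filter (fun x : H => R.edge x = R.edge h)) = {h, R.τ h} := by
    ext x
    simp only [mem_filter, mem_univ, true_and, mem_insert, mem_singleton]
    constructor
    · intro hh
      unfold Conf.edge at hh
      rw [eq_comm, cyc_eq_iff] at hh
      exact sameCycle_pairing R.hτ hh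
    · rintro (hh | hh)
      · rw [hh]
      · rw [hh]
        exact cyc_apply h
  rw [h5, Finset.card_pair (Ne.symm hne)]

private theorem sum_P_gen {V : Type} [CommSemiring V] (R : Conf σ) (c : R.Cyl) (b : Bool)
    (x : R.Edge → V) : ∑ e, (R.P c b e : V) * x e = R.per x (R.cface c b) := by
  classical
  have h1 : ∀ e, (R.P c b e : V) * x e =
      ∑ h : H, if R.face h = R.cface c b then (if R.edge h = e then x e else 0) else 0 := by
    intro e
    have h2 : R.P c b e =
        (univ.filter (fun h : H => R.face h = R.cface c b ∧ R.edge h = e)).card := by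
      unfold Conf.P
      congr
    rw [h2, Finset.card_filter, Nat.cast_sum, Finset.sum_mul]
    refine Finset.sum_congr rfl fun h _ => ?_
    by_cases h3 : R.face h = R.cface c b <;> by_cases h4 : R.edge h = e <;> simp [h3, h4]
  rw [Finset.sum_congr rfl fun e _ => h1 e, Finset.sum_comm]
  unfold Conf.per
  refine Finset.sum_congr rfl fun h _ => ?_
  by_cases h3 : R.face h = R.cface c b
  · simp [h3]
  · simp [h3]

/-- perimeters through the incidence matrix -/
theorem sum_P (R : Conf σ) (c : R.Cyl) (b : Bool) (x : R.Edge → ℝ) :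
    ∑ e, (R.P c b e : ℝ) * x e = R.per x (R.cface c b) := by
  exact sum_P_gen R c b x

theorem sum_P_nat (R : Conf σ) (c : R.Cyl) (b : Bool) (x : R.Edge → ℕ) :
    ∑ e, R.P c b e * x e = R.per x (R.cface c b) := by
  simpa using sum_P_gen R c b x

/-- the two faces of the cylinders enumerate the faces -/
theorem cface_bij (R : Conf σ) :
    Function.Bijective (fun q : R.Cyl × Bool => R.cface q.1 q.2) := by
  exact cface_bij' R

private theorem per_add (R : Conf σ) (z w : R.Edge → ℤ) (f : R.Face) :
    R.per (z + w) f = R.per z f + R.per w f := by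
  unfold Conf.per
  rw [← Finset.sum_add_distrib]
  refine Finset.sum_congr rfl fun h _ => ?_
  by_cases h3 : R.face h = f <;> simp [h3]

private theorem per_smul (R : Conf σ) (k : ℤ) (z : R.Edge → ℤ) (f : R.Face) :
    R.per (k • z) f = k * R.per z f := by
  unfold Conf.per
  rw [Finset.mul_sum]
  refine Finset.sum_congr rfl fun h _ => ?_
  by_cases h3 : R.face h = f <;> simp [h3]

private theorem alt_sum (R : Conf σ) (h : H) (n : ℕ) :
    ∃ z : R.Edge → ℤ, ∀ f : R.Face, R.per z f =
      (if R.face h = f then 1 else 0) - (-1) ^ n * (if R.face ((σ ^ n) h) = f then 1 else 0) := by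
  induction n with
  | zero =>
    refine ⟨0, fun f => ?_⟩
    have h0 : R.per (0 : R.Edge → ℤ) f = 0 := by
      unfold Conf.per
      simp
    rw [h0]
    simp
  | succ n ih =>
    obtain ⟨z, hz⟩ := ih
    refine ⟨z + ((-1) ^ n : ℤ) • (fun e => if e = R.edge ((σ ^ n) h) then (1 : ℤ) else 0),
      fun f => ?_⟩
    rw [per_add, per_smul, per_single, hz]
    have h1 : (σ ^ (n + 1)) h = σ ((σ ^ n) h) := by
      rw [pow_succ', Equiv.Perm.mul_apply]
    rw [h1, pow_succ]
    ring

private theorem two_face (R : Conf σ) (hσ : AllOdd σ) (h : H) :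
    ∃ z : R.Edge → ℤ, ∀ f : R.Face, R.per z f = 2 * (if R.face h = f then 1 else 0) := by
  obtain ⟨z, hz⟩ := alt_sum R h (Function.minimalPeriod σ h)
  refine ⟨z, fun f => ?_⟩
  rw [hz, (hσ h).neg_one_pow]
  have h1 : (σ ^ (Function.minimalPeriod σ h)) h = h := by
    have := Function.iterate_minimalPeriod (f := σ) (x := h)
    rw [← Equiv.Perm.iterate_eq_pow] 
    exact this
  rw [h1]
  ring

/-- `k` is `1` or `-1` -/
private theorem diff_face (R : Conf σ) (f : R.Face) :
    ∃ s : ℤ, (s = 1 ∨ s = -1) ∧ ∀ c : R.Cyl,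
      ((if f = R.cface c false then (1 : ℤ) else 0) - (if f = R.cface c true then (1 : ℤ) else 0)) =
        s * (if cyc R.β f = c then 1 else 0) := by
  obtain ⟨⟨c0, b⟩, hq⟩ := (cface_bij' R).2 f
  simp only at hq
  subst hq
  have hinj : ∀ c b', R.cface c0 b = R.cface c b' ↔ c0 = c ∧ b = b' := by
    intro c b'
    constructor
    · intro hh
      have := (cface_bij' R).1 (a₁ := (c0, b)) (a₂ := (c, b')) hh
      simpa using this
    · rintro ⟨h1, h2⟩
      rw [h1, h2]
  cases b
  · refine ⟨1, Or.inl rfl, fun c => ?_⟩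
    simp only [hinj, cyc_cface]
    by_cases hc : c0 = c <;> simp [hc]
  · refine ⟨-1, Or.inr rfl, fun c => ?_⟩
    simp only [hinj, cyc_cface]
    by_cases hc : c0 = c <;> simp [hc]

private def InV (R : Conf σ) (w : R.Cyl → ℤ) : Prop :=
  ∃ z : R.Edge → ℤ, ∀ c : R.Cyl, R.per z (R.cface c false) - R.per z (R.cface c true) = w c

private theorem InV.add {R : Conf σ} {w w' : R.Cyl → ℤ} (h : InV R w) (h' : InV R w') :
    InV R (w + w') := by
  obtain ⟨z, hz⟩ := h
  obtain ⟨z', hz'⟩ := h'
  refine ⟨z + z', fun c => ?_⟩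
  rw [per_add, per_add, Pi.add_apply, ← hz, ← hz']
  ring

private theorem InV.smul {R : Conf σ} {w : R.Cyl → ℤ} (k : ℤ) (h : InV R w) :
    InV R (k • w) := by
  obtain ⟨z, hz⟩ := h
  refine ⟨k • z, fun c => ?_⟩
  rw [per_smul, per_smul, Pi.smul_apply, ← hz, smul_eq_mul]
  ring

private noncomputable def wv (R : Conf σ) (h : H) : R.Cyl → ℤ :=
  fun c => if cyc R.β (R.face h) = c then 1 else 0

private theorem two_w (R : Conf σ) (hσ : AllOdd σ) (h : H) : InV R ((2 : ℤ) • wv R h) := by
  obtain ⟨s, hs, hd⟩ := diff_face R (R.face h)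
  obtain ⟨z, hz⟩ := two_face R hσ h
  have h1 : InV R ((2 * s) • wv R h) := by
    refine ⟨z, fun c => ?_⟩
    have := hd c
    rw [hz, hz, ← mul_sub, this, Pi.smul_apply, smul_eq_mul, wv]
    ring
  have h2 := h1.smul s
  rw [smul_smul] at h2
  have h3 : s * (2 * s) = 2 := by
    rcases hs with rfl | rfl <;> norm_num
  rwa [h3] at h2

private theorem w_sigma (R : Conf σ) (hσ : AllOdd σ) (h : H) :
    InV R (wv R h + wv R (σ h)) := by
  obtain ⟨s, hs, hd⟩ := diff_face R (R.face h)
  obtain ⟨s', hs', hd'⟩ := diff_face R (R.face (σ h))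
  have h1 : InV R (s • wv R h + s' • wv R (σ h)) := by
    refine ⟨fun e => if e = R.edge h then (1 : ℤ) else 0, fun c => ?_⟩
    have e1 := hd c
    have e2 := hd' c
    rw [per_single, per_single, Pi.add_apply, Pi.smul_apply, Pi.smul_apply, smul_eq_mul,
      smul_eq_mul]
    unfold wv
    rw [← e1, ← e2]
    ring
  have h2 := two_w R hσ h
  have h3 := two_w R hσ (σ h)
  rcases hs with rfl | rfl <;> rcases hs' with rfl | rfl
  · simpa using h1
  · have := h1.add h3
    convert this using 1
    module
  · have := h1.add h2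
    convert this using 1
    module
  · have := h1.smul (-1)
    convert this using 1
    module

private theorem w_rel (R : Conf σ) (hσ : AllOdd σ) {a b : H}
    (h : Relation.EqvGen (fun a b => b = σ a ∨ b = R.τ a ∨ R.face b = R.β (R.face a)) a b) :
    InV R (wv R a + wv R b) := by
  induction h with
  | rel a b hab =>
    rcases hab with rfl | rfl | hab
    · exact w_sigma R hσ a
    · have h1 : wv R (R.τ a) = wv R (σ a) := by
        unfold wv
        rw [face_tau]
      rw [h1]
      exact w_sigma R hσ a
    · have h1 : wv R b = wv R a := by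
        unfold wv
        rw [hab, cyc_apply]
      rw [h1]
      have := two_w R hσ a
      convert this using 1
      module
  | refl a =>
    have := two_w R hσ a
    convert this using 1
    module
  | symm a b _ ih =>
    rwa [add_comm] 
  | trans a b c _ _ ih1 ih2 =>
    have := (ih1.add ih2).add ((two_w R hσ b).smul (-1))
    convert this using 1
    module

theorem P_im (R : Conf σ) (hσ : AllOdd σ) (hR : R.Conn) (c c' : R.Cyl) :
    ∃ z : R.Edge → ℤ, ∀ c'' : R.Cyl, ∑ e, ((R.P c'' false e : ℤ) - R.P c'' true e) * z e =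
      (by classical exact (if c'' = c then 1 else 0) + (if c'' = c' then 1 else 0)) := by
  obtain ⟨f, hf⟩ := cyc_surj c
  obtain ⟨h, hh⟩ : ∃ h, R.face h = f := cyc_surj f
  obtain ⟨f', hf'⟩ := cyc_surj c'
  obtain ⟨h', hh'⟩ : ∃ h, R.face h = f' := cyc_surj f'
  obtain ⟨z, hz⟩ := w_rel R hσ (hR h h')
  refine ⟨z, fun c'' => ?_⟩
  have h1 := hz c''
  rw [← sum_P_gen R c'' false z, ← sum_P_gen R c'' true z, ← Finset.sum_sub_distrib] at h1
  have h2 : ∀ e, ((R.P c'' false e : ℤ) - R.P c'' true e) * z e =
      (R.P c'' false e : ℤ) * z e - (R.P c'' true e : ℤ) * z e := fun e => by ring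
  rw [Finset.sum_congr rfl fun e _ => h2 e, h1]
  simp only [Pi.add_apply, wv, hh, hh', hf, hf']
  congr 1
  · by_cases hc : c'' = c
    · simp [hc]
    · simp [hc, Ne.symm hc]
  · by_cases hc : c'' = c'
    · simp [hc]
    · simp [hc, Ne.symm hc]

/-- every face function `f` is hit up to a factor 2: `2·1_f` is the perimeter vector of an integer vector -/
theorem P_two (R : Conf σ) (hσ : AllOdd σ) (f : R.Face) :
    ∃ z : R.Edge → ℤ, ∀ f' : R.Face, R.per z f' = (by classical exact if f' = f then 2 else 0) := by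
  obtain ⟨h, hh⟩ : ∃ h, R.face h = f := cyc_surj f
  obtain ⟨z, hz⟩ := two_face R hσ h
  refine ⟨z, fun f' => ?_⟩
  rw [hz, hh]
  by_cases hc : f' = f
  · simp [hc]
  · simp [hc, Ne.symm hc]

theorem adm_of_good (R : Conf σ) (hσ : AllOdd σ) (hR : R.Conn) (hg : R.Good) : Adm R.P := by
  refine ⟨P_col R, ?_, P_im R hσ hR⟩
  obtain ⟨u, hu, hb⟩ := hg
  refine ⟨u, hu, fun c => ?_⟩
  rw [sum_P_nat, sum_P_nat]
  exact hb c.rep

end Pool.Agent.Helper60.MV
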