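import Pool.Agent.Helper60.MV.B.KarP

/-!
MV-B10. Karamata's Tauberian theorem.

Proof. `∑_{n <= X} c_n = ∑ c_n e^{-tn} g(e^{-tn})` with `t = 1/X`, `g(y) = 1/y` for `y >= e^{-1}`, `0` for `y < e^{-1}`.
For `η > 0` choose continuous `g_1 <= g <= g_2` on `[0,1]` with `∫_0^∞ u^{E-1} e^{-u} (g_2 - g_1)(e^{-u}) du < η` (piecewise linear
interpolation near `e^{-1}`), then polynomials `p_1 <= g_1`, `p_2 >= g_2` on `[0,1]` with the same property up to `2η` (Weierstrass
approximation within `η` and shift by `∓η`; `∫ u^{E-1}e^{-u}=(E-1)!`). By `kar_poly` at `t = 1/X` the limsup/liminf of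
`X^{-E} ∑_{n<=X} c_n` are within `const·η` of `C/(E-1)! ∫_0^∞ u^{E-1} e^{-u} g(e^{-u}) du = C/(E-1)! ∫_0^1 u^{E-1} du = C/E!`.
(Here `C >= 0`.)
-/

namespace Pool.Agent.Helper60.MV

open Finset MeasureTheory Filter Topology

namespace KarAux

/-- base integrability -/
theorem intOn_base (k : ℕ) : IntegrableOn (fun u : ℝ => u ^ k * Real.exp (-u)) (Set.Ioi 0) := by
  have h := Real.GammaIntegral_convergent (s := (k : ℝ) + 1) (by positivity)
  refine h.congr_fun (fun x _ => ?_) measurableSet_Ioi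
  have hx : x ^ ((k : ℝ) + 1 - 1) = x ^ k := by
    rw [add_sub_cancel_right, Real.rpow_natCast]
  simp only [hx]
  ring

theorem intOn_poly (k : ℕ) (p : Polynomial ℝ) :
    IntegrableOn (fun u : ℝ => u ^ k * Real.exp (-u) * p.eval (Real.exp (-u))) (Set.Ioi 0) := by
  obtain ⟨B, hB⟩ := (isCompact_Icc (a := (0:ℝ)) (b := 1)).exists_bound_of_continuousOn
    (f := fun y => p.eval y) p.continuous.continuousOn
  have h := intOn_base k
  refine Integrable.mono' (h.norm.mul_const B) ?_ ?_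
  · refine Continuous.aestronglyMeasurable ?_
    have := p.continuous
    fun_prop
  · refine (ae_restrict_mem measurableSet_Ioi).mono fun u hu => ?_
    rw [norm_mul]
    have hu' : (0:ℝ) < u := hu
    exact mul_le_mul_of_nonneg_left
      (hB _ ⟨(Real.exp_pos _).le, Real.exp_le_one_iff.2 (by linarith)⟩) (norm_nonneg _)

/-- the cut-off -/
noncomputable def G (x z y : ℝ) : ℝ :=
  1 / max y (Real.exp (-1)) * max 0 (min 1 ((y - x) / (z - x)))

theorem G_cont (x z : ℝ) : Continuous (G x z) := by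
  unfold G
  refine Continuous.mul ?_ (by fun_prop)
  refine Continuous.div continuous_const (by fun_prop) (fun y => ?_)
  have : 0 < max y (Real.exp (-1)) := lt_max_of_lt_right (Real.exp_pos _)
  exact this.ne'

theorem clamp_nonneg (w : ℝ) : 0 ≤ max 0 (min 1 w) := le_max_left _ _

theorem clamp_le_one (w : ℝ) : max 0 (min 1 w) ≤ 1 := max_le zero_le_one (min_le_left _ _)

theorem G_nonneg (x z y : ℝ) : 0 ≤ G x z y := by
  unfold G
  have : 0 < max y (Real.exp (-1)) := lt_max_of_lt_right (Real.exp_pos _)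
  exact mul_nonneg (by positivity) (clamp_nonneg _)

theorem G_le (x z y : ℝ) : max y (Real.exp (-1)) * G x z y ≤ 1 := by
  unfold G
  have : 0 < max y (Real.exp (-1)) := lt_max_of_lt_right (Real.exp_pos _)
  rw [← mul_assoc, mul_one_div_cancel this.ne', one_mul]
  exact clamp_le_one _

theorem mul_G_le {x z y : ℝ} (hy : 0 ≤ y) : y * G x z y ≤ 1 :=
  (mul_le_mul_of_nonneg_right (le_max_left _ _) (G_nonneg _ _ _)).trans (G_le x z y)

theorem G_eq_zero {x z y : ℝ} (hxz : x < z) (hy : y ≤ x) : G x z y = 0 := by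
  unfold G
  have h1 : (y - x) / (z - x) ≤ 0 := div_nonpos_of_nonpos_of_nonneg (by linarith) (by linarith)
  rw [max_eq_left ((min_le_right _ _).trans h1), mul_zero]

theorem mul_G_eq_one {x z y : ℝ} (hxz : x < z) (hy : z ≤ y) (hy1 : Real.exp (-1) ≤ y) :
    y * G x z y = 1 := by
  unfold G
  have h1 : 1 ≤ (y - x) / (z - x) := by
    rw [le_div_iff₀ (by linarith)]; linarith
  have hy0 : 0 < y := lt_of_lt_of_le (Real.exp_pos _) hy1
  rw [min_eq_left h1, max_eq_right zero_le_one, max_eq_left hy1, mul_one,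
    mul_one_div_cancel hy0.ne']

theorem exists_poly (φ : ℝ → ℝ) (hφ : Continuous φ) {ε : ℝ} (hε : 0 < ε) :
    ∃ p : Polynomial ℝ, ∀ y ∈ Set.Icc (0:ℝ) 1, φ y ≤ p.eval y ∧ p.eval y ≤ φ y + ε := by
  obtain ⟨p, hp⟩ := exists_polynomial_near_of_continuousOn 0 1 (fun y => φ y + ε / 2)
    (by fun_prop) (ε / 2) (by positivity)
  refine ⟨p, fun y hy => ?_⟩
  have h := abs_lt.1 (hp y hy)
  constructor <;> linarith [h.1, h.2]

theorem poly_upper (k : ℕ) {η : ℝ} (hη : 0 < η) : ∃ p : Polynomial ℝ,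
    (∀ y ∈ Set.Icc (0:ℝ) 1, 0 ≤ p.eval y) ∧
    (∀ y, Real.exp (-1) ≤ y → y ≤ 1 → 1 ≤ y * p.eval y) ∧
    ∫ u in Set.Ioi (0:ℝ), u ^ k * Real.exp (-u) * p.eval (Real.exp (-u)) ≤ 1 / ((k : ℝ) + 1) + η := by
  set M := ∫ u in Set.Ioi (0:ℝ), u ^ k * Real.exp (-u) with hM
  have hM0 : 0 ≤ M := setIntegral_nonneg measurableSet_Ioi (fun u hu => by
    have : (0:ℝ) < u := hu
    positivity)
  obtain ⟨s, hs0, hs1, hs⟩ : ∃ s : ℝ, 0 < s ∧ s ≤ 1 ∧ 2 ^ k * s ≤ η / 2 := by
    refine ⟨min 1 (η / 2 / 2 ^ k), by positivity, min_le_left _ _, ?_⟩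
    have := min_le_right (1:ℝ) (η / 2 / 2 ^ k)
    calc (2:ℝ) ^ k * min 1 (η / 2 / 2 ^ k) ≤ 2 ^ k * (η / 2 / 2 ^ k) := by gcongr
      _ = η / 2 := by field_simp
  have hba : Real.exp (-(1 + s)) < Real.exp (-1) := Real.exp_lt_exp.2 (by linarith)
  obtain ⟨p, hp⟩ := exists_poly (G (Real.exp (-(1 + s))) (Real.exp (-1))) (G_cont _ _)
    (ε := η / (2 * (M + 1))) (by positivity)
  refine ⟨p, fun y hy => (G_nonneg _ _ _).trans (hp y hy).1, fun y hy hy1 => ?_, ?_⟩
  · have hy0 : 0 < y := lt_of_lt_of_le (Real.exp_pos _) hy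
    have h1 := mul_G_eq_one hba hy hy
    have h2 := mul_le_mul_of_nonneg_left (hp y ⟨hy0.le, hy1⟩).1 hy0.le
    linarith
  · have hI1 : IntegrableOn (Set.indicator (Set.Ioc (0:ℝ) 1) (fun u => u ^ k)) (Set.Ioi 0) := by
      refine IntegrableOn.mono_set ?_ (Set.subset_univ _)
      rw [integrableOn_univ, integrable_indicator_iff measurableSet_Ioc]
      exact (Continuous.integrableOn_Icc (by fun_prop)).mono_set Set.Ioc_subset_Icc_self
    have hI2 : IntegrableOn (Set.indicator (Set.Ioc (1:ℝ) (1 + s)) (fun _ => (2:ℝ) ^ k))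
        (Set.Ioi 0) := by
      refine IntegrableOn.mono_set ?_ (Set.subset_univ _)
      rw [integrableOn_univ, integrable_indicator_iff measurableSet_Ioc]
      exact (Continuous.integrableOn_Icc (by fun_prop)).mono_set Set.Ioc_subset_Icc_self
    have hI3 : IntegrableOn (fun u : ℝ => η / (2 * (M + 1)) * (u ^ k * Real.exp (-u)))
        (Set.Ioi 0) := (intOn_base k).const_mul _
    have hle : ∫ u in Set.Ioi (0:ℝ), u ^ k * Real.exp (-u) * p.eval (Real.exp (-u)) ≤
        ∫ u in Set.Ioi (0:ℝ), ((Set.indicator (Set.Ioc (0:ℝ) 1) (fun u => u ^ k) u +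
          Set.indicator (Set.Ioc (1:ℝ) (1 + s)) (fun _ => (2:ℝ) ^ k) u) +
          η / (2 * (M + 1)) * (u ^ k * Real.exp (-u))) := by
      refine setIntegral_mono_on (intOn_poly k p) ((hI1.add hI2).add hI3) measurableSet_Ioi ?_
      intro u hu
      have hu0 : (0:ℝ) < u := hu
      have he0 := Real.exp_pos (-u)
      have hp2 := (hp (Real.exp (-u)) ⟨he0.le, Real.exp_le_one_iff.2 (by linarith)⟩).2
      have h3 : u ^ k * Real.exp (-u) * p.eval (Real.exp (-u)) ≤
          u ^ k * (Real.exp (-u) * G (Real.exp (-(1 + s))) (Real.exp (-1)) (Real.exp (-u))) +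
          η / (2 * (M + 1)) * (u ^ k * Real.exp (-u)) := by
        have := mul_le_mul_of_nonneg_left hp2 (by positivity : 0 ≤ u ^ k * Real.exp (-u))
        linarith
      refine h3.trans ?_
      gcongr
      have hG1 := mul_G_le (x := Real.exp (-(1 + s))) (z := Real.exp (-1)) he0.le
      rcases le_or_gt u 1 with h1 | h1
      · rw [Set.indicator_of_mem (show u ∈ Set.Ioc (0:ℝ) 1 from ⟨hu0, h1⟩),
          Set.indicator_of_notMem (show u ∉ Set.Ioc (1:ℝ) (1 + s) from fun h => absurd h.1 (by linarith)),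
          add_zero]
        calc _ ≤ u ^ k * 1 := by gcongr
          _ = u ^ k := mul_one _
      · rw [Set.indicator_of_notMem (show u ∉ Set.Ioc (0:ℝ) 1 from fun h => absurd h.2 (by linarith)),
          zero_add]
        rcases le_or_gt u (1 + s) with h2 | h2
        · rw [Set.indicator_of_mem (show u ∈ Set.Ioc (1:ℝ) (1 + s) from ⟨h1, h2⟩)]
          calc _ ≤ (2:ℝ) ^ k * 1 := mul_le_mul (pow_le_pow_left₀ hu0.le (by linarith) k) hG1
                (mul_nonneg he0.le (G_nonneg _ _ _)) (by positivity)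
            _ = 2 ^ k := mul_one _
        · rw [Set.indicator_of_notMem (show u ∉ Set.Ioc (1:ℝ) (1 + s) from fun h => absurd h.2 (by linarith)),
            G_eq_zero hba (Real.exp_le_exp.2 (by linarith)), mul_zero, mul_zero]
    refine hle.trans ?_
    have hI12 : IntegrableOn (fun u => Set.indicator (Set.Ioc (0:ℝ) 1) (fun u => u ^ k) u +
        Set.indicator (Set.Ioc (1:ℝ) (1 + s)) (fun _ => (2:ℝ) ^ k) u) (Set.Ioi 0) := hI1.add hI2
    rw [integral_add hI12 hI3, integral_add hI1 hI2, integral_const_mul, ← hM]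
    have e1 : ∫ u in Set.Ioi (0:ℝ), Set.indicator (Set.Ioc (0:ℝ) 1) (fun u => u ^ k) u =
        1 / ((k : ℝ) + 1) := by
      rw [setIntegral_indicator measurableSet_Ioc, Set.inter_eq_self_of_subset_right
        Set.Ioc_subset_Ioi_self, ← intervalIntegral.integral_of_le zero_le_one, integral_pow]
      simp
    have e2 : ∫ u in Set.Ioi (0:ℝ), Set.indicator (Set.Ioc (1:ℝ) (1 + s)) (fun _ => (2:ℝ) ^ k) u =
        2 ^ k * s := by
      have hsub : Set.Ioc (1:ℝ) (1 + s) ⊆ Set.Ioi 0 :=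
        fun x hx => lt_trans (zero_lt_one' ℝ) hx.1
      rw [setIntegral_indicator measurableSet_Ioc, Set.inter_eq_self_of_subset_right hsub,
        setIntegral_const]
      simp only [measureReal_def, Real.volume_Ioc, smul_eq_mul]
      rw [ENNReal.toReal_ofReal (by linarith)]
      ring
    rw [e1, e2]
    have e3 : η / (2 * (M + 1)) * M ≤ η / 2 := by
      rw [div_mul_eq_mul_div, div_le_div_iff₀ (by positivity) (by positivity)]
      nlinarith
    linarith

theorem poly_lower (k : ℕ) {η : ℝ} (hη : 0 < η) : ∃ p : Polynomial ℝ,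
    (∀ y, 0 ≤ y → y ≤ Real.exp (-1) → p.eval y ≤ 0) ∧
    (∀ y ∈ Set.Icc (0:ℝ) 1, y * p.eval y ≤ 1) ∧
    1 / ((k : ℝ) + 1) - η ≤ ∫ u in Set.Ioi (0:ℝ), u ^ k * Real.exp (-u) * p.eval (Real.exp (-u)) := by
  set M := ∫ u in Set.Ioi (0:ℝ), u ^ k * Real.exp (-u) with hM
  have hM0 : 0 ≤ M := setIntegral_nonneg measurableSet_Ioi (fun u hu => by
    have : (0:ℝ) < u := hu
    positivity)
  obtain ⟨s, hs0, hs1, hs⟩ : ∃ s : ℝ, 0 < s ∧ s < 1 ∧ s ≤ η / 2 := by
    refine ⟨min (1 / 2) (η / 2), by positivity, ?_, min_le_right _ _⟩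
    exact lt_of_le_of_lt (min_le_left _ _) (by norm_num)
  have hba : Real.exp (-1) < Real.exp (-(1 - s)) := Real.exp_lt_exp.2 (by linarith)
  have hexp1 : Real.exp (-1) ≤ 1 := Real.exp_le_one_iff.2 (by norm_num)
  obtain ⟨p, hp⟩ := exists_poly (fun y => G (Real.exp (-1)) (Real.exp (-(1 - s))) y -
    η / (2 * (M + 1))) ((G_cont _ _).sub continuous_const)
    (ε := η / (2 * (M + 1))) (by positivity)
  simp only [sub_add_cancel] at hp
  refine ⟨p, fun y hy hy1 => ?_, fun y hy => ?_, ?_⟩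
  · have h1 := (hp y ⟨hy, hy1.trans hexp1⟩).2
    rwa [G_eq_zero hba hy1] at h1
  · exact (mul_le_mul_of_nonneg_left (hp y hy).2 hy.1).trans (mul_G_le hy.1)
  · have hI1 : IntegrableOn (Set.indicator (Set.Ioc (0:ℝ) (1 - s)) (fun u => u ^ k))
        (Set.Ioi 0) := by
      refine IntegrableOn.mono_set ?_ (Set.subset_univ _)
      rw [integrableOn_univ, integrable_indicator_iff measurableSet_Ioc]
      exact (Continuous.integrableOn_Icc (by fun_prop)).mono_set Set.Ioc_subset_Icc_self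
    have hI3 : IntegrableOn (fun u : ℝ => η / (2 * (M + 1)) * (u ^ k * Real.exp (-u)))
        (Set.Ioi 0) := (intOn_base k).const_mul _
    have hle : ∫ u in Set.Ioi (0:ℝ), (Set.indicator (Set.Ioc (0:ℝ) (1 - s)) (fun u => u ^ k) u -
          η / (2 * (M + 1)) * (u ^ k * Real.exp (-u))) ≤
        ∫ u in Set.Ioi (0:ℝ), u ^ k * Real.exp (-u) * p.eval (Real.exp (-u)) := by
      refine setIntegral_mono_on (hI1.sub hI3) (intOn_poly k p) measurableSet_Ioi ?_
      intro u hu
      have hu0 : (0:ℝ) < u := hu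
      have he0 := Real.exp_pos (-u)
      have hp2 := (hp (Real.exp (-u)) ⟨he0.le, Real.exp_le_one_iff.2 (by linarith)⟩).1
      have h3 : u ^ k * (Real.exp (-u) * G (Real.exp (-1)) (Real.exp (-(1 - s))) (Real.exp (-u))) -
          η / (2 * (M + 1)) * (u ^ k * Real.exp (-u)) ≤
          u ^ k * Real.exp (-u) * p.eval (Real.exp (-u)) := by
        have := mul_le_mul_of_nonneg_left hp2 (by positivity : 0 ≤ u ^ k * Real.exp (-u))
        linarith
      refine le_trans ?_ h3
      gcongr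
      rcases le_or_gt u (1 - s) with h1 | h1
      · rw [Set.indicator_of_mem (show u ∈ Set.Ioc (0:ℝ) (1 - s) from ⟨hu0, h1⟩),
          mul_G_eq_one hba (Real.exp_le_exp.2 (by linarith)) (Real.exp_le_exp.2 (by linarith)),
          mul_one]
      · rw [Set.indicator_of_notMem (show u ∉ Set.Ioc (0:ℝ) (1 - s) from
          fun h => absurd h.2 (by linarith))]
        exact mul_nonneg (by positivity) (mul_nonneg he0.le (G_nonneg _ _ _))
    refine le_trans ?_ hle
    rw [integral_sub hI1 hI3, integral_const_mul, ← hM]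
    have e1 : ∫ u in Set.Ioi (0:ℝ), Set.indicator (Set.Ioc (0:ℝ) (1 - s)) (fun u => u ^ k) u =
        (1 - s) ^ (k + 1) / ((k : ℝ) + 1) := by
      rw [setIntegral_indicator measurableSet_Ioc, Set.inter_eq_self_of_subset_right
        Set.Ioc_subset_Ioi_self, ← intervalIntegral.integral_of_le (by linarith), integral_pow]
      simp
    rw [e1]
    have e2 : 1 / ((k : ℝ) + 1) - s ≤ (1 - s) ^ (k + 1) / ((k : ℝ) + 1) := by
      have hb := one_add_mul_le_pow (a := -s) (by linarith) (k + 1)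
      rw [le_div_iff₀ (by positivity), sub_mul, one_div_mul_cancel (by positivity)]
      push_cast at hb
      have : (1 + -s) = 1 - s := by ring
      rw [this] at hb
      linarith
    have e3 : η / (2 * (M + 1)) * M ≤ η / 2 := by
      rw [div_mul_eq_mul_div, div_le_div_iff₀ (by positivity) (by positivity)]
      nlinarith
    linarith

/-- summability with a polynomial weight -/
theorem summable_poly {c : ℕ → ℝ} (hc : ∀ n, 0 ≤ c n) {t : ℝ} (ht : 0 < t)
    (hs : Summable (fun n : ℕ => c n * Real.exp (-(t * n)))) (p : Polynomial ℝ) :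
    Summable (fun n : ℕ => c n * Real.exp (-(t * n)) * p.eval (Real.exp (-(t * n)))) := by
  obtain ⟨B, hB⟩ := (isCompact_Icc (a := (0:ℝ)) (b := 1)).exists_bound_of_continuousOn
    (f := fun y => p.eval y) p.continuous.continuousOn
  refine Summable.of_norm_bounded (hs.mul_right B) (fun n => ?_)
  rw [norm_mul, Real.norm_of_nonneg (mul_nonneg (hc n) (Real.exp_pos _).le)]
  refine mul_le_mul_of_nonneg_left (hB _ ⟨(Real.exp_pos _).le, Real.exp_le_one_iff.2 ?_⟩)
    (mul_nonneg (hc n) (Real.exp_pos _).le)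
  have : 0 ≤ t * n := by positivity
  linarith

theorem upper_sum {c : ℕ → ℝ} (hc : ∀ n, 0 ≤ c n) {X : ℕ} (hX : 0 < X)
    (hs : Summable (fun n : ℕ => c n * Real.exp (-((X:ℝ)⁻¹ * n)))) (p : Polynomial ℝ)
    (h0 : ∀ y ∈ Set.Icc (0:ℝ) 1, 0 ≤ p.eval y)
    (h1 : ∀ y, Real.exp (-1) ≤ y → y ≤ 1 → 1 ≤ y * p.eval y) :
    ∑ n ∈ range (X + 1), c n ≤
      ∑' n : ℕ, c n * Real.exp (-((X:ℝ)⁻¹ * n)) * p.eval (Real.exp (-((X:ℝ)⁻¹ * n))) := by
  have hX' : (0:ℝ) < X := by exact_mod_cast hX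
  have hle1 : ∀ n : ℕ, Real.exp (-((X:ℝ)⁻¹ * n)) ≤ 1 := fun n => Real.exp_le_one_iff.2 (by
    have : 0 ≤ (X:ℝ)⁻¹ * n := by positivity
    linarith)
  refine le_trans ?_ ((summable_poly hc (inv_pos.2 hX') hs p).sum_le_tsum (range (X + 1)) ?_)
  · refine Finset.sum_le_sum fun n hn => ?_
    have hn' : (n:ℝ) ≤ X := by
      have : n ≤ X := by simpa [Nat.lt_succ_iff] using hn
      exact_mod_cast this
    have h2 : Real.exp (-1) ≤ Real.exp (-((X:ℝ)⁻¹ * n)) := by
      refine Real.exp_le_exp.2 ?_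
      have : (X:ℝ)⁻¹ * n ≤ 1 := by
        rw [inv_mul_le_iff₀ hX']; linarith
      linarith
    have h3 := h1 _ h2 (hle1 n)
    rw [mul_assoc]
    exact le_mul_of_one_le_right (hc n) h3
  · intro n _
    exact mul_nonneg (mul_nonneg (hc n) (Real.exp_pos _).le)
      (h0 _ ⟨(Real.exp_pos _).le, hle1 n⟩)

theorem lower_sum {c : ℕ → ℝ} (hc : ∀ n, 0 ≤ c n) {X : ℕ} (hX : 0 < X)
    (hs : Summable (fun n : ℕ => c n * Real.exp (-((X:ℝ)⁻¹ * n)))) (p : Polynomial ℝ)
    (h0 : ∀ y, 0 ≤ y → y ≤ Real.exp (-1) → p.eval y ≤ 0)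
    (h1 : ∀ y ∈ Set.Icc (0:ℝ) 1, y * p.eval y ≤ 1) :
    ∑' n : ℕ, c n * Real.exp (-((X:ℝ)⁻¹ * n)) * p.eval (Real.exp (-((X:ℝ)⁻¹ * n))) ≤
      ∑ n ∈ range (X + 1), c n := by
  have hX' : (0:ℝ) < X := by exact_mod_cast hX
  have hle1 : ∀ n : ℕ, Real.exp (-((X:ℝ)⁻¹ * n)) ≤ 1 := fun n => Real.exp_le_one_iff.2 (by
    have : 0 ≤ (X:ℝ)⁻¹ * n := by positivity
    linarith)
  have hfin : ∀ n ∉ range (X + 1), (if n ∈ range (X + 1) then c n else 0) = 0 :=
    fun n hn => if_neg hn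
  have e1 : ∑ n ∈ range (X + 1), c n = ∑' n : ℕ, (if n ∈ range (X + 1) then c n else 0) := by
    rw [tsum_eq_sum hfin]
    exact Finset.sum_congr rfl fun n hn => (if_pos hn).symm
  rw [e1]
  refine Summable.tsum_le_tsum (fun n => ?_) (summable_poly hc (inv_pos.2 hX') hs p)
    (summable_of_ne_finset_zero hfin)
  split_ifs with hn
  · rw [mul_assoc]
    exact mul_le_of_le_one_right (hc n) (h1 _ ⟨(Real.exp_pos _).le, hle1 n⟩)
  · have hn' : (X:ℝ) ≤ n := by
      have : X ≤ n := by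
        simp only [Finset.mem_range, not_lt] at hn
        omega
      exact_mod_cast this
    refine mul_nonpos_of_nonneg_of_nonpos (mul_nonneg (hc n) (Real.exp_pos _).le)
      (h0 _ (Real.exp_pos _).le (Real.exp_le_exp.2 ?_))
    have : 1 ≤ (X:ℝ)⁻¹ * n := by
      rw [le_inv_mul_iff₀ hX']; linarith
    linarith

end KarAux

open KarAux in
theorem karamata' (c : ℕ → ℝ) (hc : ∀ n, 0 ≤ c n) (E : ℕ) (hE : 1 ≤ E) (C : ℝ) (F : ℝ → ℝ)
    (hF : ∀ t, 0 < t → HasSum (fun n : ℕ => c n * Real.exp (-(t * n))) (F t))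
    (hlim : Tendsto (fun t => t ^ E * F t) (𝓝[>] (0:ℝ)) (𝓝 C)) :
    Tendsto (fun X : ℕ => (∑ n ∈ range (X + 1), c n) / (X : ℝ) ^ E) atTop
      (𝓝 (C / (E.factorial : ℝ))) := by
  have hCnn : 0 ≤ C := by
    refine ge_of_tendsto hlim ?_
    filter_upwards [self_mem_nhdsWithin] with t ht
    have ht' : (0:ℝ) < t := ht
    have hFt : 0 ≤ F t := by
      rw [← (hF t ht').tsum_eq]
      exact tsum_nonneg fun n => mul_nonneg (hc n) (Real.exp_pos _).le
    positivity
  obtain ⟨k, rfl⟩ : ∃ k, E = k + 1 := ⟨E - 1, by omega⟩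
  have hinv : Tendsto (fun X : ℕ => (X:ℝ)⁻¹) atTop (𝓝[>] (0:ℝ)) :=
    tendsto_inv_atTop_nhdsGT_zero.comp tendsto_natCast_atTop_atTop
  have hfac : ((k + 1).factorial : ℝ) = (k + 1) * k.factorial := by
    rw [Nat.factorial_succ]; push_cast; ring
  have hk0 : (0:ℝ) < k.factorial := by exact_mod_cast k.factorial_pos
  have hval : C / ((k + 1).factorial : ℝ) = C / (k.factorial : ℝ) * (1 / ((k : ℝ) + 1)) := by
    rw [hfac]; field_simp
  have hpoly := kar_poly c hc (k + 1) hE C F hF hlim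
  simp only [Nat.add_sub_cancel] at hpoly
  have hS : ∀ X : ℕ, (∑ n ∈ range (X + 1), c n) / (X : ℝ) ^ (k + 1) =
      ((X:ℝ)⁻¹) ^ (k + 1) * ∑ n ∈ range (X + 1), c n := fun X => by
    rw [inv_pow, div_eq_inv_mul]
  rw [tendsto_order]
  constructor
  · intro a ha
    have hη : 0 < (C / ((k + 1).factorial : ℝ) - a) / (C / (k.factorial : ℝ) + 1) := by
      have := sub_pos.2 ha
      positivity
    obtain ⟨p, hp0, hp1, hp2⟩ := poly_lower k hη
    have hlt : a < C / (k.factorial : ℝ) *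
        ∫ u in Set.Ioi (0:ℝ), u ^ k * Real.exp (-u) * p.eval (Real.exp (-u)) := by
      have h1 := mul_le_mul_of_nonneg_left hp2 (by positivity : 0 ≤ C / (k.factorial : ℝ))
      refine lt_of_lt_of_le ?_ h1
      rw [mul_sub, ← hval]
      have h2 : C / (k.factorial : ℝ) * ((C / ((k + 1).factorial : ℝ) - a) /
          (C / (k.factorial : ℝ) + 1)) < C / ((k + 1).factorial : ℝ) - a := by
        rw [← mul_div_assoc, div_lt_iff₀ (by positivity)]
        have := sub_pos.2 ha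
        nlinarith
      linarith
    have hev := ((hpoly p).comp hinv).eventually (lt_mem_nhds hlt)
    filter_upwards [hev, eventually_gt_atTop 0] with X hX hX0
    have hX' : (0:ℝ) < X := by exact_mod_cast hX0
    rw [hS]
    refine lt_of_lt_of_le hX ?_
    exact mul_le_mul_of_nonneg_left (lower_sum hc hX0 (hF _ (inv_pos.2 hX')).summable p hp0 hp1)
      (by positivity)
  · intro a ha
    have hη : 0 < (a - C / ((k + 1).factorial : ℝ)) / (C / (k.factorial : ℝ) + 1) := by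
      have := sub_pos.2 ha
      positivity
    obtain ⟨p, hp0, hp1, hp2⟩ := poly_upper k hη
    have hlt : C / (k.factorial : ℝ) *
        ∫ u in Set.Ioi (0:ℝ), u ^ k * Real.exp (-u) * p.eval (Real.exp (-u)) < a := by
      have h1 := mul_le_mul_of_nonneg_left hp2 (by positivity : 0 ≤ C / (k.factorial : ℝ))
      refine lt_of_le_of_lt h1 ?_
      rw [mul_add, ← hval]
      have h2 : C / (k.factorial : ℝ) * ((a - C / ((k + 1).factorial : ℝ)) /
          (C / (k.factorial : ℝ) + 1)) < a - C / ((k + 1).factorial : ℝ) := by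
        rw [← mul_div_assoc, div_lt_iff₀ (by positivity)]
        have := sub_pos.2 ha
        nlinarith
      linarith
    have hev := ((hpoly p).comp hinv).eventually (gt_mem_nhds hlt)
    filter_upwards [hev, eventually_gt_atTop 0] with X hX hX0
    have hX' : (0:ℝ) < X := by exact_mod_cast hX0
    rw [hS]
    refine lt_of_le_of_lt ?_ hX
    exact mul_le_mul_of_nonneg_left (upper_sum hc hX0 (hF _ (inv_pos.2 hX')).summable p hp0 hp1)
      (by positivity)

end Pool.Agent.Helper60.MV
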