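import Pool.Agent.Helper60.MV.B.B1
import Pool.Agent.Helper60.MV.B.Kar
import Pool.Agent.Helper60.MV.B.Im

/-!
MV-B12. Assembly of block B. (`blockA` is passed as a hypothesis `hA`.)

Proof. `rot K` has all cycles odd (`minimalPeriod (rot K) ⟨i, j⟩ = K i`). Number of edges of `R : Conf (rot K)` is `E`
(`Fintype.card (HK K) = ∑ K = 2E`, edges = 2-element cycles of `τ`). For `R` connected: if `R` is good then by `adm_of_good` and
`blockB1'` (there is a cylinder: `HK K` is nonempty as `ρ` is and `K i` is odd) `t^E R.S t -> 2 a`, `R.A ε 0 -> a`, so `a = R.limA`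
(`Tendsto.limUnder_eq`; `R.A ε 0 = AM R.P ε 0`). If `R` is not good then `R.S t = 0` for all `t` (no `l : Edge → ℕ+` satisfies all the
equations, by `sum_P_nat` and the definition of `Good`; faces are the `cface c b`). So with `F t = ∑_{R conn} R.S t`,
`t^E F t -> 2 Yconn K`. By `hA` and `karamata'`, `(∑_{L<=X} cL K L)/X^E -> 2 Yconn K/E!` and with `X = 2N` the claim
(`E >= 1` because `ρ` nonempty).
-/

namespace Pool.Agent.Helper60.MV

open Finset MeasureTheory Filter Topology

private theorem finRotate_iter (m : ℕ) (j : Fin (m + 1)) (n : ℕ) :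
    (((finRotate (m + 1))^[n] j : Fin (m + 1)) : ℕ) = ((j : ℕ) + n) % (m + 1) := by
  induction n with
  | zero =>
    rw [Function.iterate_zero, id_eq, add_zero, Nat.mod_eq_of_lt j.isLt]
  | succ n ih =>
    rw [Function.iterate_succ_apply', finRotate_apply, Fin.val_add, ih, Fin.val_one',
      ← Nat.add_mod, add_assoc]

private theorem finRotate_minimalPeriod (k : ℕ) (j : Fin k) :
    Function.minimalPeriod (finRotate k) j = k := by
  cases k with
  | zero => exact j.elim0
  | succ m =>
    have key : ∀ n : ℕ, Function.IsPeriodicPt (finRotate (m + 1)) n j ↔ (m + 1) ∣ n := by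
      intro n
      rw [Function.IsPeriodicPt, Function.IsFixedPt, Fin.ext_iff, finRotate_iter]
      have hj := Nat.mod_eq_of_lt j.isLt
      constructor
      · intro h
        have h1 : (j : ℕ) + n ≡ (j : ℕ) + 0 [MOD (m + 1)] := by
          rw [Nat.ModEq, add_zero, h, hj]
        exact (Nat.modEq_zero_iff_dvd).1 (Nat.ModEq.add_left_cancel' _ h1)
      · rintro ⟨q, rfl⟩
        rw [Nat.add_mul_mod_self_left, hj]
    apply Nat.dvd_antisymm
    · exact ((key (m + 1)).2 dvd_rfl).minimalPeriod_dvd
    · exact (key _).1 (Function.isPeriodicPt_minimalPeriod _ _)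

private theorem rot_iter {ρ : Type} (K : ρ → ℕ) (i : ρ) (j : Fin (K i)) (n : ℕ) :
    (rot K)^[n] ⟨i, j⟩ = ⟨i, (finRotate (K i))^[n] j⟩ := by
  induction n with
  | zero => rfl
  | succ n ih =>
    rw [Function.iterate_succ_apply', ih, Function.iterate_succ_apply']
    rfl

theorem rot_minimalPeriod {ρ : Type} (K : ρ → ℕ) (h : HK K) :
    Function.minimalPeriod (rot K) h = K h.1 := by
  obtain ⟨i, j⟩ := h
  rw [← finRotate_minimalPeriod (K i) j, Function.minimalPeriod_eq_minimalPeriod_iff]
  intro n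
  unfold Function.IsPeriodicPt Function.IsFixedPt
  rw [rot_iter]
  constructor
  · intro h
    have := (Sigma.mk.inj_iff.1 h).2
    exact eq_of_heq this
  · intro h
    rw [h]

theorem rot_allOdd {ρ : Type} (K : ρ → ℕ) (hK : ∀ i, Odd (K i)) : AllOdd (rot K) := by
  intro h
  rw [rot_minimalPeriod]
  exact hK _

private theorem cyc_eq_iff {H : Type} {τ : Equiv.Perm H} (hτ : IsPairing τ) (x y : H) :
    cyc τ x = cyc τ y ↔ x = y ∨ x = τ y := by
  have h1 : cyc τ x = cyc τ y ↔ τ.SameCycle x y := Quotient.eq (r := Equiv.Perm.SameCycle.setoid τ)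
  rw [h1]
  have hsq : τ ^ 2 = 1 := by
    ext z
    rw [pow_two, Equiv.Perm.mul_apply, hτ.invol, Equiv.Perm.one_apply]
  constructor
  · rintro ⟨n, hn⟩
    rcases Int.even_or_odd n with ⟨m, rfl⟩ | ⟨m, rfl⟩
    · left
      have h2 : τ ^ (m + m) = 1 := by
        rw [← two_mul, zpow_mul]
        have : τ ^ (2 : ℤ) = 1 := by exact_mod_cast hsq
        rw [this, one_zpow]
      rw [h2, Equiv.Perm.one_apply] at hn
      exact hn
    · right
      have h2 : τ ^ (2 * m + 1) = τ := by
        rw [zpow_add, zpow_mul]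
        have : τ ^ (2 : ℤ) = 1 := by exact_mod_cast hsq
        rw [this, one_zpow, one_mul, zpow_one]
      rw [h2] at hn
      rw [← hn, hτ.invol]
  · rintro (rfl | rfl)
    · exact Equiv.Perm.SameCycle.refl _ _
    · exact ⟨1, by rw [zpow_one, hτ.invol]⟩

theorem card_edge {H : Type} [Fintype H] {σ : Equiv.Perm H} (R : Conf σ) :
    2 * Fintype.card R.Edge = Fintype.card H := by
  classical
  have h1 := Finset.card_eq_sum_card_fiberwise (s := (univ : Finset H))
    (t := (univ : Finset R.Edge)) (f := R.edge) (fun _ _ => mem_coe.2 (mem_univ _))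
  rw [card_univ] at h1
  rw [h1]
  have h2 : ∀ e ∈ (univ : Finset R.Edge), ((univ : Finset H).filter (fun h => R.edge h = e)).card = 2 := by
    intro e _
    induction e using Quotient.inductionOn with
    | _ y =>
    have h3 : (univ : Finset H).filter (fun h => R.edge h = cyc R.τ y) = {y, R.τ y} := by
      ext x
      simp only [mem_filter, mem_univ, true_and, mem_insert, mem_singleton]
      exact cyc_eq_iff R.hτ x y
    exact (congrArg Finset.card h3).trans (card_pair (R.hτ.fpf y).symm)
  rw [sum_congr rfl h2, sum_const, card_univ, smul_eq_mul, mul_comm]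

theorem S_of_not_good {H : Type} [Fintype H] {σ : Equiv.Perm H} (R : Conf σ) (h : ¬ R.Good)
    (t : ℝ) : R.S t = 0 := by
  classical
  unfold Conf.S SM
  have key : ∀ l : R.Edge → ℕ+, ¬ ∀ c, ∑ e, R.P c false e * (l e : ℕ) =
      ∑ e, R.P c true e * (l e : ℕ) := by
    intro l hl
    apply h
    refine ⟨fun e => (l e : ℕ), fun e => (l e).pos, fun f => ?_⟩
    have hc : ∀ c, R.per (fun e => (l e : ℕ)) (R.cface c false) =
        R.per (fun e => (l e : ℕ)) (R.cface c true) := fun c => by
      rw [← sum_P_nat, ← sum_P_nat]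
      exact hl c
    obtain ⟨⟨c, b⟩, rfl⟩ := (cface_bij R).2 f
    have e1 : R.β (R.cface c false) = R.cface c true := rfl
    have e2 : R.β (R.cface c true) = R.cface c false := R.hβ.invol _
    cases b
    · show R.per _ (R.cface c false) = R.per _ (R.β (R.cface c false))
      rw [e1]; exact hc c
    · show R.per _ (R.cface c true) = R.per _ (R.β (R.cface c true))
      rw [e2]; exact (hc c).symm
  rw [tsum_congr (fun l => if_neg (key l)), tsum_zero]

theorem blockB_of_A {ρ : Type} [Fintype ρ] [Nonempty ρ] (K : ρ → ℕ) (hK : ∀ i, Odd (K i)) (E : ℕ)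
    (hE : ∑ i, K i = 2 * E)
    (hA : ∀ t : ℝ, 0 < t → HasSum (fun L : ℕ => cL K L * Real.exp (-(t * L)))
      (by classical exact ∑ R ∈ univ.filter (fun R : Conf (rot K) => R.Conn), R.S t)) :
    Tendsto (fun N : ℕ => (∑ L ∈ range (2 * N + 1), cL K L) / (N : ℝ) ^ E) atTop
      (𝓝 (2 ^ E * (2 * Yconn K) / (E.factorial : ℝ))) := by
  classical
  obtain ⟨i0⟩ := ‹Nonempty ρ›
  have hE1 : 1 ≤ E := by
    have h1 : K i0 ≤ ∑ i, K i := single_le_sum (fun _ _ => Nat.zero_le _) (mem_univ i0)
    have h2 := (hK i0).pos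
    omega
  have hcard : Fintype.card (HK K) = 2 * E := by
    rw [Fintype.card_sigma, ← hE]
    exact sum_congr rfl fun i _ => Fintype.card_fin _
  have hEdge : ∀ R : Conf (rot K), Fintype.card R.Edge = E := fun R => by
    have := card_edge R
    omega
  have hlimR : ∀ R : Conf (rot K), R.Conn → Tendsto (fun t : ℝ => t ^ E * R.S t) (𝓝[>] (0:ℝ))
      (𝓝 (if R.Good then 2 * R.limA else 0)) := by
    intro R hR
    by_cases hg : R.Good
    · rw [if_pos hg]
      have hadm := adm_of_good R (rot_allOdd K hK) hR hg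
      have : Nonempty R.Cyl := ⟨cyc R.β (R.face ⟨i0, ⟨0, (hK i0).pos⟩⟩)⟩
      obtain ⟨a, ha1, ha2⟩ := blockB1' R.P hadm
      rw [hEdge R] at ha1
      have h3 : R.limA = a := Tendsto.limUnder_eq ha2
      rw [h3]
      exact ha1
    · rw [if_neg hg]
      simp only [S_of_not_good R hg, mul_zero]
      exact tendsto_const_nhds
  have hlim : Tendsto (fun t : ℝ => t ^ E *
      ∑ R ∈ univ.filter (fun R : Conf (rot K) => R.Conn), R.S t) (𝓝[>] (0:ℝ))
      (𝓝 (2 * Yconn K)) := by
    have h1 : (2 * Yconn K) = ∑ R ∈ univ.filter (fun R : Conf (rot K) => R.Conn),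
        (if R.Good then 2 * R.limA else 0) := by
      unfold Yconn
      rw [← sum_filter, filter_filter, mul_sum]
    rw [h1]
    simp only [mul_sum]
    exact tendsto_finsetSum _ fun R hR => hlimR R (mem_filter.1 hR).2
  have hkar := karamata' (cL K) (fun n => by unfold cL; positivity) E hE1 (2 * Yconn K)
    (fun t => ∑ R ∈ univ.filter (fun R : Conf (rot K) => R.Conn), R.S t) hA hlim
  have h2N : Tendsto (fun N : ℕ => 2 * N) atTop atTop :=
    tendsto_id.const_mul_atTop' (by norm_num)
  have h3 := (hkar.comp h2N).const_mul ((2 : ℝ) ^ E)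
  rw [← mul_div_assoc] at h3
  refine h3.congr' ?_
  filter_upwards [eventually_ge_atTop 1] with N hN
  have hN0 : (N : ℝ) ≠ 0 := by
    have : 0 < N := hN
    positivity
  simp only [Function.comp_apply]
  push_cast
  rw [mul_pow]
  field_simp

end Pool.Agent.Helper60.MV
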