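import Pool.Agent.Helper60.MV.B.Spec

/-!
MV-B4. Riemann sums on the orthant.

Proof by dominated convergence. For `t > 0` let `r_t(x)_e = t * ⌈x_e / t⌉` (so `x_e <= r_t(x)_e < x_e + t` and `r_t(x)_e > 0` if
`x_e > 0`). The orthant `(0,∞)^ι` is the disjoint union of the boxes `B_l = Π ((l_e - 1) t, l_e t]`, `l : ι → ℕ+`, of volume
`t^|ι|`, and `r_t = t l` on `B_l`. Hence `∫_{x>0} F(r_t x) dx = t^|ι| ∑'_l F(t l)` (`|F(r_t x)| <= C e^{-c ∑ x}` is integrable:
product of one dimensional integrals; `integral_iUnion`/`hasSum_integral_iUnion`). As `t -> 0+`, `F(r_t x) -> F(x)` (continuity on the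
closed orthant), dominated by `C e^{-c ∑ x_e}` because `r_t x >= x`. `tendsto_integral_filter_of_dominated_convergence`.
The summability statement comes from the same decomposition (`hasSum_integral_iUnion`) or from a product of geometric series.
-/

namespace Pool.Agent.Helper60.MV

open Finset MeasureTheory Filter Topology

theorem orthant_exp_integrable {ι : Type} [Fintype ι] (c : ℝ) (hc : 0 < c) :
    IntegrableOn (fun x : ι → ℝ => Real.exp (-(c * ∑ e, x e))) {x : ι → ℝ | ∀ e, 0 < x e} := by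
  have hset : {x : ι → ℝ | ∀ e, 0 < x e} = Set.univ.pi (fun _ => Set.Ioi (0:ℝ)) := by
    ext x; simp
  have hfun : (fun x : ι → ℝ => Real.exp (-(c * ∑ e, x e))) =
      fun x : ι → ℝ => ∏ e, Real.exp (-c * x e) := by
    ext x
    rw [← Real.exp_sum, ← Finset.mul_sum, neg_mul]
  rw [hset, hfun, IntegrableOn, volume_pi, Measure.restrict_pi_pi]
  exact Integrable.fintype_prod (f := fun _ y => Real.exp (-c * y))
    (fun _ => exp_neg_integrableOn_Ioi 0 hc)

/-- The boxes. -/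
def riemBox {ι : Type} (t : ℝ) (l : ι → ℕ+) : Set (ι → ℝ) :=
  Set.univ.pi (fun e => Set.Ioc (t * (((l e : ℕ) : ℝ) - 1)) (t * ((l e : ℕ) : ℝ)))

/-- The step function. -/
noncomputable def riemStep {ι : Type} (F : (ι → ℝ) → ℝ) (t : ℝ) (x : ι → ℝ) : ℝ :=
  F (fun e => t * ((⌈x e / t⌉₊ : ℕ) : ℝ))

theorem ceil_iff {t : ℝ} (ht : 0 < t) (y : ℝ) (m : ℕ+) :
    ⌈y / t⌉₊ = (m : ℕ) ↔ y ∈ Set.Ioc (t * (((m : ℕ) : ℝ) - 1)) (t * ((m : ℕ) : ℝ)) := by
  rw [Nat.ceil_eq_iff m.pos.ne', Set.mem_Ioc, lt_div_iff₀ ht, div_le_iff₀ ht,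
    Nat.cast_pred m.pos, mul_comm t, mul_comm t]

theorem riemBox_union {ι : Type} {t : ℝ} (ht : 0 < t) :
    (⋃ l : ι → ℕ+, riemBox t l) = {x : ι → ℝ | ∀ e, 0 < x e} := by
  ext x
  simp only [Set.mem_iUnion, riemBox, Set.mem_pi, Set.mem_univ, true_implies, Set.mem_ofPred_eq]
  constructor
  · rintro ⟨l, hl⟩ e
    have h1 : (1:ℝ) ≤ ((l e : ℕ) : ℝ) := by exact_mod_cast (l e).pos
    exact lt_of_le_of_lt (mul_nonneg ht.le (by linarith)) (hl e).1
  · intro hx
    refine ⟨fun e => ⟨⌈x e / t⌉₊, Nat.ceil_pos.2 (div_pos (hx e) ht)⟩, fun e => ?_⟩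
    exact (ceil_iff ht (x e) _).1 rfl

theorem riemBox_meas {ι : Type} [Fintype ι] (t : ℝ) (l : ι → ℕ+) :
    MeasurableSet (riemBox t l) :=
  MeasurableSet.univ_pi fun _ => measurableSet_Ioc

theorem riemBox_disj {ι : Type} {t : ℝ} (ht : 0 < t) :
    Pairwise (Function.onFun Disjoint (riemBox (ι := ι) t)) := by
  intro l m hlm
  rw [Function.onFun, Set.disjoint_left]
  intro x hx hy
  apply hlm
  ext e
  have h1 := (ceil_iff ht (x e) (l e)).2 (hx e (Set.mem_univ e))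
  have h2 := (ceil_iff ht (x e) (m e)).2 (hy e (Set.mem_univ e))
  exact PNat.eq (h1.symm.trans h2)

theorem riemStep_meas {ι : Type} [Fintype ι] (F : (ι → ℝ) → ℝ) (t : ℝ) :
    Measurable (riemStep F t) := by
  have h1 : Measurable (fun x : ι → ℝ => fun e => (⌈x e / t⌉₊ : ℕ)) := by
    refine measurable_pi_iff.2 fun e => ?_
    have h2 : Measurable (fun x : ι → ℝ => x e / t) := by fun_prop
    exact Nat.measurable_ceil.comp h2
  exact (measurable_of_countable (fun l : ι → ℕ => F (fun e => t * ((l e : ℕ) : ℝ)))).comp h1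

theorem riemStep_bound {ι : Type} [Fintype ι] {F : (ι → ℝ) → ℝ} {C c : ℝ} (hc : 0 < c)
    (hb : ∀ x : ι → ℝ, (∀ e, 0 ≤ x e) → |F x| ≤ C * Real.exp (-(c * ∑ e, x e))) {t : ℝ}
    (ht : 0 < t) (x : ι → ℝ) : ‖riemStep F t x‖ ≤ C * Real.exp (-(c * ∑ e, x e)) := by
  have hC : 0 ≤ C := by
    have := hb 0 (fun _ => le_rfl)
    simp only [Pi.zero_apply, Finset.sum_const_zero, mul_zero, neg_zero, Real.exp_zero,
      mul_one] at this
    exact (abs_nonneg _).trans this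
  rw [Real.norm_eq_abs]
  refine (hb _ (fun e => mul_nonneg ht.le (Nat.cast_nonneg _))).trans ?_
  refine mul_le_mul_of_nonneg_left (Real.exp_le_exp.2 (neg_le_neg ?_)) hC
  refine mul_le_mul_of_nonneg_left (Finset.sum_le_sum fun e _ => ?_) hc.le
  have := Nat.le_ceil (x e / t)
  rw [div_le_iff₀ ht, mul_comm] at this
  exact this

theorem riemStep_integrable {ι : Type} [Fintype ι] {F : (ι → ℝ) → ℝ} {C c : ℝ} (hc : 0 < c)
    (hb : ∀ x : ι → ℝ, (∀ e, 0 ≤ x e) → |F x| ≤ C * Real.exp (-(c * ∑ e, x e))) {t : ℝ}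
    (ht : 0 < t) : IntegrableOn (riemStep F t) {x : ι → ℝ | ∀ e, 0 < x e} :=
  Integrable.mono' ((orthant_exp_integrable c hc).const_mul C)
    (riemStep_meas F t).aestronglyMeasurable
    (Filter.Eventually.of_forall fun x => riemStep_bound hc hb ht x)

theorem riemBox_integral {ι : Type} [Fintype ι] (F : (ι → ℝ) → ℝ) {t : ℝ} (ht : 0 < t)
    (l : ι → ℕ+) : ∫ x in riemBox t l, riemStep F t x =
      t ^ (Fintype.card ι) * F (fun e => t * ((l e : ℕ) : ℝ)) := by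
  have h1 : ∫ x in riemBox t l, riemStep F t x =
      ∫ x in riemBox t l, F (fun e => t * ((l e : ℕ) : ℝ)) := by
    refine setIntegral_congr_fun (riemBox_meas t l) fun x hx => ?_
    have h2 : ∀ e, ⌈x e / t⌉₊ = (l e : ℕ) := fun e =>
      (ceil_iff ht (x e) (l e)).2 (hx e (Set.mem_univ e))
    simp only [riemStep, h2]
  rw [h1, setIntegral_const, smul_eq_mul]
  congr 1
  rw [riemBox, Measure.real, Real.volume_pi_Ioc, ENNReal.toReal_prod]
  have h3 : ∀ e : ι, (ENNReal.ofReal (t * ((l e : ℕ) : ℝ) - t * (((l e : ℕ) : ℝ) - 1))).toReal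
      = t := by
    intro e
    rw [ENNReal.toReal_ofReal (by nlinarith)]
    ring
  simp only [h3, Finset.prod_const, Finset.card_univ]

theorem riem_hasSum {ι : Type} [Fintype ι] {F : (ι → ℝ) → ℝ} {C c : ℝ} (hc : 0 < c)
    (hb : ∀ x : ι → ℝ, (∀ e, 0 ≤ x e) → |F x| ≤ C * Real.exp (-(c * ∑ e, x e))) {t : ℝ}
    (ht : 0 < t) : HasSum (fun l : ι → ℕ+ => t ^ (Fintype.card ι) * F (fun e => t * ((l e : ℕ) : ℝ)))
      (∫ x in {x : ι → ℝ | ∀ e, 0 < x e}, riemStep F t x) := by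
  have h1 := hasSum_integral_iUnion (μ := volume) (f := riemStep F t) (riemBox_meas (ι := ι) t)
    (riemBox_disj ht) (by rw [riemBox_union ht]; exact riemStep_integrable hc hb ht)
  rw [riemBox_union ht] at h1
  simpa only [riemBox_integral F ht] using h1

theorem lattice_summable {ι : Type} [Fintype ι] (F : (ι → ℝ) → ℝ) (C c : ℝ) (hc : 0 < c)
    (hb : ∀ x : ι → ℝ, (∀ e, 0 ≤ x e) → |F x| ≤ C * Real.exp (-(c * ∑ e, x e))) (t : ℝ)
    (ht : 0 < t) : Summable (fun l : ι → ℕ+ => F (fun e => t * ((l e : ℕ) : ℝ))) := by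
  have h := (riem_hasSum hc hb ht).summable
  exact (summable_mul_left_iff (pow_ne_zero _ ht.ne')).1 h

theorem riemStep_tendsto {ι : Type} [Fintype ι] {F : (ι → ℝ) → ℝ}
    (hF : ContinuousOn F {x : ι → ℝ | ∀ e, 0 ≤ x e}) (x : ι → ℝ) (hx : ∀ e, 0 < x e) :
    Tendsto (fun t => riemStep F t x) (𝓝[>] (0:ℝ)) (𝓝 (F x)) := by
  have h1 : Tendsto (fun t : ℝ => fun e => t * ((⌈x e / t⌉₊ : ℕ) : ℝ)) (𝓝[>] (0:ℝ)) (𝓝 x) := by
    refine tendsto_pi_nhds.2 fun e => ?_
    have hid : Tendsto (fun t : ℝ => t) (𝓝[>] (0:ℝ)) (𝓝 0) :=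
      tendsto_id.mono_left nhdsWithin_le_nhds
    have hup : Tendsto (fun t : ℝ => x e + t) (𝓝[>] (0:ℝ)) (𝓝 (x e)) := by
      simpa using (tendsto_const_nhds (x := x e)).add hid
    refine tendsto_of_tendsto_of_tendsto_of_le_of_le' tendsto_const_nhds hup ?_ ?_
    · filter_upwards [self_mem_nhdsWithin] with t ht
      have ht : 0 < t := ht
      have := Nat.le_ceil (x e / t)
      rw [div_le_iff₀ ht, mul_comm] at this
      exact this
    · filter_upwards [self_mem_nhdsWithin] with t ht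
      have ht : 0 < t := ht
      have := Nat.ceil_lt_add_one (div_nonneg (hx e).le ht.le)
      have h2 : t * ((⌈x e / t⌉₊ : ℕ) : ℝ) ≤ t * (x e / t + 1) :=
        mul_le_mul_of_nonneg_left this.le ht.le
      have h3 : t * (x e / t + 1) = x e + t := by field_simp
      linarith
  have h2 : Tendsto (fun t : ℝ => fun e => t * ((⌈x e / t⌉₊ : ℕ) : ℝ)) (𝓝[>] (0:ℝ))
      (𝓝[{x : ι → ℝ | ∀ e, 0 ≤ x e}] x) := by
    refine tendsto_nhdsWithin_iff.2 ⟨h1, ?_⟩
    filter_upwards [self_mem_nhdsWithin] with t ht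
    intro e
    exact mul_nonneg (le_of_lt ht) (Nat.cast_nonneg _)
  exact (hF x (fun e => (hx e).le)).tendsto.comp h2

theorem riemann_sum {ι : Type} [Fintype ι] (F : (ι → ℝ) → ℝ)
    (hF : ContinuousOn F {x : ι → ℝ | ∀ e, 0 ≤ x e}) (C c : ℝ) (hc : 0 < c)
    (hb : ∀ x : ι → ℝ, (∀ e, 0 ≤ x e) → |F x| ≤ C * Real.exp (-(c * ∑ e, x e))) :
    Tendsto (fun t : ℝ => t ^ (Fintype.card ι) * ∑' l : ι → ℕ+, F (fun e => t * ((l e : ℕ) : ℝ)))
      (𝓝[>] (0:ℝ)) (𝓝 (∫ x in {x : ι → ℝ | ∀ e, 0 < x e}, F x)) := by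
  have h1 : Tendsto (fun t : ℝ => ∫ x in {x : ι → ℝ | ∀ e, 0 < x e}, riemStep F t x)
      (𝓝[>] (0:ℝ)) (𝓝 (∫ x in {x : ι → ℝ | ∀ e, 0 < x e}, F x)) := by
    refine tendsto_integral_filter_of_dominated_convergence
      (fun x : ι → ℝ => C * Real.exp (-(c * ∑ e, x e))) ?_ ?_
      ((orthant_exp_integrable c hc).const_mul C) ?_
    · exact Filter.Eventually.of_forall fun t => (riemStep_meas F t).aestronglyMeasurable
    · filter_upwards [self_mem_nhdsWithin] with t ht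
      exact Filter.Eventually.of_forall fun x => riemStep_bound hc hb ht x
    · refine (ae_restrict_iff' ?_).2 (Filter.Eventually.of_forall fun x hx =>
        riemStep_tendsto hF x hx)
      have : {x : ι → ℝ | ∀ e, 0 < x e} = Set.univ.pi (fun _ => Set.Ioi (0:ℝ)) := by
        ext x; simp
      rw [this]
      exact MeasurableSet.univ_pi fun _ => measurableSet_Ioi
  refine h1.congr' ?_
  filter_upwards [self_mem_nhdsWithin] with t ht
  rw [← (riem_hasSum hc hb ht).tsum_eq, tsum_mul_left]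

end Pool.Agent.Helper60.MV
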