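import Pool.Agent.Helper60.MV.B.Group
import Pool.Agent.Helper60.MV.B.Riemann

/-!
MV-B8. Assembly of block B1.

Proof. `F(x) = Π_c kern ε (pR P c false x) (pR P c true x)` is continuous (`kern_continuous`) and on the orthant
`|F| <= (e^{ε/2}/ε)^{|κ|} e^{-(1/4) ∑_c (p_c + p'_c)} = C e^{-(1/2) ∑ x_e}` (`kern_exp`, `corr_le`, column sums 2). By `riemann_sum`,
`t^|ι| ∑'_l F(t l) -> AM P ε 0` (for `0<ε`). By `group_upper/lower`, `st_compare`, `st_odd` this sum is, for `0<ε<=1`, between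
`e^{∓C'ε} · t^|ι| · St P t 0 · ∑'_{δ, ∑δ even} Π corr ε (t δ_c)` (`corr ε (t δ_c) = 0` unless `|t δ_c| < 2ε`), and
`t^|κ| ∑'_{δ even} Π corr -> 1/2`, `St P t 0 = t^|κ| SM P t`. Put `Y(t) = t^|ι| SM P t >= 0`. So for each `0<ε<=1`
`(1/2) e^{-C'ε} limsup Y <= AM P ε 0 <= (1/2) e^{C'ε} liminf Y`
(in particular `Y` is eventually bounded). Letting `ε -> 0` with `AM P ε 0` finite: `Y` converges (bounded, liminf = limsup since
`limsup Y <= e^{2C'ε} liminf Y` for all small `ε`), to `2a`, and then `e^{-C'ε} a <= AM P ε 0 <= e^{C'ε} a`, so `AM P ε 0 -> a`.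
-/

namespace Pool.Agent.Helper60.MV

open Finset MeasureTheory Filter Topology

theorem b1_bound {ι κ : Type} [Fintype ι] [Fintype κ] (P : κ → Bool → ι → ℕ)
    (hcol : ∀ e, ∑ c, (P c false e + P c true e) = 2) (ε : ℝ) (hε : 0 < ε) (x : ι → ℝ) :
    |∏ c, kern ε (pR P c false x) (pR P c true x)| ≤
      (Real.exp (ε / 2) * ε⁻¹) ^ (Fintype.card κ) * Real.exp (-(1 / 2 * ∑ e, x e)) := by
  have h0 : ∀ c, 0 ≤ kern ε (pR P c false x) (pR P c true x) := fun c => kern_nonneg ε hε _ _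
  rw [abs_of_nonneg (Finset.prod_nonneg (fun c _ => h0 c))]
  have h1 : ∀ c ∈ (univ : Finset κ), kern ε (pR P c false x) (pR P c true x) ≤
      (Real.exp (ε / 2) * ε⁻¹) * Real.exp (-((pR P c false x + pR P c true x) / 4)) := by
    intro c _
    refine (kern_exp ε hε _ _).trans ?_
    have := corr_le ε hε (pR P c false x - pR P c true x)
    have h2 : 0 ≤ Real.exp (ε / 2) * Real.exp (-((pR P c false x + pR P c true x) / 4)) := by
      positivity
    calc _ ≤ Real.exp (ε / 2) * Real.exp (-((pR P c false x + pR P c true x) / 4)) * ε⁻¹ :=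
          mul_le_mul_of_nonneg_left this h2
      _ = _ := by ring
  refine (Finset.prod_le_prod (fun c _ => h0 c) h1).trans (le_of_eq ?_)
  rw [Finset.prod_mul_distrib, Finset.prod_const, ← Real.exp_sum, Finset.card_univ]
  have h3 : ∑ c, (pR P c false x + pR P c true x) = 2 * ∑ e, x e := by
    unfold pR
    simp_rw [← Finset.sum_add_distrib, ← add_mul]
    rw [Finset.sum_comm, Finset.mul_sum]
    apply Finset.sum_congr rfl
    intro e _
    rw [← Finset.sum_mul]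
    congr 1
    have := hcol e
    exact_mod_cast this
  have h4 : ∑ c, -((pR P c false x + pR P c true x) / 4) =
      -((∑ c, (pR P c false x + pR P c true x)) / 4) := by
    rw [Finset.sum_div, Finset.sum_neg_distrib]
  rw [h4, h3]
  congr 2
  ring

theorem b1_sandwich {ι κ : Type} [Fintype ι] [Fintype κ] (P : κ → Bool → ι → ℕ) (hP : Adm P)
    (C : ℝ) (hC : ∀ (ε t : ℝ) (_ : 0 < ε) (_ : ε ≤ 1) (_ : 0 < t) (δ : κ → ℤ)
      (_ : Even (∑ c, δ c)) (_ : ∀ c, |t * (δ c : ℝ)| ≤ 2 * ε),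
      Real.exp (-(C * ε)) * St P t 0 ≤ St P t δ ∧ Real.exp (-(C * ε)) * St P t δ ≤ St P t 0)
    (ε t : ℝ) (hε : 0 < ε) (hε1 : ε ≤ 1) (ht : 0 < t) :
    (∑' δ : κ → ℤ, (∏ c, corr ε (t * (δ c : ℝ))) * St P t δ) ≤
      Real.exp (C * ε) * St P t 0 *
        ∑' δ : κ → ℤ, (if Even (∑ c, δ c) then ∏ c, corr ε (t * (δ c : ℝ)) else 0) ∧
    Real.exp (-(C * ε)) * St P t 0 *
        (∑' δ : κ → ℤ, (if Even (∑ c, δ c) then ∏ c, corr ε (t * (δ c : ℝ)) else 0)) ≤
      ∑' δ : κ → ℤ, (∏ c, corr ε (t * (δ c : ℝ))) * St P t δ := by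
  have hfin := corr_sum_finite (κ := κ) ε hε t ht
  have hs1 : Summable (fun δ : κ → ℤ => (∏ c, corr ε (t * (δ c : ℝ))) * St P t δ) := by
    apply summable_of_hasFiniteSupport
    apply hfin.subset
    intro δ hδ
    simp only [Function.mem_support] at hδ ⊢
    exact left_ne_zero_of_mul hδ
  have hs2 : Summable (fun δ : κ → ℤ =>
      (if Even (∑ c, δ c) then ∏ c, corr ε (t * (δ c : ℝ)) else 0)) := by
    apply summable_of_hasFiniteSupport
    apply hfin.subset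
    intro δ hδ
    simp only [Function.mem_support] at hδ ⊢
    split_ifs at hδ with h
    · exact hδ
    · exact absurd rfl hδ
  have key : ∀ δ : κ → ℤ, (∏ c, corr ε (t * (δ c : ℝ))) * St P t δ ≤
      Real.exp (C * ε) * St P t 0 *
        (if Even (∑ c, δ c) then ∏ c, corr ε (t * (δ c : ℝ)) else 0) ∧
      Real.exp (-(C * ε)) * St P t 0 *
        (if Even (∑ c, δ c) then ∏ c, corr ε (t * (δ c : ℝ)) else 0) ≤
      (∏ c, corr ε (t * (δ c : ℝ))) * St P t δ := by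
    intro δ
    by_cases he : Even (∑ c, δ c)
    · rw [if_pos he]
      by_cases hb : ∀ c, |t * (δ c : ℝ)| ≤ 2 * ε
      · obtain ⟨h1, h2⟩ := hC ε t hε hε1 ht δ he hb
        have hp : 0 ≤ ∏ c, corr ε (t * (δ c : ℝ)) :=
          Finset.prod_nonneg (fun c _ => corr_nonneg ε hε _)
        have h3 : St P t δ ≤ Real.exp (C * ε) * St P t 0 := by
          have := mul_le_mul_of_nonneg_left h2 (Real.exp_pos (C * ε)).le
          rwa [← mul_assoc, ← Real.exp_add, add_neg_cancel, Real.exp_zero, one_mul] at this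
        constructor
        · rw [mul_comm]; exact mul_le_mul_of_nonneg_right h3 hp
        · rw [mul_comm _ (St P t δ)]; exact mul_le_mul_of_nonneg_right h1 hp
      · push Not at hb
        obtain ⟨c, hc⟩ := hb
        have h0 : ∏ c, corr ε (t * (δ c : ℝ)) = 0 :=
          Finset.prod_eq_zero (Finset.mem_univ c) (corr_zero ε hε _ hc.le)
        rw [h0]; simp
    · rw [if_neg he, st_odd P hP t δ he]; simp
  constructor
  · rw [← tsum_mul_left]
    exact hs1.tsum_le_tsum (fun δ => (key δ).1) (hs2.mul_left _)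
  · rw [← tsum_mul_left]
    exact (hs2.mul_left _).tsum_le_tsum (fun δ => (key δ).2) hs1

theorem st_nonneg {ι κ : Type} [Fintype ι] [Fintype κ] (P : κ → Bool → ι → ℕ) (t : ℝ)
    (δ : κ → ℤ) : 0 ≤ St P t δ := by
  unfold St
  apply tsum_nonneg
  intro l
  split_ifs
  · exact Finset.prod_nonneg (fun c _ => (phi_pos _).le)
  · exact le_refl _

theorem blockB1' {ι κ : Type} [Fintype ι] [Fintype κ] [Nonempty κ]
    (P : κ → Bool → ι → ℕ) (hP : Adm P) :
    ∃ a : ℝ, Tendsto (fun t => t ^ (Fintype.card ι) * SM P t) (𝓝[>] (0:ℝ)) (𝓝 (2 * a)) ∧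
      Tendsto (fun ε => AM P ε 0) (𝓝[>] (0:ℝ)) (𝓝 a) := by
  obtain ⟨C, hC0, hC⟩ := st_compare P hP
  set Y : ℝ → ℝ := fun t => t ^ (Fintype.card ι) * SM P t with hY
  set τ : ℝ → ℝ → ℝ := fun ε t => t ^ (Fintype.card κ) *
      ∑' δ : κ → ℤ, (if Even (∑ c, δ c) then ∏ c, corr ε (t * (δ c : ℝ)) else 0) with hτ
  have hτlim : ∀ ε : ℝ, 0 < ε → Tendsto (τ ε) (𝓝[>] (0:ℝ)) (𝓝 (1 / 2)) := fun ε hε =>
    corr_parity_sum ε hε
  set G : ℝ → ℝ → ℝ := fun ε t => t ^ (Fintype.card ι) * ∑' l : ι → ℕ+,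
      ∏ c, kern ε (pR P c false (fun e => t * ((l e : ℕ) : ℝ)))
      (pR P c true (fun e => t * ((l e : ℕ) : ℝ))) with hG
  have hpR : ∀ c b, Continuous (pR P c b) := by
    intro c b
    unfold pR
    fun_prop
  have hGlim : ∀ ε : ℝ, 0 < ε → Tendsto (G ε) (𝓝[>] (0:ℝ)) (𝓝 (AM P ε 0)) := by
    intro ε hε
    have hcont : Continuous (fun x : ι → ℝ => ∏ c, kern ε (pR P c false x) (pR P c true x)) := by
      apply continuous_finsetProd
      intro c _
      exact (kern_continuous ε hε).comp ((hpR c false).prodMk (hpR c true))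
    have h1 := riemann_sum (fun x : ι → ℝ => ∏ c, kern ε (pR P c false x) (pR P c true x))
      hcont.continuousOn ((Real.exp (ε / 2) * ε⁻¹) ^ (Fintype.card κ)) (1 / 2) (by norm_num)
      (fun x _ => b1_bound P hP.col ε hε x)
    have h2 : AM P ε 0 = ∫ x in {x : ι → ℝ | ∀ e, 0 < x e},
        ∏ c, kern ε (pR P c false x) (pR P c true x) := by
      unfold AM pR
      simp
    rw [h2]
    exact h1
  have hAnn : ∀ ε : ℝ, 0 < ε → 0 ≤ AM P ε 0 := by
    intro ε hε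
    unfold AM
    apply integral_nonneg
    intro x
    exact Finset.prod_nonneg (fun c _ => kern_nonneg ε hε _ _)
  have hYnn : ∀ t : ℝ, 0 < t → 0 ≤ Y t := by
    intro t ht
    have h1 := st_zero P hP t ht
    have h2 := st_nonneg P t 0
    have h3 : 0 ≤ SM P t := by
      by_contra h
      push Not at h
      have : t ^ (Fintype.card κ) * SM P t < 0 := mul_neg_of_pos_of_neg (pow_pos ht _) h
      linarith
    exact mul_nonneg (pow_nonneg ht.le _) h3
  set D : ℝ := Fintype.card κ + C with hD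
  have hD0 : 0 < D := by positivity
  -- the sandwich
  have hup : ∀ ε t : ℝ, 0 < ε → ε ≤ 1 → 0 < t → G ε t ≤ Real.exp (D * ε) * (Y t * τ ε t) := by
    intro ε t hε hε1 ht
    have h1 := group_upper P hP ε t hε ht
    have h2 := (b1_sandwich P hP C hC ε t hε hε1 ht).1
    have h3 := st_zero P hP t ht
    have h4 : 0 ≤ t ^ (Fintype.card ι) := pow_nonneg ht.le _
    calc G ε t ≤ t ^ (Fintype.card ι) * (Real.exp (Fintype.card κ * ε) *
          ∑' δ : κ → ℤ, (∏ c, corr ε (t * (δ c : ℝ))) * St P t δ) :=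
          mul_le_mul_of_nonneg_left h1 h4
      _ ≤ t ^ (Fintype.card ι) * (Real.exp (Fintype.card κ * ε) *
          (Real.exp (C * ε) * St P t 0 *
        ∑' δ : κ → ℤ, (if Even (∑ c, δ c) then ∏ c, corr ε (t * (δ c : ℝ)) else 0))) :=
          mul_le_mul_of_nonneg_left (mul_le_mul_of_nonneg_left h2 (Real.exp_pos _).le) h4
      _ = _ := by
        rw [h3, hD, add_mul, Real.exp_add]
        simp only [hY, hτ]
        ring
  have hlo : ∀ ε t : ℝ, 0 < ε → ε ≤ 1 → 0 < t →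
      Real.exp (-(D * ε)) * (Y t * τ ε t) ≤ G ε t := by
    intro ε t hε hε1 ht
    have h1 := group_lower P hP ε t hε ht
    have h2 := (b1_sandwich P hP C hC ε t hε hε1 ht).2
    have h3 := st_zero P hP t ht
    have h4 : 0 ≤ t ^ (Fintype.card ι) := pow_nonneg ht.le _
    calc Real.exp (-(D * ε)) * (Y t * τ ε t) =
          t ^ (Fintype.card ι) * (Real.exp (-(Fintype.card κ * ε)) *
          (Real.exp (-(C * ε)) * St P t 0 *
        ∑' δ : κ → ℤ, (if Even (∑ c, δ c) then ∏ c, corr ε (t * (δ c : ℝ)) else 0))) := by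
          rw [h3, hD, add_mul, neg_add, Real.exp_add]
          simp only [hY, hτ]
          ring
      _ ≤ t ^ (Fintype.card ι) * (Real.exp (-(Fintype.card κ * ε)) *
          ∑' δ : κ → ℤ, (∏ c, corr ε (t * (δ c : ℝ))) * St P t δ) :=
          mul_le_mul_of_nonneg_left (mul_le_mul_of_nonneg_left h2 (Real.exp_pos _).le) h4
      _ ≤ G ε t := mul_le_mul_of_nonneg_left h1 h4
  have hpos : ∀ᶠ t : ℝ in 𝓝[>] (0:ℝ), 0 < t := self_mem_nhdsWithin
  have hτpos : ∀ ε : ℝ, 0 < ε → ∀ᶠ t in 𝓝[>] (0:ℝ), 0 < τ ε t := fun ε hε =>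
    (hτlim ε hε).eventually (lt_mem_nhds (by norm_num))
  have hq : ∀ ε : ℝ, 0 < ε → Tendsto (fun t => G ε t / τ ε t) (𝓝[>] (0:ℝ))
      (𝓝 (2 * AM P ε 0)) := by
    intro ε hε
    have h := (hGlim ε hε).div (hτlim ε hε) (by norm_num)
    have h2 : AM P ε 0 / (1 / 2) = 2 * AM P ε 0 := by ring
    rw [h2] at h
    exact h
  have hYup : ∀ ε : ℝ, 0 < ε → ε ≤ 1 → ∀ᶠ t in 𝓝[>] (0:ℝ),
      Y t ≤ Real.exp (D * ε) * (G ε t / τ ε t) := by
    intro ε hε hε1
    filter_upwards [hpos, hτpos ε hε] with t ht hτt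
    have h1 := hlo ε t hε hε1 ht
    rw [← mul_div_assoc, le_div_iff₀ hτt]
    have h2 := mul_le_mul_of_nonneg_left h1 (Real.exp_pos (D * ε)).le
    rwa [← mul_assoc, ← Real.exp_add, add_neg_cancel, Real.exp_zero, one_mul] at h2
  have hYlo : ∀ ε : ℝ, 0 < ε → ε ≤ 1 → ∀ᶠ t in 𝓝[>] (0:ℝ),
      Real.exp (-(D * ε)) * (G ε t / τ ε t) ≤ Y t := by
    intro ε hε hε1
    filter_upwards [hpos, hτpos ε hε] with t ht hτt
    have h1 := hup ε t hε hε1 ht
    rw [← mul_div_assoc, div_le_iff₀ hτt]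
    calc Real.exp (-(D * ε)) * G ε t ≤ Real.exp (-(D * ε)) * (Real.exp (D * ε) *
          (Y t * τ ε t)) := mul_le_mul_of_nonneg_left h1 (Real.exp_pos (-(D * ε))).le
      _ = Y t * τ ε t := by
        rw [← mul_assoc, ← Real.exp_add, neg_add_cancel, Real.exp_zero, one_mul]
  have hUB : ∀ ε : ℝ, 0 < ε → Tendsto (fun t => Real.exp (D * ε) * (G ε t / τ ε t)) (𝓝[>] (0:ℝ))
      (𝓝 (Real.exp (D * ε) * (2 * AM P ε 0))) := fun ε hε => (hq ε hε).const_mul _
  have hLB : ∀ ε : ℝ, 0 < ε → Tendsto (fun t => Real.exp (-(D * ε)) * (G ε t / τ ε t))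
      (𝓝[>] (0:ℝ)) (𝓝 (Real.exp (-(D * ε)) * (2 * AM P ε 0))) := fun ε hε => (hq ε hε).const_mul _
  have hbdd : IsBoundedUnder (· ≤ ·) (𝓝[>] (0:ℝ)) Y :=
    (hUB 1 one_pos).isBoundedUnder_le.mono_le (hYup 1 one_pos le_rfl)
  have hbdd' : IsBoundedUnder (· ≥ ·) (𝓝[>] (0:ℝ)) Y :=
    isBoundedUnder_of_eventually_ge (a := 0) (by filter_upwards [hpos] with t ht using hYnn t ht)
  set L := limsup Y (𝓝[>] (0:ℝ)) with hL
  set l := liminf Y (𝓝[>] (0:ℝ)) with hl
  have hLle : ∀ ε : ℝ, 0 < ε → ε ≤ 1 → L ≤ Real.exp (D * ε) * (2 * AM P ε 0) := by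
    intro ε hε hε1
    rw [← (hUB ε hε).limsup_eq]
    exact limsup_le_limsup (hYup ε hε hε1) hbdd'.isCoboundedUnder_le
      (hUB ε hε).isBoundedUnder_le
  have hlge : ∀ ε : ℝ, 0 < ε → ε ≤ 1 → Real.exp (-(D * ε)) * (2 * AM P ε 0) ≤ l := by
    intro ε hε hε1
    rw [← (hLB ε hε).liminf_eq]
    exact liminf_le_liminf (hYlo ε hε hε1) (hLB ε hε).isBoundedUnder_ge
      hbdd.isCoboundedUnder_ge
  have hlL : l ≤ L := liminf_le_limsup hbdd hbdd'
  have hε01 : ∀ᶠ ε : ℝ in 𝓝[>] (0:ℝ), 0 < ε ∧ ε ≤ 1 := by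
    filter_upwards [Ioc_mem_nhdsGT (zero_lt_one (α := ℝ))] with ε hε using hε
  have hexp : ∀ s : ℝ, Tendsto (fun ε : ℝ => Real.exp (s * ε)) (𝓝[>] (0:ℝ)) (𝓝 1) := by
    intro s
    have h1 : Continuous (fun ε : ℝ => Real.exp (s * ε)) := by fun_prop
    have h2 := h1.tendsto 0
    simp only [mul_zero, Real.exp_zero] at h2
    exact h2.mono_left nhdsWithin_le_nhds
  have hLl : L ≤ l := by
    have h1 : Tendsto (fun ε : ℝ => Real.exp ((2 * D) * ε) * l) (𝓝[>] (0:ℝ)) (𝓝 (1 * l)) :=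
      (hexp (2 * D)).mul_const l
    rw [one_mul] at h1
    apply ge_of_tendsto h1
    filter_upwards [hε01] with ε hε
    have h2 := hLle ε hε.1 hε.2
    have h3 := mul_le_mul_of_nonneg_left (hlge ε hε.1 hε.2) (Real.exp_pos (2 * D * ε)).le
    rw [← mul_assoc, ← Real.exp_add] at h3
    have h4 : 2 * D * ε + -(D * ε) = D * ε := by ring
    rw [h4] at h3
    exact h2.trans h3
  have hEq : L = l := le_antisymm hLl hlL
  refine ⟨l / 2, ?_, ?_⟩
  · have h1 : Tendsto Y (𝓝[>] (0:ℝ)) (𝓝 l) :=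
      tendsto_of_liminf_eq_limsup rfl hEq hbdd hbdd'
    rw [mul_div_cancel₀ l two_ne_zero]
    exact h1
  · have h1 : Tendsto (fun ε : ℝ => Real.exp ((-D) * ε) * (l / 2)) (𝓝[>] (0:ℝ))
        (𝓝 (1 * (l / 2))) := (hexp (-D)).mul_const _
    have h2 : Tendsto (fun ε : ℝ => Real.exp (D * ε) * (l / 2)) (𝓝[>] (0:ℝ))
        (𝓝 (1 * (l / 2))) := (hexp D).mul_const _
    rw [one_mul] at h1 h2
    refine tendsto_of_tendsto_of_tendsto_of_le_of_le' h1 h2 ?_ ?_
    · filter_upwards [hε01] with ε hε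
      have h3 := hLle ε hε.1 hε.2
      rw [hEq] at h3
      have h4 := mul_le_mul_of_nonneg_left h3 (Real.exp_pos (-D * ε)).le
      rw [← mul_assoc, ← Real.exp_add] at h4
      have h5 : -D * ε + D * ε = 0 := by ring
      rw [h5, Real.exp_zero] at h4
      linarith
    · filter_upwards [hε01] with ε hε
      have h3 := hlge ε hε.1 hε.2
      have h4 := mul_le_mul_of_nonneg_left h3 (Real.exp_pos (D * ε)).le
      rw [← mul_assoc, ← Real.exp_add] at h4
      have h5 : D * ε + -(D * ε) = 0 := by ring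
      rw [h5, Real.exp_zero] at h4
      linarith

end Pool.Agent.Helper60.MV
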