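import Pool.Agent.Helper60.MV.B.Tent

/-!
MV-B5. Parity Riemann sum of the autocorrelation.

Proof. Let `g t d = corr ε (t d)`, `d ∈ ℤ`: zero unless `|t d| < 2ε`, so all sums are finite. For a function `g` on `ℤ` of finite
support, `∑_{δ : κ → ℤ, ∑δ even} Π_c g(δ_c) = 1/2 [(∑_d g d)^|κ| + (∑_d (-1)^d g d)^|κ|]` (as `1_{∑δ even} = (1 + Π(-1)^{δ_c})/2` and
`∑_δ Π = Π ∑`, `Finset.prod_univ_sum` on a large box). `t ∑_d corr ε (t d) -> ∫ corr ε = 1`: Riemann sum of a continuous function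
with compact support, and
`t ∑_d (-1)^d corr ε (t d) = 2 t ∑_m corr ε (2 t m) - t ∑_d corr ε (t d) -> 0`. As `κ` is nonempty the second power tends to 0.
-/

namespace Pool.Agent.Helper60.MV

open Finset MeasureTheory Filter Topology

/-- the sign of an integer -/
noncomputable def csgn (d : ℤ) : ℝ := if Even d then 1 else -1

theorem csgn_add (a b : ℤ) : csgn (a + b) = csgn a * csgn b := by
  unfold csgn
  by_cases ha : Even a <;> by_cases hb : Even b <;> simp [Int.even_add, ha, hb]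

theorem csgn_sum {κ : Type} (s : Finset κ) (δ : κ → ℤ) :
    csgn (∑ c ∈ s, δ c) = ∏ c ∈ s, csgn (δ c) := by
  classical
  induction s using Finset.induction_on with
  | empty => simp [csgn]
  | insert a s ha ih => rw [Finset.sum_insert ha, Finset.prod_insert ha, csgn_add, ih]

theorem corr_scaled_zero (ε : ℝ) (hε : 0 < ε) (t : ℝ) (ht : 0 < t) (d : ℤ)
    (hd : d ∉ Finset.Icc (-(⌈2 * ε / t⌉₊ : ℤ)) (⌈2 * ε / t⌉₊ : ℤ)) :
    corr ε (t * (d : ℝ)) = 0 := by
  refine corr_zero ε hε _ ?_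
  have hN : 2 * ε / t ≤ (⌈2 * ε / t⌉₊ : ℝ) := Nat.le_ceil _
  have hd' : (⌈2 * ε / t⌉₊ : ℤ) < |d| := by
    by_contra h
    push Not at h
    exact hd (Finset.mem_Icc.mpr (abs_le.mp h))
  have hd2 : (⌈2 * ε / t⌉₊ : ℝ) < |(d : ℝ)| := by exact_mod_cast hd'
  rw [abs_mul, abs_of_pos ht]
  have h3 : 2 * ε / t ≤ |(d : ℝ)| := hN.trans hd2.le
  rw [div_le_iff₀ ht] at h3
  linarith

/-- all these sums are finite -/
theorem corr_sum_finite {κ : Type} [Fintype κ] (ε : ℝ) (hε : 0 < ε) (t : ℝ) (ht : 0 < t) :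
    (Function.support (fun δ : κ → ℤ => ∏ c, corr ε (t * (δ c : ℝ)))).Finite := by
  classical
  refine Set.Finite.subset (Fintype.piFinset (fun _ : κ =>
    Finset.Icc (-(⌈2 * ε / t⌉₊ : ℤ)) (⌈2 * ε / t⌉₊ : ℤ))).finite_toSet ?_
  intro δ hδ
  rw [Function.mem_support, Finset.prod_ne_zero_iff] at hδ
  rw [Finset.mem_coe, Fintype.mem_piFinset]
  intro c
  by_contra hc
  exact hδ c (Finset.mem_univ _) (corr_scaled_zero ε hε t ht _ hc)

/-- one dimensional Riemann sum -/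
theorem corr_riemann (ε : ℝ) (hε : 0 < ε) :
    Tendsto (fun t : ℝ => t * ∑' d : ℤ, corr ε (t * (d : ℝ))) (𝓝[>] (0:ℝ)) (𝓝 1) := by
  have hcs : HasCompactSupport (corr ε) := by
    refine HasCompactSupport.intro (isCompact_Icc (a := -(2 * ε)) (b := 2 * ε)) (fun x hx => ?_)
    refine corr_zero ε hε x ?_
    by_contra h
    push Not at h
    exact hx ⟨(abs_lt.mp h).1.le, (abs_lt.mp h).2.le⟩
  have huc : UniformContinuous (corr ε) :=
    hcs.uniformContinuous_of_continuous (corr_continuous ε hε)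
  rw [Metric.tendsto_nhdsWithin_nhds]
  intro r hr
  set r' : ℝ := r / (2 * (4 * ε + 4)) with hr'
  have hr'pos : 0 < r' := by positivity
  obtain ⟨η, hη, hη2⟩ := Metric.uniformContinuous_iff.mp huc r' hr'pos
  refine ⟨min η 1, lt_min hη one_pos, fun {t} ht htd => ?_⟩
  have ht0 : (0:ℝ) < t := ht
  rw [Real.dist_eq, sub_zero, abs_of_pos ht0] at htd
  have htη : t < η := lt_of_lt_of_le htd (min_le_left _ _)
  have ht1 : t < 1 := lt_of_lt_of_le htd (min_le_right _ _)
  set N : ℕ := ⌈2 * ε / t⌉₊ with hNdef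
  have hN1 : 2 * ε / t ≤ (N : ℝ) := Nat.le_ceil _
  have hN2 : (N : ℝ) < 2 * ε / t + 1 := Nat.ceil_lt_add_one (by positivity)
  have hN1' : 2 * ε ≤ t * N := by
    rw [div_le_iff₀ ht0] at hN1
    linarith
  have hN2' : t * N < 2 * ε + t := by
    have := mul_lt_mul_of_pos_left hN2 ht0
    have h2 : t * (2 * ε / t + 1) = 2 * ε + t := by field_simp
    linarith
  -- the integral as a sum
  have hint : Integrable (fun x : ℝ => corr ε (t * x)) :=
    (corr_integrable ε hε).comp_mul_left' ht0.ne'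
  have hsum := hint.hasSum_intervalIntegral_comp_add_int
  have hI : ∫ x : ℝ, corr ε (t * x) = t⁻¹ := by
    rw [Measure.integral_comp_mul_left (corr ε) t, corr_integral ε hε, smul_eq_mul, mul_one,
      abs_of_pos (inv_pos.mpr ht0)]
  rw [hI] at hsum
  set S : Finset ℤ := Finset.Icc (-((N : ℤ) + 1)) (N : ℤ) with hS
  have hz : ∀ d : ℤ, d ∉ S → ∀ x : ℝ, 0 ≤ x → x ≤ 1 → corr ε (t * (x + (d : ℝ))) = 0 := by
    intro d hd x hx0 hx1
    refine corr_zero ε hε _ ?_
    rw [hS, Finset.mem_Icc, not_and_or] at hd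
    push Not at hd
    rw [abs_mul, abs_of_pos ht0]
    have hge : (N : ℝ) ≤ |x + (d : ℝ)| := by
      rcases hd with hd | hd
      · have : (d : ℝ) + 1 ≤ -((N : ℝ) + 1) := by exact_mod_cast hd
        rw [abs_of_nonpos (by linarith [Nat.cast_nonneg (α := ℝ) N])]
        linarith
      · have : (N : ℝ) + 1 ≤ (d : ℝ) := by exact_mod_cast hd
        rw [abs_of_nonneg (by linarith [Nat.cast_nonneg (α := ℝ) N])]
        linarith
    nlinarith
  have h1 : ∑ d ∈ S, (∫ x in (0 : ℝ)..(1 : ℝ), corr ε (t * (x + (d : ℝ)))) = t⁻¹ := by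
    rw [← hsum.tsum_eq]
    refine (tsum_eq_sum (fun d hd => ?_)).symm
    rw [intervalIntegral.integral_congr (g := fun _ => (0:ℝ)), intervalIntegral.integral_zero]
    intro x hx
    rw [Set.uIcc_of_le zero_le_one] at hx
    exact hz d hd x hx.1 hx.2
  have h2 : ∑' d : ℤ, corr ε (t * (d : ℝ)) = ∑ d ∈ S, corr ε (t * (d : ℝ)) := by
    refine tsum_eq_sum (fun d hd => ?_)
    have := hz d hd 0 le_rfl zero_le_one
    rwa [zero_add] at this
  have h3 : |∑ d ∈ S, corr ε (t * (d : ℝ)) - t⁻¹| ≤ S.card * r' := by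
    rw [← h1, ← Finset.sum_sub_distrib]
    refine (Finset.abs_sum_le_sum_abs _ _).trans ?_
    rw [← nsmul_eq_mul]
    refine Finset.sum_le_card_nsmul _ _ _ (fun d _ => ?_)
    have hc : corr ε (t * (d : ℝ)) = ∫ x in (0 : ℝ)..(1 : ℝ), corr ε (t * (d : ℝ)) := by
      rw [intervalIntegral.integral_const]
      simp
    have hcont : Continuous (fun x : ℝ => corr ε (t * (x + (d : ℝ)))) :=
      (corr_continuous ε hε).comp (by fun_prop)
    rw [hc, ← intervalIntegral.integral_sub (by simp) (hcont.intervalIntegrable _ _)]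
    have := intervalIntegral.norm_integral_le_of_norm_le_const (a := (0:ℝ)) (b := 1) (C := r')
      (f := fun x => corr ε (t * (d : ℝ)) - corr ε (t * (x + (d : ℝ)))) ?_
    · simpa using this
    · intro x hx
      rw [Set.uIoc_of_le zero_le_one] at hx
      have hd : dist (t * (d : ℝ)) (t * (x + (d : ℝ))) < η := by
        rw [Real.dist_eq]
        have : t * (d : ℝ) - t * (x + (d : ℝ)) = - (t * x) := by ring
        rw [this, abs_neg, abs_of_nonneg (mul_nonneg ht0.le hx.1.le)]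
        nlinarith [hx.2]
      have := hη2 hd
      rw [Real.dist_eq] at this
      exact this.le
  have hcard : (S.card : ℝ) = 2 * N + 2 := by
    rw [hS, Int.card_Icc]
    have : ((N : ℤ) + 1 - -((N : ℤ) + 1)).toNat = 2 * N + 2 := by omega
    rw [this]
    push_cast
    ring
  rw [Real.dist_eq, h2]
  have h4 : t * ∑ d ∈ S, corr ε (t * (d : ℝ)) - 1 = t * (∑ d ∈ S, corr ε (t * (d : ℝ)) - t⁻¹) := by
    rw [mul_sub, mul_inv_cancel₀ ht0.ne']
  rw [h4, abs_mul, abs_of_pos ht0]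
  calc t * |∑ d ∈ S, corr ε (t * (d : ℝ)) - t⁻¹| ≤ t * (S.card * r') :=
        mul_le_mul_of_nonneg_left h3 ht0.le
    _ = (2 * (t * N) + 2 * t) * r' := by rw [hcard]; ring
    _ ≤ (4 * ε + 4) * r' := by
        refine mul_le_mul_of_nonneg_right ?_ hr'pos.le
        linarith
    _ = r / 2 := by
        rw [hr']
        field_simp
    _ < r := by linarith

theorem corr_summable (ε : ℝ) (hε : 0 < ε) (t : ℝ) (ht : 0 < t) :
    Summable (fun d : ℤ => corr ε (t * (d : ℝ))) :=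
  summable_of_ne_finset_zero (s := Finset.Icc (-(⌈2 * ε / t⌉₊ : ℤ)) (⌈2 * ε / t⌉₊ : ℤ))
    (fun d hd => corr_scaled_zero ε hε t ht d hd)

/-- the alternating sum through two Riemann sums -/
theorem corr_alt (ε : ℝ) (hε : 0 < ε) (t : ℝ) (ht : 0 < t) :
    ∑' d : ℤ, csgn d * corr ε (t * (d : ℝ)) =
      2 * ∑' d : ℤ, corr ε (2 * t * (d : ℝ)) - ∑' d : ℤ, corr ε (t * (d : ℝ)) := by
  have hinj : Function.Injective (fun m : ℤ => 2 * m) := by
    intro a b h
    simpa using h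
  have h1 : ∑' d : ℤ, corr ε (2 * t * (d : ℝ)) =
      ∑' d : ℤ, (if Even d then corr ε (t * (d : ℝ)) else 0) := by
    have h := hinj.tsum_eq (f := fun d : ℤ => (if Even d then corr ε (t * (d : ℝ)) else 0)) ?_
    · rw [← h]
      refine tsum_congr (fun m => ?_)
      rw [if_pos (even_two_mul m)]
      push_cast
      ring_nf
    · intro d hd
      rw [Function.mem_support] at hd
      have he : Even d := by
        by_contra hne
        exact hd (if_neg hne)
      obtain ⟨m, hm⟩ := he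
      exact ⟨m, by simp only; omega⟩
  have hs2 : Summable (fun d : ℤ => (if Even d then corr ε (t * (d : ℝ)) else 0)) := by
    refine Summable.of_nonneg_of_le (fun d => ?_) (fun d => ?_) (corr_summable ε hε t ht)
    · split_ifs
      · exact corr_nonneg ε hε _
      · exact le_rfl
    · split_ifs
      · exact le_rfl
      · exact corr_nonneg ε hε _
  rw [h1, ← tsum_mul_left, ← (hs2.mul_left 2).tsum_sub (corr_summable ε hε t ht)]
  refine tsum_congr (fun d => ?_)
  unfold csgn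
  split_ifs <;> ring

theorem corr_parity_split {κ : Type} [Fintype κ] (ε : ℝ) (hε : 0 < ε) (t : ℝ) (ht : 0 < t) :
    (∑' δ : κ → ℤ, (if Even (∑ c, δ c) then ∏ c, corr ε (t * (δ c : ℝ)) else 0)) =
      1 / 2 * ((∑' d : ℤ, corr ε (t * (d : ℝ))) ^ (Fintype.card κ) +
        (∑' d : ℤ, csgn d * corr ε (t * (d : ℝ))) ^ (Fintype.card κ)) := by
  classical
  set I : Finset ℤ := Finset.Icc (-(⌈2 * ε / t⌉₊ : ℤ)) (⌈2 * ε / t⌉₊ : ℤ) with hI
  have hz : ∀ d : ℤ, d ∉ I → corr ε (t * (d : ℝ)) = 0 :=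
    fun d hd => corr_scaled_zero ε hε t ht d hd
  have h1 : ∑' d : ℤ, corr ε (t * (d : ℝ)) = ∑ d ∈ I, corr ε (t * (d : ℝ)) :=
    tsum_eq_sum hz
  have h2 : ∑' d : ℤ, csgn d * corr ε (t * (d : ℝ)) = ∑ d ∈ I, csgn d * corr ε (t * (d : ℝ)) :=
    tsum_eq_sum (fun d hd => by rw [hz d hd, mul_zero])
  have h3 : (∑' δ : κ → ℤ, (if Even (∑ c, δ c) then ∏ c, corr ε (t * (δ c : ℝ)) else 0)) =
      ∑ δ ∈ Fintype.piFinset (fun _ : κ => I),
        (if Even (∑ c, δ c) then ∏ c, corr ε (t * (δ c : ℝ)) else 0) := by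
    refine tsum_eq_sum (fun δ hδ => ?_)
    rw [Fintype.mem_piFinset] at hδ
    push Not at hδ
    obtain ⟨c, hc⟩ := hδ
    split_ifs
    · exact Finset.prod_eq_zero (Finset.mem_univ c) (hz _ hc)
    · rfl
  rw [h1, h2, h3]
  have h4 : (∑ d ∈ I, corr ε (t * (d : ℝ))) ^ (Fintype.card κ) =
      ∑ δ ∈ Fintype.piFinset (fun _ : κ => I), ∏ c, corr ε (t * (δ c : ℝ)) := by
    have h := Finset.prod_univ_sum (fun _ : κ => I) (fun _ d => corr ε (t * (d : ℝ)))
    rw [Finset.prod_const, Finset.card_univ] at h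
    exact h
  have h5 : (∑ d ∈ I, csgn d * corr ε (t * (d : ℝ))) ^ (Fintype.card κ) =
      ∑ δ ∈ Fintype.piFinset (fun _ : κ => I), ∏ c, (csgn (δ c) * corr ε (t * (δ c : ℝ))) := by
    have h := Finset.prod_univ_sum (fun _ : κ => I) (fun _ d => csgn d * corr ε (t * (d : ℝ)))
    rw [Finset.prod_const, Finset.card_univ] at h
    exact h
  rw [h4, h5, ← Finset.sum_add_distrib, Finset.mul_sum]
  refine Finset.sum_congr rfl (fun δ _ => ?_)
  rw [Finset.prod_mul_distrib, ← csgn_sum]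
  unfold csgn
  split_ifs <;> ring

theorem corr_parity_sum {κ : Type} [Fintype κ] [Nonempty κ] (ε : ℝ) (hε : 0 < ε) :
    Tendsto (fun t : ℝ => t ^ (Fintype.card κ) *
      ∑' δ : κ → ℤ, (if Even (∑ c, δ c) then ∏ c, corr ε (t * (δ c : ℝ)) else 0))
      (𝓝[>] (0:ℝ)) (𝓝 (1 / 2)) := by
  have hR := corr_riemann ε hε
  have h2t : Tendsto (fun t : ℝ => 2 * t) (𝓝[>] (0:ℝ)) (𝓝[>] (0:ℝ)) := by
    refine tendsto_nhdsWithin_iff.mpr ⟨?_, ?_⟩
    · have : Tendsto (fun t : ℝ => 2 * t) (𝓝 (0:ℝ)) (𝓝 (2 * 0)) := by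
        exact tendsto_id.const_mul 2
      rw [mul_zero] at this
      exact this.mono_left nhdsWithin_le_nhds
    · filter_upwards [self_mem_nhdsWithin] with t ht
      have : (0:ℝ) < t := ht
      exact (by positivity : (0:ℝ) < 2 * t)
  have hR2 := hR.comp h2t
  have hA : Tendsto (fun t : ℝ => t * ∑' d : ℤ, csgn d * corr ε (t * (d : ℝ)))
      (𝓝[>] (0:ℝ)) (𝓝 0) := by
    have h := hR2.sub hR
    rw [sub_self] at h
    refine h.congr' ?_
    filter_upwards [self_mem_nhdsWithin] with t ht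
    have ht0 : (0:ℝ) < t := ht
    simp only [Function.comp]
    rw [corr_alt ε hε t ht0]
    ring
  have hlim : Tendsto (fun t : ℝ => 1 / 2 * ((t * ∑' d : ℤ, corr ε (t * (d : ℝ))) ^
      (Fintype.card κ) + (t * ∑' d : ℤ, csgn d * corr ε (t * (d : ℝ))) ^ (Fintype.card κ)))
      (𝓝[>] (0:ℝ)) (𝓝 (1 / 2 * (1 ^ (Fintype.card κ) + 0 ^ (Fintype.card κ)))) :=
    ((hR.pow _).add (hA.pow _)).const_mul _
  rw [one_pow, zero_pow Fintype.card_ne_zero, add_zero, mul_one] at hlim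
  refine hlim.congr' ?_
  filter_upwards [self_mem_nhdsWithin] with t ht
  rw [corr_parity_split ε hε t ht, mul_pow, mul_pow]
  ring

end Pool.Agent.Helper60.MV
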