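import Pool.Agent.Helper60.MV.B.Phi
import Pool.Agent.Helper60.MV.B.Riemann

/-!
MV-B6. Comparison of the lattice sums `St P t δ` for different small `δ`.

Notation: for `l : ι → ℕ+`, `(B l)_c = p_{c,false}(l) - p_{c,true}(l)`; `St P t δ = ∑'_{l, B l = δ} Π_c phi(t p_{c,false}(l))`.
Proof of `st_compare`. (1) There is `C0` such that each `δ : κ → ℤ` with even sum is `B z` with `|z_e| <= C0 * D`,
`D = max |δ_c|`: fix `c0`; by `im`, `1_c - 1_{c0} = (1_c + 1_{c0}) - 2·1_{c0}` and `2·1_{c0}` are in the image of the integer matrix `B`, and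
`δ = ∑_c δ_c (1_c - 1_{c0}) + (∑δ / 2) · 2·1_{c0}`. (2) `u` positive with `B u = 0`. The map `l ↦ l + z + n u`, `n = ⌈C0 D⌉` (natural
number with `n >= |z_e|`), is injective from `{l >= 1, B l = 0}` to `{l >= 1, B l = δ}` and `p_{c,false}` grows by `p_{c,false}(z + n u)`,
between `0` and `C1 D`. Since `phi(t(p+a)) >= e^{-t a} phi(t p)` and `t D <= 2ε` (if `D>0`), each term changes by at least `e^{-2 C1 ε}` per
cylinder. (3) Backwards use `l ↦ l - z + n u`. Compare the sums with `tsum_le_tsum_of_inj`-like lemmas (nonnegative summable).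
Summability: `phi(t p) <= e^{-t p/2}`, and for `B l = δ`: `∑_c p_{c,false}(l) = (∑_c p_{c,false}+p_{c,true} + ∑δ)/2 = ∑_e l_e + ∑δ/2`
(column sums 2), so terms are `<= const · e^{-t ∑ l_e /2}`.
`St P t δ = 0` for odd `∑ δ`: `∑_c (p_{c,false} + p_{c,true}) = 2 ∑ l_e`.
`st_zero`: for `B l = 0` all `p_{c,false}(l) > 0`?? If `p_{c,false}(l) = p_{c,true}(l) = 0` for some `c` both rows of `c` are zero; the
hypothesis `im` (with `c' = c`) excludes this. Then `phi(t p) = t p/(e^{t p}-1)`, so `St P t 0 = t^|κ| SM P t`.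
-/

namespace Pool.Agent.Helper60.MV

open Finset MeasureTheory Filter Topology

/-- the term of the sum `St P t δ` -/
private noncomputable def tm {ι κ : Type} [Fintype ι] [Fintype κ] (P : κ → Bool → ι → ℕ) (t : ℝ)
    (δ : κ → ℤ) (l : ι → ℕ+) : ℝ := by
  classical
  exact if ∀ c, (pN P c false (fun e => (l e : ℕ)) : ℤ) - (pN P c true (fun e => (l e : ℕ)) : ℤ)
    = δ c then ∏ c : κ, phi (t * (pN P c false (fun e => (l e : ℕ)) : ℝ)) else 0

private theorem st_eq {ι κ : Type} [Fintype ι] [Fintype κ] (P : κ → Bool → ι → ℕ) (t : ℝ)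
    (δ : κ → ℤ) : St P t δ = ∑' l : ι → ℕ+, tm P t δ l := rfl

private theorem tm_nonneg {ι κ : Type} [Fintype ι] [Fintype κ] (P : κ → Bool → ι → ℕ) (t : ℝ)
    (δ : κ → ℤ) (l : ι → ℕ+) : 0 ≤ tm P t δ l := by
  classical
  unfold tm
  split_ifs with h
  · exact Finset.prod_nonneg (fun c _ => (phi_pos _).le)
  · exact le_rfl

private theorem tm_pos {ι κ : Type} [Fintype ι] [Fintype κ] (P : κ → Bool → ι → ℕ) (t : ℝ)
    (δ : κ → ℤ) (l : ι → ℕ+)
    (h : ∀ c, (pN P c false (fun e => (l e : ℕ)) : ℤ) - (pN P c true (fun e => (l e : ℕ)) : ℤ)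
      = δ c) :
    tm P t δ l = ∏ c : κ, phi (t * (pN P c false (fun e => (l e : ℕ)) : ℝ)) := by
  classical
  unfold tm
  rw [if_pos h]

private theorem tm_neg {ι κ : Type} [Fintype ι] [Fintype κ] (P : κ → Bool → ι → ℕ) (t : ℝ)
    (δ : κ → ℤ) (l : ι → ℕ+)
    (h : ¬ ∀ c, (pN P c false (fun e => (l e : ℕ)) : ℤ) - (pN P c true (fun e => (l e : ℕ)) : ℤ)
      = δ c) :
    tm P t δ l = 0 := by
  classical
  unfold tm
  rw [if_neg h]

private theorem col_sum {ι κ : Type} [Fintype ι] [Fintype κ] (P : κ → Bool → ι → ℕ) (hP : Adm P)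
    (l : ι → ℕ) : ∑ c, (pN P c false l + pN P c true l) = 2 * ∑ e, l e := by
  unfold pN
  calc ∑ c, (∑ e, P c false e * l e + ∑ e, P c true e * l e)
      = ∑ c, ∑ e, (P c false e + P c true e) * l e := by
        refine Finset.sum_congr rfl fun c _ => ?_
        rw [← Finset.sum_add_distrib]
        refine Finset.sum_congr rfl fun e _ => by ring
    _ = ∑ e, ∑ c, (P c false e + P c true e) * l e := Finset.sum_comm
    _ = ∑ e, 2 * l e := by
        refine Finset.sum_congr rfl fun e _ => ?_
        rw [← Finset.sum_mul, hP.col e]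
    _ = 2 * ∑ e, l e := by rw [Finset.mul_sum]

private theorem exp_summable {ι : Type} [Fintype ι] (c : ℝ) (hc : 0 < c) :
    Summable (fun l : ι → ℕ+ => Real.exp (-(c * ∑ e, ((l e : ℕ) : ℝ)))) := by
  have h := lattice_summable (ι := ι) (fun x => Real.exp (-(c * ∑ e, x e))) 1 c hc
    (fun x _ => by rw [abs_of_pos (Real.exp_pos _), one_mul]) 1 one_pos
  simpa using h

private theorem pN_add {ι κ : Type} [Fintype ι] (P : κ → Bool → ι → ℕ) (c : κ) (b : Bool)
    (l w : ι → ℕ) : pN P c b (fun e => l e + w e) = pN P c b l + pN P c b w := by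
  unfold pN
  rw [← Finset.sum_add_distrib]
  refine Finset.sum_congr rfl fun e _ => by ring

theorem st_summable {ι κ : Type} [Fintype ι] [Fintype κ] (P : κ → Bool → ι → ℕ) (hP : Adm P)
    (t : ℝ) (ht : 0 < t) (δ : κ → ℤ) :
    Summable (fun l : ι → ℕ+ => (by
      classical
      exact if ∀ c, (pN P c false (fun e => (l e : ℕ)) : ℤ) - (pN P c true (fun e => (l e : ℕ)) : ℤ)
        = δ c then ∏ c : κ, phi (t * (pN P c false (fun e => (l e : ℕ)) : ℝ)) else 0 : ℝ)) := by
  change Summable (tm P t δ)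
  have hs := (exp_summable (ι := ι) (t / 2) (by positivity)).mul_left
    (Real.exp (-(t * (∑ c, (δ c : ℝ)) / 4)))
  refine Summable.of_nonneg_of_le (tm_nonneg P t δ) (fun l => ?_) hs
  by_cases h : ∀ c, (pN P c false (fun e => (l e : ℕ)) : ℤ) -
      (pN P c true (fun e => (l e : ℕ)) : ℤ) = δ c
  · rw [tm_pos P t δ l h]
    have h1 : ∏ c : κ, phi (t * (pN P c false (fun e => (l e : ℕ)) : ℝ)) ≤
        ∏ c : κ, Real.exp (-((t * (pN P c false (fun e => (l e : ℕ)) : ℝ)) / 2)) :=
      Finset.prod_le_prod (fun c _ => (phi_pos _).le) (fun c _ => phi_le_exp _)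
    refine h1.trans ?_
    rw [← Real.exp_sum, ← Real.exp_add]
    apply le_of_eq
    congr 1
    have h2 : ∑ c, ((pN P c false (fun e => (l e : ℕ)) : ℝ) -
        (pN P c true (fun e => (l e : ℕ)) : ℝ)) = ∑ c, (δ c : ℝ) := by
      refine Finset.sum_congr rfl fun c _ => ?_
      have := h c
      exact_mod_cast this
    have h3 : ∑ c, ((pN P c false (fun e => (l e : ℕ)) : ℝ) +
        (pN P c true (fun e => (l e : ℕ)) : ℝ)) = 2 * ∑ e, ((l e : ℕ) : ℝ) := by
      have := col_sum P hP (fun e => (l e : ℕ))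
      exact_mod_cast this
    rw [Finset.sum_sub_distrib] at h2
    rw [Finset.sum_add_distrib] at h3
    rw [Finset.sum_neg_distrib, ← Finset.sum_div, ← Finset.mul_sum]
    linear_combination (-t / 4) * h2 - (t / 4) * h3
  · rw [tm_neg P t δ l h]
    positivity

theorem st_odd {ι κ : Type} [Fintype ι] [Fintype κ] (P : κ → Bool → ι → ℕ) (hP : Adm P)
    (t : ℝ) (δ : κ → ℤ) (hδ : ¬ Even (∑ c, δ c)) : St P t δ = 0 := by
  rw [st_eq]
  have hz : ∀ l : ι → ℕ+, tm P t δ l = 0 := by
    intro l
    apply tm_neg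
    intro h
    apply hδ
    have h2 : ∑ c, ((pN P c false (fun e => (l e : ℕ)) : ℤ) -
        (pN P c true (fun e => (l e : ℕ)) : ℤ)) = ∑ c, δ c :=
      Finset.sum_congr rfl fun c _ => h c
    have h3 : ∑ c, ((pN P c false (fun e => (l e : ℕ)) : ℤ) +
        (pN P c true (fun e => (l e : ℕ)) : ℤ)) = 2 * ∑ e, ((l e : ℕ) : ℤ) := by
      have := col_sum P hP (fun e => (l e : ℕ))
      exact_mod_cast this
    rw [Finset.sum_sub_distrib] at h2
    rw [Finset.sum_add_distrib] at h3
    refine ⟨∑ e, ((l e : ℕ) : ℤ) - ∑ c, (pN P c true (fun e => (l e : ℕ)) : ℤ), ?_⟩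
    linarith
  simp only [hz, tsum_zero]

theorem st_zero {ι κ : Type} [Fintype ι] [Fintype κ] (P : κ → Bool → ι → ℕ) (hP : Adm P)
    (t : ℝ) (ht : 0 < t) : St P t 0 = t ^ (Fintype.card κ) * SM P t := by
  rw [st_eq]
  unfold SM
  rw [← tsum_mul_left]
  refine tsum_congr fun l => ?_
  by_cases h : ∀ c, (pN P c false (fun e => (l e : ℕ)) : ℤ) -
      (pN P c true (fun e => (l e : ℕ)) : ℤ) = (0 : κ → ℤ) c
  · rw [tm_pos P t 0 l h]
    have h' : ∀ c, ∑ e, P c false e * (l e : ℕ) = ∑ e, P c true e * (l e : ℕ) := by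
      intro c
      have h1 := h c
      simp only [Pi.zero_apply] at h1
      have h2 : (pN P c false (fun e => (l e : ℕ)) : ℤ) = pN P c true (fun e => (l e : ℕ)) := by
        linarith
      have h3 : pN P c false (fun e => (l e : ℕ)) = pN P c true (fun e => (l e : ℕ)) := by
        exact_mod_cast h2
      exact h3
    rw [if_pos h', ← Finset.card_univ, ← Finset.prod_const, ← Finset.prod_mul_distrib]
    refine Finset.prod_congr rfl fun c _ => ?_
    have hpos : 0 < pN P c false (fun e => (l e : ℕ)) := by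
      by_contra hcon
      have h0 : pN P c false (fun e => (l e : ℕ)) = 0 := by omega
      have h0' : ∑ e, P c false e * (l e : ℕ) = 0 := h0
      have h1' : ∑ e, P c true e * (l e : ℕ) = 0 := by rw [← h' c]; exact h0'
      obtain ⟨z, hz⟩ := hP.im c c
      have hzc := hz c
      have hrow : ∀ e, ((P c false e : ℤ) - P c true e) * z e = 0 := by
        intro e
        have he1 : P c false e * (l e : ℕ) = 0 := by
          have := (Finset.sum_eq_zero_iff.mp h0') e (Finset.mem_univ e)
          exact this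
        have he2 : P c true e * (l e : ℕ) = 0 := by
          have := (Finset.sum_eq_zero_iff.mp h1') e (Finset.mem_univ e)
          exact this
        have hl : (l e : ℕ) ≠ 0 := (l e).pos.ne'
        have e1 : P c false e = 0 := by
          rcases Nat.mul_eq_zero.mp he1 with h | h
          · exact h
          · exact absurd h hl
        have e2 : P c true e = 0 := by
          rcases Nat.mul_eq_zero.mp he2 with h | h
          · exact h
          · exact absurd h hl
        rw [e1, e2]
        simp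
      rw [Finset.sum_eq_zero (fun e _ => hrow e)] at hzc
      simp at hzc
    have hne : t * (pN P c false (fun e => (l e : ℕ)) : ℝ) ≠ 0 := by
      have : (0 : ℝ) < (pN P c false (fun e => (l e : ℕ)) : ℝ) := by exact_mod_cast hpos
      positivity
    unfold phi
    rw [if_neg hne]
    change t * (pN P c false (fun e => (l e : ℕ)) : ℝ) /
      (Real.exp (t * (pN P c false (fun e => (l e : ℕ)) : ℝ)) - 1) =
      t * ((pN P c false (fun e => (l e : ℕ)) : ℝ) /
      (Real.exp (t * (pN P c false (fun e => (l e : ℕ)) : ℝ)) - 1))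
    rw [mul_div_assoc]
  · rw [tm_neg P t 0 l h]
    have h' : ¬ ∀ c, ∑ e, P c false e * (l e : ℕ) = ∑ e, P c true e * (l e : ℕ) := by
      intro h2
      apply h
      intro c
      have h3 : pN P c false (fun e => (l e : ℕ)) = pN P c true (fun e => (l e : ℕ)) := h2 c
      rw [h3]
      simp
    rw [if_neg h', mul_zero]

/-- comparison along the injection `l ↦ l + w` -/
private theorem st_shift {ι κ : Type} [Fintype ι] [Fintype κ] (P : κ → Bool → ι → ℕ) (hP : Adm P)
    (t : ℝ) (ht : 0 < t) (w : ι → ℕ) (δ δ' : κ → ℤ)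
    (hw : ∀ c, δ' c = δ c + ((pN P c false w : ℤ) - (pN P c true w : ℤ))) :
    Real.exp (-(t * ∑ c, (pN P c false w : ℝ))) * St P t δ ≤ St P t δ' := by
  have hs : Summable (tm P t δ) := st_summable P hP t ht δ
  have hs' : Summable (tm P t δ') := st_summable P hP t ht δ'
  rw [st_eq, st_eq, ← tsum_mul_left]
  let f : (ι → ℕ+) → (ι → ℕ+) := fun l e =>
    ⟨(l e : ℕ) + w e, Nat.lt_of_lt_of_le (l e).pos (Nat.le_add_right _ _)⟩
  have hf : Function.Injective f := by
    intro l l' h
    funext e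
    have h1 := congrFun h e
    have h2 : (l e : ℕ) + w e = (l' e : ℕ) + w e := congrArg PNat.val h1
    exact PNat.eq (by omega)
  have hfe : ∀ l : ι → ℕ+, (fun e => ((f l e : ℕ+) : ℕ)) = fun e => (l e : ℕ) + w e :=
    fun l => rfl
  refine Summable.tsum_le_tsum_of_inj f hf (fun l _ => tm_nonneg P t δ' l) (fun l => ?_)
    (hs.mul_left _) hs'
  by_cases h : ∀ c, (pN P c false (fun e => (l e : ℕ)) : ℤ) -
      (pN P c true (fun e => (l e : ℕ)) : ℤ) = δ c
  · have h' : ∀ c, (pN P c false (fun e => (f l e : ℕ)) : ℤ) -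
        (pN P c true (fun e => (f l e : ℕ)) : ℤ) = δ' c := by
      intro c
      rw [hfe l, pN_add, pN_add, hw c, ← h c]
      push_cast
      ring
    rw [tm_pos P t δ l h, tm_pos P t δ' (f l) h', Finset.mul_sum, ← Finset.sum_neg_distrib,
      Real.exp_sum, ← Finset.prod_mul_distrib]
    refine Finset.prod_le_prod (fun c _ => mul_nonneg (Real.exp_pos _).le (phi_pos _).le)
      (fun c _ => ?_)
    rw [hfe l, pN_add]
    push_cast
    rw [mul_add]
    exact phi_shift _ _ (by positivity)
  · rw [tm_neg P t δ l h, mul_zero]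
    exact tm_nonneg P t δ' (f l)

theorem st_compare {ι κ : Type} [Fintype ι] [Fintype κ] (P : κ → Bool → ι → ℕ) (hP : Adm P) :
    ∃ C : ℝ, 0 < C ∧ ∀ (ε t : ℝ) (_ : 0 < ε) (_ : ε ≤ 1) (_ : 0 < t) (δ : κ → ℤ)
      (_ : Even (∑ c, δ c)) (_ : ∀ c, |t * (δ c : ℝ)| ≤ 2 * ε),
      Real.exp (-(C * ε)) * St P t 0 ≤ St P t δ ∧ Real.exp (-(C * ε)) * St P t δ ≤ St P t 0 := by
  classical
  rcases isEmpty_or_nonempty κ with hκ | hκ
  · refine ⟨1, one_pos, fun ε t hε hε1 ht δ hδ hb => ?_⟩
    have h0 : δ = 0 := Subsingleton.elim _ _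
    have hn : 0 ≤ St P t 0 := by
      rw [st_eq]
      exact tsum_nonneg (tm_nonneg P t 0)
    have he : Real.exp (-(1 * ε)) ≤ 1 := Real.exp_le_one_iff.mpr (by linarith)
    rw [h0]
    exact ⟨mul_le_of_le_one_left hn he, mul_le_of_le_one_left hn he⟩
  obtain ⟨c0⟩ := hκ
  choose Z hZ using fun c => hP.im c c0
  obtain ⟨u, hu, hu'⟩ := hP.good
  obtain ⟨M, hM⟩ : ∃ M : ℕ, ∀ c e, (Z c e).natAbs ≤ M := by
    refine ⟨∑ c, ∑ e, (Z c e).natAbs, fun c e => ?_⟩
    calc (Z c e).natAbs ≤ ∑ e, (Z c e).natAbs :=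
          Finset.single_le_sum (f := fun e => (Z c e).natAbs) (fun _ _ => Nat.zero_le _)
            (Finset.mem_univ e)
      _ ≤ ∑ c, ∑ e, (Z c e).natAbs :=
          Finset.single_le_sum (f := fun c => ∑ e, (Z c e).natAbs) (fun _ _ => Nat.zero_le _)
            (Finset.mem_univ c)
  set U : ℕ := ∑ e, (1 + u e) with hU
  refine ⟨8 * U * M * Fintype.card κ + 1, by positivity, fun ε t hε hε1 ht δ hδ hb => ?_⟩
  obtain ⟨k, hk⟩ := hδ
  set N : ℕ := ∑ c, (δ c).natAbs with hN
  -- the integer vector `z` with `B z = δ`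
  set z : ι → ℤ := fun e => ∑ c, δ c * Z c e - k * Z c0 e with hzdef
  set n : ℕ := 2 * M * N with hn
  have hNle : ∀ e, |∑ c, δ c * Z c e| ≤ (M * N : ℕ) := by
    intro e
    refine (Finset.abs_sum_le_sum_abs _ _).trans ?_
    rw [hN, Nat.cast_mul, Nat.cast_sum, Finset.mul_sum]
    refine Finset.sum_le_sum fun c _ => ?_
    rw [abs_mul, mul_comm]
    refine mul_le_mul ?_ (by rw [Int.natCast_natAbs]) (abs_nonneg _) (by positivity)
    rw [← Int.natCast_natAbs]
    exact_mod_cast hM c e
  have hkN : |k| ≤ N := by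
    have h1 : |∑ c, δ c| ≤ (N : ℤ) := by
      refine (Finset.abs_sum_le_sum_abs _ _).trans ?_
      rw [hN, Nat.cast_sum]
      refine Finset.sum_le_sum fun c _ => by rw [Int.natCast_natAbs]
    rw [hk] at h1
    have h2 : |k| ≤ |k + k| := by
      rw [← two_mul, abs_mul]
      have := abs_nonneg k
      norm_num
      linarith
    exact h2.trans h1
  have hzabs : ∀ e, |z e| ≤ (n : ℤ) := by
    intro e
    have h1 : |z e| ≤ |∑ c, δ c * Z c e| + |k * Z c0 e| := abs_sub _ _
    have h2 : |k * Z c0 e| ≤ (M * N : ℕ) := by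
      rw [abs_mul, Nat.cast_mul, mul_comm]
      refine mul_le_mul ?_ hkN (abs_nonneg _) (by positivity)
      rw [← Int.natCast_natAbs]
      exact_mod_cast hM c0 e
    have h3 := hNle e
    have h4 : (n : ℤ) = (M * N : ℕ) + (M * N : ℕ) := by
      rw [hn]
      push_cast
      ring
    rw [h4]
    linarith
  have hBz : ∀ c, ∑ e, ((P c false e : ℤ) - P c true e) * z e = δ c := by
    intro c
    have h1 : ∑ e, ((P c false e : ℤ) - P c true e) * z e
        = ∑ c', δ c' * (∑ e, ((P c false e : ℤ) - P c true e) * Z c' e)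
          - k * ∑ e, ((P c false e : ℤ) - P c true e) * Z c0 e := by
      rw [hzdef]
      simp only [mul_sub, Finset.mul_sum, Finset.sum_sub_distrib]
      congr 1
      · rw [Finset.sum_comm]
        refine Finset.sum_congr rfl fun c' _ => Finset.sum_congr rfl fun e _ => by ring
      · refine Finset.sum_congr rfl fun e _ => by ring
    rw [h1]
    have h2 : ∀ c', ∑ e, ((P c false e : ℤ) - P c true e) * Z c' e
        = (if c = c' then 1 else 0) + (if c = c0 then 1 else 0) := by
      intro c'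
      rw [hZ c' c]
    simp only [h2, mul_add, Finset.sum_add_distrib, ← Finset.sum_mul, hk]
    simp only [mul_ite, mul_one, mul_zero, Finset.sum_ite_eq, Finset.mem_univ, if_true]
    split_ifs <;> ring
  have hBu : ∀ c, ∑ e, ((P c false e : ℤ) - P c true e) * (u e : ℤ) = 0 := by
    intro c
    simp only [sub_mul, Finset.sum_sub_distrib]
    have := hu' c
    have h2 : ∑ e, (P c false e : ℤ) * (u e : ℤ) = ∑ e, (P c true e : ℤ) * (u e : ℤ) := by
      exact_mod_cast this
    rw [h2, sub_self]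
  have hpN : ∀ (w : ι → ℕ) (c : κ), (pN P c false w : ℤ) - (pN P c true w : ℤ)
      = ∑ e, ((P c false e : ℤ) - P c true e) * (w e : ℤ) := by
    intro w c
    unfold pN
    push_cast
    simp only [sub_mul, Finset.sum_sub_distrib]
  have hNR : t * (N : ℝ) ≤ 2 * ε * Fintype.card κ := by
    rw [hN]
    push_cast
    rw [Finset.mul_sum]
    calc ∑ c, t * (((δ c).natAbs : ℕ) : ℝ) ≤ ∑ c : κ, 2 * ε := by
          refine Finset.sum_le_sum fun c _ => ?_
          have h1 := hb c
          rw [abs_mul, abs_of_pos ht] at h1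
          have h2 : (((δ c).natAbs : ℕ) : ℝ) = |(δ c : ℝ)| := by
            rw [Nat.cast_natAbs, Int.cast_abs]
          rw [h2]
          exact h1
      _ = 2 * ε * Fintype.card κ := by
          rw [Finset.sum_const, Finset.card_univ, nsmul_eq_mul]
          ring
  -- the general estimate for `w = ± z + n u`
  have key : ∀ (s : ι → ℤ), (∀ e, |s e| ≤ (n : ℤ)) →
      ∃ w : ι → ℕ, (∀ e, (w e : ℤ) = s e + n * u e) ∧
        t * ∑ c, (pN P c false w : ℝ) ≤ (8 * U * M * Fintype.card κ + 1) * ε := by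
    intro s hs
    refine ⟨fun e => (s e + n * u e).toNat, ?_, ?_⟩
    · intro e
      have h1 := hs e
      have h2 := (abs_le.mp h1).1
      have h3 : (n : ℤ) ≤ n * u e := by
        have : (1 : ℤ) ≤ u e := by exact_mod_cast hu e
        nlinarith [Int.natCast_nonneg n]
      rw [Int.toNat_of_nonneg (by linarith)]
    · set w : ι → ℕ := fun e => (s e + n * u e).toNat with hw
      have h1 : ∀ e, w e ≤ n * (1 + u e) := by
        intro e
        have h2 := (abs_le.mp (hs e)).2
        rw [hw]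
        simp only
        rw [Int.toNat_le]
        push_cast
        linarith
      have h2 : ∑ c, pN P c false w ≤ 2 * (n * U) := by
        calc ∑ c, pN P c false w ≤ ∑ c, (pN P c false w + pN P c true w) :=
              Finset.sum_le_sum fun c _ => Nat.le_add_right _ _
          _ = 2 * ∑ e, w e := col_sum P hP w
          _ ≤ 2 * (n * U) := by
              have h5 : ∑ e, w e ≤ n * U := by
                rw [hU, Finset.mul_sum]
                exact Finset.sum_le_sum fun e _ => h1 e
              exact Nat.mul_le_mul_left 2 h5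
      have h3 : ∑ c, (pN P c false w : ℝ) ≤ 2 * (n * U) := by exact_mod_cast h2
      calc t * ∑ c, (pN P c false w : ℝ) ≤ t * (2 * (n * U)) :=
            mul_le_mul_of_nonneg_left h3 ht.le
        _ = 4 * U * M * (t * N) := by
            rw [hn]
            push_cast
            ring
        _ ≤ 4 * U * M * (2 * ε * Fintype.card κ) :=
            mul_le_mul_of_nonneg_left hNR (by positivity)
        _ ≤ (8 * U * M * Fintype.card κ + 1) * ε := by
            nlinarith
  have hSt0 : ∀ δ : κ → ℤ, 0 ≤ St P t δ := by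
    intro δ
    rw [st_eq]
    exact tsum_nonneg (tm_nonneg P t δ)
  constructor
  · obtain ⟨w, hw1, hw2⟩ := key z hzabs
    have h1 := st_shift P hP t ht w 0 δ (fun c => by
      rw [hpN w c]
      simp only [hw1, mul_add, Finset.sum_add_distrib, hBz]
      have h4 : ∑ e, ((P c false e : ℤ) - P c true e) * ((n : ℤ) * (u e : ℤ)) = 0 := by
        calc ∑ e, ((P c false e : ℤ) - P c true e) * ((n : ℤ) * (u e : ℤ))
            = n * ∑ e, ((P c false e : ℤ) - P c true e) * (u e : ℤ) := by
              rw [Finset.mul_sum]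
              refine Finset.sum_congr rfl fun e _ => by ring
          _ = 0 := by rw [hBu c, mul_zero]
      rw [h4]
      simp)
    refine le_trans (mul_le_mul_of_nonneg_right ?_ (hSt0 0)) h1
    exact Real.exp_le_exp.mpr (neg_le_neg hw2)
  · obtain ⟨w, hw1, hw2⟩ := key (fun e => - z e) (fun e => by rw [abs_neg]; exact hzabs e)
    have h1 := st_shift P hP t ht w δ 0 (fun c => by
      rw [hpN w c]
      simp only [hw1, mul_add, Finset.sum_add_distrib, mul_neg, Finset.sum_neg_distrib, hBz]
      have h4 : ∑ e, ((P c false e : ℤ) - P c true e) * ((n : ℤ) * (u e : ℤ)) = 0 := by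
        calc ∑ e, ((P c false e : ℤ) - P c true e) * ((n : ℤ) * (u e : ℤ))
            = n * ∑ e, ((P c false e : ℤ) - P c true e) * (u e : ℤ) := by
              rw [Finset.mul_sum]
              refine Finset.sum_congr rfl fun e _ => by ring
          _ = 0 := by rw [hBu c, mul_zero]
      rw [h4]
      simp)
    refine le_trans (mul_le_mul_of_nonneg_right ?_ (hSt0 δ)) h1
    exact Real.exp_le_exp.mpr (neg_le_neg hw2)

end Pool.Agent.Helper60.MV
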