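import Pool.Agent.Helper60.MV.B.Kern
import Pool.Agent.Helper60.MV.B.Shift
import Pool.Agent.Helper60.MV.B.CorrSum

/-!
MV-B7. Grouping the full lattice sum by `δ = B l`.

Proof. For `l : ι → ℕ+` put `p_c = p_{c,false}(l)`, `p'_c = p_{c,true}(l)`, `δ_c = p_c - p'_c ∈ ℤ`. By `kern_upper`, `kern_lower` with
`p = t p_c`: `kern ε (t p_c) (t p'_c)` is between `e^{∓ε} phi(t p_c) corr ε (t δ_c)`. Multiply over `c`, sum over `l` and group by the
value `δ` of `B l`.
`∑'_l Π_c phi(t p_c) corr ε (t δ_c(l)) = ∑'_δ Π_c corr ε (t δ_c) · St P t δ`: only finitely many `δ` matter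
(`corr_sum_finite`) and for each of them the sum over `l` converges (`st_summable`).
-/

namespace Pool.Agent.Helper60.MV

open Finset MeasureTheory Filter Topology

theorem pR_scale {ι κ : Type} [Fintype ι] (P : κ → Bool → ι → ℕ) (c : κ) (b : Bool) (t : ℝ)
    (l : ι → ℕ+) :
    pR P c b (fun e => t * ((l e : ℕ) : ℝ)) = t * (pN P c b (fun e => (l e : ℕ)) : ℝ) := by
  unfold pR pN
  push_cast
  rw [Finset.mul_sum]
  refine Finset.sum_congr rfl (fun e _ => ?_)
  ring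

/-- the comparison function of the grouping -/
noncomputable def grpG {ι κ : Type} [Fintype ι] [Fintype κ] (P : κ → Bool → ι → ℕ) (ε t : ℝ)
    (l : ι → ℕ+) : ℝ :=
  ∏ c, (phi (t * (pN P c false (fun e => (l e : ℕ)) : ℝ)) *
    corr ε (t * (((pN P c false (fun e => (l e : ℕ)) : ℤ) -
      (pN P c true (fun e => (l e : ℕ)) : ℤ) : ℤ) : ℝ)))

theorem grpG_nonneg {ι κ : Type} [Fintype ι] [Fintype κ] (P : κ → Bool → ι → ℕ) (ε t : ℝ)
    (hε : 0 < ε) (l : ι → ℕ+) : 0 ≤ grpG P ε t l :=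
  Finset.prod_nonneg (fun _ _ => mul_nonneg (phi_pos _).le (corr_nonneg ε hε _))

theorem grpG_hasSum {ι κ : Type} [Fintype ι] [Fintype κ] (P : κ → Bool → ι → ℕ) (hP : Adm P)
    (ε t : ℝ) (hε : 0 < ε) (ht : 0 < t) :
    HasSum (grpG P ε t) (∑' δ : κ → ℤ, (∏ c, corr ε (t * (δ c : ℝ))) * St P t δ) := by
  classical
  set F : Finset (κ → ℤ) := (corr_sum_finite (κ := κ) ε hε t ht).toFinset with hF
  have hmem : ∀ δ : κ → ℤ, δ ∉ F → ∏ c, corr ε (t * (δ c : ℝ)) = 0 := by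
    intro δ hδ
    rw [hF, Set.Finite.mem_toFinset, Function.mem_support, not_not] at hδ
    exact hδ
  have h1 : ∑' δ : κ → ℤ, (∏ c, corr ε (t * (δ c : ℝ))) * St P t δ =
      ∑ δ ∈ F, (∏ c, corr ε (t * (δ c : ℝ))) * St P t δ := by
    refine tsum_eq_sum (fun δ hδ => ?_)
    rw [hmem δ hδ, zero_mul]
  rw [h1]
  have h2 : ∀ δ ∈ F, HasSum (fun l : ι → ℕ+ => (∏ c, corr ε (t * (δ c : ℝ))) *
      (if ∀ c, (pN P c false (fun e => (l e : ℕ)) : ℤ) - (pN P c true (fun e => (l e : ℕ)) : ℤ)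
        = δ c then ∏ c : κ, phi (t * (pN P c false (fun e => (l e : ℕ)) : ℝ)) else 0))
      ((∏ c, corr ε (t * (δ c : ℝ))) * St P t δ) := by
    intro δ _
    refine HasSum.mul_left _ ?_
    have hs := (st_summable P hP t ht δ).hasSum
    unfold St
    exact hs
  have h3 := hasSum_sum h2
  have h4 : (fun l : ι → ℕ+ => ∑ δ ∈ F, (∏ c, corr ε (t * (δ c : ℝ))) *
      (if ∀ c, (pN P c false (fun e => (l e : ℕ)) : ℤ) - (pN P c true (fun e => (l e : ℕ)) : ℤ)
        = δ c then ∏ c : κ, phi (t * (pN P c false (fun e => (l e : ℕ)) : ℝ)) else 0)) =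
      grpG P ε t := by
    funext l
    set δ0 : κ → ℤ := fun c =>
      (pN P c false (fun e => (l e : ℕ)) : ℤ) - (pN P c true (fun e => (l e : ℕ)) : ℤ) with hδ0
    have hG : grpG P ε t l = (∏ c, corr ε (t * (δ0 c : ℝ))) *
        ∏ c : κ, phi (t * (pN P c false (fun e => (l e : ℕ)) : ℝ)) := by
      unfold grpG
      rw [Finset.prod_mul_distrib, mul_comm]
    have hz : ∀ δ ∈ F, δ ≠ δ0 → (∏ c, corr ε (t * (δ c : ℝ))) *
      (if ∀ c, (pN P c false (fun e => (l e : ℕ)) : ℤ) - (pN P c true (fun e => (l e : ℕ)) : ℤ)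
        = δ c then ∏ c : κ, phi (t * (pN P c false (fun e => (l e : ℕ)) : ℝ)) else 0) = 0 := by
      intro δ _ hne
      rw [if_neg, mul_zero]
      intro hall
      exact hne (funext (fun c => (hall c).symm))
    by_cases hin : δ0 ∈ F
    · rw [Finset.sum_eq_single_of_mem δ0 hin hz, if_pos (fun c => rfl), hG]
    · rw [hG, hmem δ0 hin, zero_mul]
      refine Finset.sum_eq_zero (fun δ hδ => hz δ hδ ?_)
      rintro rfl
      exact hin hδ
  rw [h4] at h3
  exact h3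

theorem kern_prod_upper {ι κ : Type} [Fintype ι] [Fintype κ] (P : κ → Bool → ι → ℕ)
    (ε t : ℝ) (hε : 0 < ε) (l : ι → ℕ+) :
    (∏ c, kern ε (pR P c false (fun e => t * ((l e : ℕ) : ℝ)))
      (pR P c true (fun e => t * ((l e : ℕ) : ℝ)))) ≤
    Real.exp (Fintype.card κ * ε) * grpG P ε t l := by
  have h : Real.exp (Fintype.card κ * ε) * grpG P ε t l =
      ∏ c : κ, (Real.exp ε * (phi (t * (pN P c false (fun e => (l e : ℕ)) : ℝ)) *
    corr ε (t * (((pN P c false (fun e => (l e : ℕ)) : ℤ) -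
      (pN P c true (fun e => (l e : ℕ)) : ℤ) : ℤ) : ℝ)))) := by
    rw [Finset.prod_mul_distrib, Finset.prod_const, Finset.card_univ, ← Real.exp_nat_mul]
    rfl
  rw [h]
  refine Finset.prod_le_prod (fun c _ => kern_nonneg ε hε _ _) (fun c _ => ?_)
  rw [pR_scale, pR_scale]
  have h2 := kern_upper ε hε (t * (pN P c false (fun e => (l e : ℕ)) : ℝ))
    (t * (pN P c true (fun e => (l e : ℕ)) : ℝ))
  have h3 : t * (pN P c false (fun e => (l e : ℕ)) : ℝ) -
    (t * (pN P c true (fun e => (l e : ℕ)) : ℝ)) = t * (((pN P c false (fun e => (l e : ℕ)) : ℤ) -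
      (pN P c true (fun e => (l e : ℕ)) : ℤ) : ℤ) : ℝ) := by
    push_cast
    ring
  rw [h3, mul_assoc] at h2
  exact h2

theorem kern_prod_lower {ι κ : Type} [Fintype ι] [Fintype κ] (P : κ → Bool → ι → ℕ)
    (ε t : ℝ) (hε : 0 < ε) (l : ι → ℕ+) :
    Real.exp (-(Fintype.card κ * ε)) * grpG P ε t l ≤
    (∏ c, kern ε (pR P c false (fun e => t * ((l e : ℕ) : ℝ)))
      (pR P c true (fun e => t * ((l e : ℕ) : ℝ)))) := by
  have h : Real.exp (-(Fintype.card κ * ε)) * grpG P ε t l =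
      ∏ c : κ, (Real.exp (-ε) * (phi (t * (pN P c false (fun e => (l e : ℕ)) : ℝ)) *
    corr ε (t * (((pN P c false (fun e => (l e : ℕ)) : ℤ) -
      (pN P c true (fun e => (l e : ℕ)) : ℤ) : ℤ) : ℝ)))) := by
    rw [Finset.prod_mul_distrib, Finset.prod_const, Finset.card_univ, ← Real.exp_nat_mul,
      mul_neg]
    rfl
  rw [h]
  refine Finset.prod_le_prod (fun c _ => mul_nonneg (Real.exp_pos _).le
    (mul_nonneg (phi_pos _).le (corr_nonneg ε hε _))) (fun c _ => ?_)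
  rw [pR_scale, pR_scale]
  have h2 := kern_lower ε hε (t * (pN P c false (fun e => (l e : ℕ)) : ℝ))
    (t * (pN P c true (fun e => (l e : ℕ)) : ℝ))
  have h3 : t * (pN P c false (fun e => (l e : ℕ)) : ℝ) -
    (t * (pN P c true (fun e => (l e : ℕ)) : ℝ)) = t * (((pN P c false (fun e => (l e : ℕ)) : ℤ) -
      (pN P c true (fun e => (l e : ℕ)) : ℤ) : ℤ) : ℝ) := by
    push_cast
    ring
  rw [h3, mul_assoc] at h2
  exact h2

theorem kern_prod_summable {ι κ : Type} [Fintype ι] [Fintype κ] (P : κ → Bool → ι → ℕ)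
    (hP : Adm P) (ε t : ℝ) (hε : 0 < ε) (ht : 0 < t) :
    Summable (fun l : ι → ℕ+ => ∏ c, kern ε (pR P c false (fun e => t * ((l e : ℕ) : ℝ)))
      (pR P c true (fun e => t * ((l e : ℕ) : ℝ)))) :=
  Summable.of_nonneg_of_le (fun _ => Finset.prod_nonneg (fun _ _ => kern_nonneg ε hε _ _))
    (fun l => kern_prod_upper P ε t hε l) ((grpG_hasSum P hP ε t hε ht).summable.mul_left _)

theorem group_upper {ι κ : Type} [Fintype ι] [Fintype κ] (P : κ → Bool → ι → ℕ) (hP : Adm P)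
    (ε t : ℝ) (hε : 0 < ε) (ht : 0 < t) :
    (∑' l : ι → ℕ+, ∏ c, kern ε (pR P c false (fun e => t * ((l e : ℕ) : ℝ)))
      (pR P c true (fun e => t * ((l e : ℕ) : ℝ)))) ≤
    Real.exp (Fintype.card κ * ε) * ∑' δ : κ → ℤ, (∏ c, corr ε (t * (δ c : ℝ))) * St P t δ := by
  have hG := grpG_hasSum P hP ε t hε ht
  rw [← hG.tsum_eq, ← tsum_mul_left]
  exact (kern_prod_summable P hP ε t hε ht).tsum_le_tsum
    (fun l => kern_prod_upper P ε t hε l) (hG.summable.mul_left _)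

theorem group_lower {ι κ : Type} [Fintype ι] [Fintype κ] (P : κ → Bool → ι → ℕ) (hP : Adm P)
    (ε t : ℝ) (hε : 0 < ε) (ht : 0 < t) :
    Real.exp (-(Fintype.card κ * ε)) * (∑' δ : κ → ℤ, (∏ c, corr ε (t * (δ c : ℝ))) * St P t δ) ≤
    ∑' l : ι → ℕ+, ∏ c, kern ε (pR P c false (fun e => t * ((l e : ℕ) : ℝ)))
      (pR P c true (fun e => t * ((l e : ℕ) : ℝ))) := by
  have hG := grpG_hasSum P hP ε t hε ht
  rw [← hG.tsum_eq, ← tsum_mul_left]
  exact (hG.summable.mul_left _).tsum_le_tsum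
    (fun l => kern_prod_lower P ε t hε l) (kern_prod_summable P hP ε t hε ht)

end Pool.Agent.Helper60.MV
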