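import Pool.Agent.Helper60.MV.B.Spec

/-!
MV-B9. Karamata, polynomial test functions.

Proof. For `p = X^m`: `t^E ∑ c_n e^{-tn} e^{-mtn} = t^E F((m+1)t) -> C/(m+1)^E`, and
`∫_0^∞ u^{E-1} e^{-(m+1)u} du = (E-1)!/(m+1)^E`. Linear combinations.
-/

namespace Pool.Agent.Helper60.MV

open Finset MeasureTheory Filter Topology

theorem kar_poly_int (E : ℕ) (hE : 1 ≤ E) (m : ℕ) :
    ∫ u in Set.Ioi (0:ℝ), u ^ (E - 1) * Real.exp (-((m + 1 : ℝ) * u)) =
      ((E - 1).factorial : ℝ) / ((m : ℝ) + 1) ^ E := by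
  obtain ⟨e, rfl⟩ : ∃ e, E = e + 1 := ⟨E - 1, by omega⟩
  have hm : (0:ℝ) < (m : ℝ) + 1 := by positivity
  have h := Real.integral_rpow_mul_exp_neg_mul_Ioi (a := ((e : ℝ) + 1)) (r := (m : ℝ) + 1)
    (by positivity) hm
  have h2 : ∫ u in Set.Ioi (0:ℝ), u ^ (e + 1 - 1) * Real.exp (-((m + 1 : ℝ) * u)) =
      ∫ t in Set.Ioi (0:ℝ), t ^ ((e : ℝ) + 1 - 1) * Real.exp (-(((m : ℝ) + 1) * t)) := by
    apply setIntegral_congr_fun measurableSet_Ioi
    intro u hu
    simp only [add_sub_cancel_right, Nat.add_sub_cancel, Real.rpow_natCast]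
  rw [h2, h, Real.Gamma_nat_eq_factorial]
  rw [show (1 / ((m : ℝ) + 1)) ^ ((e : ℝ) + 1) = (1 / ((m : ℝ) + 1)) ^ (e + 1) by
    rw [← Real.rpow_natCast]; push_cast; rfl]
  rw [one_div, inv_pow]
  simp only [Nat.add_sub_cancel]
  field_simp

theorem kar_poly (c : ℕ → ℝ) (hc : ∀ n, 0 ≤ c n) (E : ℕ) (hE : 1 ≤ E) (C : ℝ) (F : ℝ → ℝ)
    (hF : ∀ t, 0 < t → HasSum (fun n : ℕ => c n * Real.exp (-(t * n))) (F t))
    (hlim : Tendsto (fun t => t ^ E * F t) (𝓝[>] (0:ℝ)) (𝓝 C)) (p : Polynomial ℝ) :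
    Tendsto (fun t : ℝ => t ^ E * ∑' n : ℕ, c n * Real.exp (-(t * n)) *
      p.eval (Real.exp (-(t * n)))) (𝓝[>] (0:ℝ))
      (𝓝 (C / ((E - 1).factorial : ℝ) *
        ∫ u in Set.Ioi (0:ℝ), u ^ (E - 1) * Real.exp (-u) * p.eval (Real.exp (-u)))) := by
  -- the integral
  have hfac : ((E - 1).factorial : ℝ) ≠ 0 := by positivity
  have hint : ∀ m : ℕ, Integrable (fun u : ℝ => u ^ (E - 1) * Real.exp (-((m + 1 : ℝ) * u)))
      (volume.restrict (Set.Ioi (0:ℝ))) := by
    intro m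
    by_contra hcon
    have h := integral_undef hcon
    rw [kar_poly_int E hE m] at h
    have : (0:ℝ) < ((E - 1).factorial : ℝ) / ((m : ℝ) + 1) ^ E := by positivity
    linarith
  have hI : ∫ u in Set.Ioi (0:ℝ), u ^ (E - 1) * Real.exp (-u) * p.eval (Real.exp (-u)) =
      ∑ m ∈ range (p.natDegree + 1), p.coeff m *
        (((E - 1).factorial : ℝ) / ((m : ℝ) + 1) ^ E) := by
    have h1 : ∀ u : ℝ, u ^ (E - 1) * Real.exp (-u) * p.eval (Real.exp (-u)) =
        ∑ m ∈ range (p.natDegree + 1), p.coeff m *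
          (u ^ (E - 1) * Real.exp (-((m + 1 : ℝ) * u))) := by
      intro u
      rw [Polynomial.eval_eq_sum_range, Finset.mul_sum]
      apply Finset.sum_congr rfl
      intro m _
      rw [← Real.exp_nat_mul, show -((m + 1 : ℝ) * u) = -u + (m : ℝ) * -u by ring, Real.exp_add]
      ring
    simp_rw [h1]
    rw [integral_finset_sum _ (fun m _ => (hint m).const_mul _)]
    apply Finset.sum_congr rfl
    intro m _
    rw [integral_const_mul, kar_poly_int E hE m]
  -- the sum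
  have hS : ∀ t : ℝ, 0 < t → ∑' n : ℕ, c n * Real.exp (-(t * n)) *
      p.eval (Real.exp (-(t * n))) =
      ∑ m ∈ range (p.natDegree + 1), p.coeff m * F (((m : ℝ) + 1) * t) := by
    intro t ht
    apply HasSum.tsum_eq
    have h1 : ∀ n : ℕ, c n * Real.exp (-(t * n)) * p.eval (Real.exp (-(t * n))) =
        ∑ m ∈ range (p.natDegree + 1), p.coeff m *
          (c n * Real.exp (-((((m : ℝ) + 1) * t) * n))) := by
      intro n
      rw [Polynomial.eval_eq_sum_range, Finset.mul_sum]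
      apply Finset.sum_congr rfl
      intro m _
      rw [← Real.exp_nat_mul,
        show -((((m : ℝ) + 1) * t) * n) = -(t * n) + (m : ℝ) * -(t * n) by ring, Real.exp_add]
      ring
    simp_rw [h1]
    apply hasSum_sum
    intro m _
    exact (hF _ (by positivity)).mul_left _
  -- the limit of each term
  have hterm : ∀ m : ℕ, Tendsto (fun t : ℝ => t ^ E * F (((m : ℝ) + 1) * t)) (𝓝[>] (0:ℝ))
      (𝓝 (C / ((m : ℝ) + 1) ^ E)) := by
    intro m
    have hm : (0:ℝ) < (m : ℝ) + 1 := by positivity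
    have hsc : Tendsto (fun t : ℝ => ((m : ℝ) + 1) * t) (𝓝[>] (0:ℝ)) (𝓝[>] (0:ℝ)) := by
      apply tendsto_nhdsWithin_iff.2
      constructor
      · have : Tendsto (fun t : ℝ => ((m : ℝ) + 1) * t) (𝓝 0) (𝓝 (((m : ℝ) + 1) * 0)) :=
          (continuous_const.mul continuous_id).tendsto 0
        rw [mul_zero] at this
        exact this.mono_left nhdsWithin_le_nhds
      · filter_upwards [self_mem_nhdsWithin] with t ht
        exact mul_pos hm ht
    have h := (hlim.comp hsc).div_const (((m : ℝ) + 1) ^ E)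
    refine h.congr' ?_
    filter_upwards [self_mem_nhdsWithin] with t ht
    simp only [Function.comp]
    rw [mul_pow]
    field_simp
  have hlimsum : Tendsto (fun t : ℝ => ∑ m ∈ range (p.natDegree + 1), p.coeff m *
      (t ^ E * F (((m : ℝ) + 1) * t))) (𝓝[>] (0:ℝ))
      (𝓝 (∑ m ∈ range (p.natDegree + 1), p.coeff m * (C / ((m : ℝ) + 1) ^ E))) :=
    tendsto_finset_sum _ (fun m _ => (hterm m).const_mul _)
  have heq : C / ((E - 1).factorial : ℝ) *
      ∫ u in Set.Ioi (0:ℝ), u ^ (E - 1) * Real.exp (-u) * p.eval (Real.exp (-u)) =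
      ∑ m ∈ range (p.natDegree + 1), p.coeff m * (C / ((m : ℝ) + 1) ^ E) := by
    rw [hI, Finset.mul_sum]
    apply Finset.sum_congr rfl
    intro m _
    field_simp
  rw [heq]
  refine hlimsum.congr' ?_
  filter_upwards [self_mem_nhdsWithin] with t ht
  rw [hS t ht, Finset.mul_sum]
  apply Finset.sum_congr rfl
  intro m _
  ring

end Pool.Agent.Helper60.MV
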