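import Pool.Agent.Helper60.MV.DefsC

/-!
Project MV, block B: common definitions.
-/

namespace Pool.Agent.Helper60.MV

open Finset MeasureTheory Filter Topology

/-- autocorrelation of the tent -/
noncomputable def corr (ε d : ℝ) : ℝ := ∫ z : ℝ, tentE ε z * tentE ε (z - d)

/-- perimeter of the face `b` of the cylinder `c`, natural number lengths -/
def pN {ι κ : Type} [Fintype ι] (P : κ → Bool → ι → ℕ) (c : κ) (b : Bool) (l : ι → ℕ) : ℕ :=
  ∑ e, P c b e * l e

/-- perimeter, real lengths -/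
noncomputable def pR {ι κ : Type} [Fintype ι] (P : κ → Bool → ι → ℕ) (c : κ) (b : Bool)
    (x : ι → ℝ) : ℝ :=
  ∑ e, (P c b e : ℝ) * x e

/-- lattice sum with prescribed differences `δ` of the perimeters -/
noncomputable def St {ι κ : Type} [Fintype ι] [Fintype κ] (P : κ → Bool → ι → ℕ) (t : ℝ)
    (δ : κ → ℤ) : ℝ := by
  classical
  exact ∑' l : ι → ℕ+,
    if ∀ c, (pN P c false (fun e => (l e : ℕ)) : ℤ) - (pN P c true (fun e => (l e : ℕ)) : ℤ) = δ c
    then ∏ c : κ, phi (t * (pN P c false (fun e => (l e : ℕ)) : ℝ)) else 0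

/-- hypotheses of block B1 -/
structure Adm {ι κ : Type} [Fintype ι] [Fintype κ] (P : κ → Bool → ι → ℕ) : Prop where
  col : ∀ e, ∑ c, (P c false e + P c true e) = 2
  good : ∃ u : ι → ℕ, (∀ e, 0 < u e) ∧ ∀ c, ∑ e, P c false e * u e = ∑ e, P c true e * u e
  im : ∀ c c' : κ, ∃ z : ι → ℤ, ∀ c'' : κ, ∑ e, ((P c'' false e : ℤ) - P c'' true e) * z e =
    (by classical exact (if c'' = c then 1 else 0) + (if c'' = c' then 1 else 0))

end Pool.Agent.Helper60.MV
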